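import Pool.Agent.MP_be2dd8_ag.H53D.Spec
import Pool.Agent.MP_db5b97_nt.H72.Z
import Pool.Agent.MP_db5b97_nt.H19.DENS

set_option autoImplicit false

/-! Every automorphism of a number field fixes infinitely many primes. -/

namespace Pool.Agent.MP_be2dd8_ag.H53D

namespace DENS

open NumberField IsDedekindDomain Filter Topology Asymptotics MulAction
open Pool.Agent.MP_db5b97_nt.H85 Pool.Agent.MP_db5b97_nt.H19
open Pool.Agent.MP_db5b97_nt.H72 (rowZ)
open scoped Pointwise Classical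

theorem hasSum_fib {X Y : Type} (f : X → Y) {a : X → ℝ} {b : Y → ℝ} (ha : ∀ x, 0 ≤ a x)
    (hb : Summable b) (h : ∀ y, HasSum (fun x : {x // f x = y} => a x) (b y)) :
    HasSum a (∑' y, b y) := by
  rw [← (Equiv.sigmaFiberEquiv f).hasSum_iff]
  refine hb.hasSum.sigma_of_hasSum h ((summable_sigma_of_nonneg fun _ => ha _).2
    ⟨fun y => (h y).summable, hb.congr fun y => (h y).tsum_eq.symm⟩)

variable {M : Type} [Field M] [NumberField M]

/-- the order of the decomposition group -/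
noncomputable def dd (G : Type) [Group G] [MulSemiringAction G M] (Q : Sp M) : ℕ :=
  Nat.card (stabilizer G Q.asIdeal)

section gal

variable (G k : Type) [Group G] [Finite G] [MulSemiringAction G M] [Field k] [NumberField k]
  [Algebra k M] [IsGaloisGroup G k M]

theorem norm_eq (Q : Sp M) (hI : Q.asIdeal.inertia G = ⊥) :
    Ideal.absNorm (und k Q).asIdeal ^ dd G Q = Ideal.absNorm Q.asIdeal := by
  have : Q.asIdeal.LiesOver (und k Q).asIdeal := ⟨rfl⟩
  have := Q.isPrime
  have := (und k Q).isMaximal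
  have : Finite (𝓞 k ⧸ (und k Q).asIdeal) :=
    Ideal.finiteQuotientOfFreeOfNeBot _ (und k Q).ne_bot
  rw [dd, Ideal.card_stabilizer_eq_card_inertia_mul_finrank (und k Q).asIdeal, hI,
    Subgroup.card_bot, one_mul]
  exact Ideal.absNorm_pow_inertiaDeg _ _

theorem hasSum_un {s : ℝ} (hs : 1 < s) :
    HasSum (fun Q : Sp M => dd G Q * nz (und k Q).asIdeal s)
      (Nat.card G * ∑' q : Sp k, nz q.asIdeal s) := by
  rw [← tsum_mul_left]
  refine hasSum_fib (und k) (fun Q => mul_nonneg (Nat.cast_nonneg _) (nz_nonneg _ _))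
    ((sum_sp rowZ hs).mul_left _) fun q => ?_
  have := q.isPrime
  let e : {Q : Sp M // und k Q = q} ≃ q.asIdeal.primesOver (𝓞 M) :=
    { toFun := fun Q => ⟨Q.1.asIdeal, Q.1.isPrime, ⟨congrArg (·.asIdeal) Q.2.symm⟩⟩
      invFun := fun Q => ⟨⟨Q.1, Q.2.1, Ideal.ne_bot_of_mem_primesOver q.ne_bot Q.2⟩,
        HeightOneSpectrum.ext Q.2.2.over.symm⟩
      left_inv := fun _ => rfl
      right_inv := fun _ => rfl }
  have : Finite (q.asIdeal.primesOver (𝓞 M)) := Algebra.QuasiFinite.finite_primesOver q.asIdeal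
  have := Finite.of_equiv _ e.symm
  have := Fintype.ofFinite {Q : Sp M // und k Q = q}
  have h1 : ∀ Q : {Q : Sp M // und k Q = q}, (Fintype.card {Q : Sp M // und k Q = q} : ℝ) *
      dd G Q.1 = Nat.card G := fun Q => by
    have := Q.1.isPrime
    have : Q.1.asIdeal.LiesOver q.asIdeal := (e Q).2.2
    have h := Nat.card_congr (orbitProdStabilizerEquivGroup G Q.1.asIdeal)
    rw [Nat.card_prod, Algebra.IsInvariant.orbit_eq_primesOver (𝓞 k) (𝓞 M) G q.asIdeal
      Q.1.asIdeal, ← Nat.card_congr e, Nat.card_eq_fintype_card] at h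
    exact_mod_cast h
  have h0 : (Fintype.card {Q : Sp M // und k Q = q} : ℝ) ≠ 0 :=
    Nat.cast_ne_zero.2 (Fintype.card_pos_iff.2 ⟨e.symm (Classical.arbitrary _)⟩).ne'
  convert hasSum_fintype _ using 1
  refine mul_left_cancel₀ h0 ?_
  rw [Finset.mul_sum, Finset.sum_congr rfl fun Q _ => by rw [← mul_assoc, h1 Q, Q.2],
    Finset.sum_const, Finset.card_univ, nsmul_eq_mul]

end gal

variable (M) in
/-- the group of automorphisms -/
abbrev Au : Type := M ≃ₐ[ℚ] M

/-- the decomposition group -/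
abbrev D (Q : Sp M) : Subgroup (Au M) := stabilizer (Au M) Q.asIdeal

/-- the weight of a prime -/
noncomputable def w (s : ℝ) (Q : Sp M) : ℝ :=
  Nat.card (D Q) * nz (und (FixedPoints.subfield (Au M) M) Q).asIdeal s

theorem w_nonneg (s : ℝ) (Q : Sp M) : 0 ≤ w s Q := mul_nonneg (Nat.cast_nonneg _) (nz_nonneg _ _)

theorem sum_w {s : ℝ} (hs : 1 < s) : Summable (w (M := M) s) := (hasSum_un _ _ hs).summable

theorem w_le {s : ℝ} (hs : 1 < s) (Q : Sp M) : w s Q ≤ Nat.card (Au M) :=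
  (mul_le_of_le_one_right (Nat.cast_nonneg _) (nz_le_one _ (by linarith))).trans
    (Nat.cast_le.2 (Subgroup.card_le_card_group _))

theorem sum_ite {s : ℝ} (hs : 1 < s) (p : Sp M → Prop) :
    Summable fun Q => if p Q then w s Q else 0 :=
  Summable.of_nonneg_of_le (fun Q => by split_ifs; exacts [w_nonneg s Q, le_rfl])
    (fun Q => by split_ifs; exacts [le_rfl, w_nonneg s Q]) (sum_w hs)

theorem ram_finite : {Q : Sp M | Q.asIdeal.inertia (Au M) ≠ ⊥}.Finite := by
  have h : ∀ τ : Au M, ∃ x : 𝓞 M, τ ≠ 1 → τ • x - x ≠ 0 := fun τ => by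
    by_contra! h
    have : FaithfulSMul (Au M) (𝓞 M) :=
      IsGaloisGroup.faithful (𝓞 (FixedPoints.subfield (Au M) M))
    exact (h 0).1 (eq_of_smul_eq_smul (α := 𝓞 M) fun x => by
      rw [one_smul, ← sub_eq_zero]; exact (h x).2)
  choose x hx using h
  refine (Set.finite_iUnion fun τ : {τ : Au M // τ ≠ 1} =>
    Ideal.finite_factors (I := Ideal.span {τ.1 • x τ.1 - x τ.1})
      (by simpa using hx τ.1 τ.2)).subset fun Q hQ => ?_
  obtain ⟨⟨τ, h1⟩, h2⟩ := Subgroup.ne_bot_iff_exists_ne_one.1 hQ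
  exact Set.mem_iUnion.2 ⟨⟨τ, fun h => h2 (Subtype.ext h)⟩, Ideal.dvd_span_singleton.2 (h1 _)⟩

theorem card_stab (H : Subgroup (Au M)) (Q : Sp M) :
    dd H Q = Nat.card (D Q ⊓ H : Subgroup (Au M)) := by
  rw [← Nat.card_congr (Subgroup.subgroupOfEquivOfLe (inf_le_right (a := D Q))).toEquiv]
  exact congrArg (fun J : Subgroup H => Nat.card J) (Subgroup.ext fun x =>
    ⟨fun h => ⟨h, x.2⟩, fun h => h.1⟩)

theorem term (H : Subgroup (Au M)) {s : ℝ} (hs : 1 < s) (Q : Sp M) :
    ‖dd H Q * nz (und (FixedPoints.subfield H M) Q).asIdeal s -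
      if D Q ≤ H then w s Q else 0‖ ≤
      (if Q.asIdeal.inertia (Au M) ≠ ⊥ then (Nat.card (Au M) : ℝ) else 0) + w 2 Q := by
  have h0 := w_nonneg 2 Q
  have h1 : Nat.card (D Q ⊓ H : Subgroup (Au M)) ∣ Nat.card (D Q) :=
    Subgroup.card_dvd_of_le inf_le_left
  have h2 : (Nat.card (D Q ⊓ H : Subgroup (Au M)) : ℝ) ≤ Nat.card (D Q) :=
    Nat.cast_le.2 (Nat.le_of_dvd Nat.card_pos h1)
  rw [card_stab, Real.norm_eq_abs]
  by_cases hI : Q.asIdeal.inertia (Au M) = ⊥
  · have a := norm_eq (Au M) (FixedPoints.subfield (Au M) M) Q hI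
    have b := norm_eq H (FixedPoints.subfield H M) Q
      (eq_bot_iff.2 fun x hx => Subtype.ext (eq_bot_iff.1 hI (Ideal.coe_mem_inertia.2 hx)))
    obtain ⟨j, hj⟩ := h1
    rw [card_stab, ← a, dd, hj, pow_mul', pow_left_inj₀ zero_le zero_le Nat.card_pos.ne'] at b
    rw [if_neg (not_not.2 hI), zero_add]
    split_ifs with h
    · rw [inf_eq_left.2 h] at hj ⊢
      rw [(mul_eq_left₀ Nat.card_pos.ne').1 hj.symm, pow_one] at b
      rw [w, nz, nz, b, sub_self, abs_zero]
      exact h0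
    · have j0 : j ≠ 0 := by
        rintro rfl
        exact Nat.card_pos.ne' hj
      have j1 : j ≠ 1 := by
        rintro rfl
        exact h (inf_eq_left.1 (Subgroup.eq_of_le_of_card_ge inf_le_left (by omega)))
      have j2 : (2 : ℝ) ≤ j := by exact_mod_cast (by omega : 2 ≤ j)
      rw [sub_zero, abs_of_nonneg (mul_nonneg (Nat.cast_nonneg _) (nz_nonneg _ _))]
      refine mul_le_mul h2 ?_ (nz_nonneg _ _) (Nat.cast_nonneg _)
      rw [nz, nz, b, Nat.cast_pow, ← Real.rpow_natCast, ← Real.rpow_mul (Nat.cast_nonneg _)]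
      exact Real.rpow_le_rpow_of_exponent_le (one_le_norm _) (by nlinarith)
  · have a := w_le hs Q
    have b := w_nonneg s Q
    have c := nz_nonneg (und (FixedPoints.subfield H M) Q).asIdeal s
    have d : (Nat.card (D Q ⊓ H : Subgroup (Au M)) : ℝ) *
        nz (und (FixedPoints.subfield H M) Q).asIdeal s ≤ Nat.card (Au M) :=
      (mul_le_of_le_one_right (Nat.cast_nonneg _) (nz_le_one _ (by linarith))).trans
        (Nat.cast_le.2 (Subgroup.card_le_card_group _))
    have e := mul_nonneg (Nat.cast_nonneg (α := ℝ) (Nat.card (D Q ⊓ H : Subgroup (Au M)))) c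
    rw [if_pos hI, abs_le]
    split_ifs <;> constructor <;> linarith

/-- `f s = c log (1 / (s - 1)) + O(1)` -/
def As (f : ℝ → ℝ) (c : ℕ) : Prop :=
  (fun s => f s - c * Real.log (1 / (s - 1))) =O[𝓝[>] 1] fun _ => (1 : ℝ)

theorem as_le (H : Subgroup (Au M)) :
    As (fun s => ∑' Q : Sp M, if D Q ≤ H then w s Q else 0) (Nat.card H) := by
  obtain ⟨C, hC⟩ := (rowZ (FixedPoints.subfield H M)).2.2
  have h1 : Summable fun Q : Sp M =>
      (if Q.asIdeal.inertia (Au M) ≠ ⊥ then (Nat.card (Au M) : ℝ) else 0) + w 2 Q :=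
    (summable_of_hasFiniteSupport (ram_finite.subset fun Q hQ h =>
      hQ (if_neg (not_not.2 h)))).add (sum_w one_lt_two)
  refine IsBigO.of_bound (Nat.card H * C + ∑' Q : Sp M,
    ((if Q.asIdeal.inertia (Au M) ≠ ⊥ then (Nat.card (Au M) : ℝ) else 0) + w 2 Q)) ?_
  filter_upwards [hC, self_mem_nhdsWithin] with s h (hs : 1 < s)
  have h2 := hasSum_un (M := M) H (FixedPoints.subfield H M) hs
  have h3 := tsum_of_norm_bounded h1.hasSum (term H hs)
  rw [h2.summable.tsum_sub (sum_ite hs _), h2.tsum_eq, Real.norm_eq_abs, abs_le] at h3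
  have h4 := mul_le_mul_of_nonneg_left h (Nat.cast_nonneg (α := ℝ) (Nat.card H))
  rw [← Nat.abs_cast (R := ℝ) (Nat.card H), ← abs_mul, Nat.abs_cast, abs_le] at h4
  rw [norm_one, mul_one, Real.norm_eq_abs, abs_le]
  constructor <;> linarith [h3.1, h3.2, h4.1, h4.2]

theorem as_eq (K : Subgroup (Au M)) : As (fun s => ∑' Q : Sp M, if D Q = K then w s Q else 0)
    (Nat.card {τ : Au M // Subgroup.zpowers τ = K}) := by
  have := Fintype.ofFinite (Au M)
  have := Fintype.ofFinite (Subgroup (Au M))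
  induction K using WellFoundedLT.induction with
  | ind K ih =>
    set T := Finset.univ.filter fun J : Subgroup (Au M) => J ≤ K with hT
    have hK : K ∈ T := by simp [hT]
    have h1 : Nat.card K = ∑ J ∈ T, Nat.card {τ : Au M // Subgroup.zpowers τ = J} := by
      rw [Nat.card_eq_fintype_card, Fintype.card_subtype, Finset.card_eq_sum_card_fiberwise
        (f := Subgroup.zpowers) (t := T) fun τ hτ => by simpa [hT] using hτ]
      refine Finset.sum_congr rfl fun J hJ => ?_
      rw [Nat.card_eq_fintype_card, Fintype.card_subtype, Finset.filter_filter]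
      refine congrArg _ (Finset.filter_congr fun τ _ => and_iff_right_of_imp ?_)
      rintro rfl
      simpa [hT] using hJ
    have h2 := (as_le K).sub (IsBigO.sum fun J (hJ : J ∈ T.erase K) => ih J
      (lt_of_le_of_ne (by simpa [hT] using (Finset.mem_erase.1 hJ).2) (Finset.mem_erase.1 hJ).1))
    refine h2.congr' ?_ EventuallyEq.rfl
    filter_upwards [self_mem_nhdsWithin] with s (hs : 1 < s)
    have h3 : ∑' Q : Sp M, (if D Q ≤ K then w s Q else 0) =
        ∑ J ∈ T, ∑' Q : Sp M, if D Q = J then w s Q else 0 := by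
      rw [← Summable.tsum_finsetSum fun J _ => sum_ite hs _]
      exact tsum_congr fun Q => by simp [hT]
    rw [h3, h1, ← Finset.add_sum_erase _ _ hK, ← Finset.add_sum_erase _ _ hK,
      Finset.sum_apply, Finset.sum_sub_distrib, ← Finset.sum_mul]
    push_cast
    ring

theorem infinite (σ : Au M) : {Q : Sp M | D Q = Subgroup.zpowers σ}.Infinite := by
  intro hf
  obtain ⟨C, hC⟩ := (as_eq (Subgroup.zpowers σ)).bound
  have h1 : (1 : ℝ) ≤ Nat.card {τ : Au M // Subgroup.zpowers τ = Subgroup.zpowers σ} := by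
    have : Nonempty {τ : Au M // Subgroup.zpowers τ = Subgroup.zpowers σ} := ⟨⟨σ, rfl⟩⟩
    exact_mod_cast Nat.card_pos
  refine not_bdd (C + hf.toFinset.card * Nat.card (Au M)) ?_
  filter_upwards [hC, self_mem_nhdsWithin, tendsto_L.eventually_ge_atTop 0] with s h (hs : 1 < s) h0
  have h2 : ∑' Q : Sp M, (if D Q = Subgroup.zpowers σ then w s Q else 0) ≤
      hf.toFinset.card * Nat.card (Au M) := by
    rw [tsum_eq_sum (s := hf.toFinset) fun Q hQ => if_neg (by simpa using hQ), ← nsmul_eq_mul]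
    refine Finset.sum_le_card_nsmul _ _ _ fun Q _ => ?_
    split_ifs
    exacts [w_le hs Q, Nat.cast_nonneg _]
  rw [norm_one, mul_one, Real.norm_eq_abs, abs_le] at h
  nlinarith [h.1]

end DENS

open scoped Pointwise in
theorem dens : DensStmt := by
  intro M _ _ σ
  refine ((DENS.infinite σ).image (f := fun Q => Q.asIdeal)
    fun _ _ _ _ h => IsDedekindDomain.HeightOneSpectrum.ext h).mono ?_
  rintro _ ⟨Q, hQ, rfl⟩
  refine ⟨Q.isMaximal, fun x y h hx => ?_⟩
  have h1 : σ • Q.asIdeal = Q.asIdeal :=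
    MulAction.mem_stabilizer_iff.1 (hQ.ge (Subgroup.mem_zpowers σ))
  have h2 : y = σ • x := Subtype.ext h
  exact h2 ▸ h1.le (Ideal.smul_mem_pointwise_smul _ _ _ hx)

end Pool.Agent.MP_be2dd8_ag.H53D
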