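import Pool.Agent.MP_be2dd8_ag.H53D.Spec

set_option autoImplicit false

/-!
The dynamics in the residue disc of a critical point with periodic residue.
-/

namespace Pool.Agent.MP_be2dd8_ag.H53D

open Polynomial

namespace DYN

variable {w : AbsoluteValue Om ℝ}

theorem add_le (hw : IsNonarchimedean w) {a b : Om} {c : ℝ} (ha : w a ≤ c) (hb : w b ≤ c) :
    w (a + b) ≤ c := (hw a b).trans (max_le ha hb)

theorem add_lt (hw : IsNonarchimedean w) {a b : Om} {c : ℝ} (ha : w a < c) (hb : w b < c) :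
    w (a + b) < c := (hw a b).trans_lt (max_lt ha hb)

theorem sum_le (hw : IsNonarchimedean w) {ι : Type} (s : Finset ι) (g : ι → Om) {c : ℝ}
    (hc : 0 ≤ c) (h : ∀ i ∈ s, w (g i) ≤ c) : w (∑ i ∈ s, g i) ≤ c := by
  classical
  induction s using Finset.induction_on with
  | empty => simpa using hc
  | insert a s ha ih =>
    rw [Finset.sum_insert ha]
    exact add_le hw (h a (Finset.mem_insert_self _ _))
      (ih fun i hi => h i (Finset.mem_insert_of_mem hi))

theorem sum_lt (hw : IsNonarchimedean w) {ι : Type} (s : Finset ι) (g : ι → Om) {c : ℝ}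
    (hc : 0 < c) (h : ∀ i ∈ s, w (g i) < c) : w (∑ i ∈ s, g i) < c := by
  classical
  induction s using Finset.induction_on with
  | empty => simpa using hc
  | insert a s ha ih =>
    rw [Finset.sum_insert ha]
    exact add_lt hw (h a (Finset.mem_insert_self _ _))
      (ih fun i hi => h i (Finset.mem_insert_of_mem hi))

theorem nat_le (hw : IsNonarchimedean w) (n : ℕ) : w (n : Om) ≤ 1 := by
  induction n with
  | zero => simp
  | succ n ih =>
    rw [Nat.cast_succ]
    exact add_le hw ih (by simp)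

theorem eq_of_sub_lt (hw : IsNonarchimedean w) {a b : Om} (h : w (a - b) < w b) : w a = w b := by
  apply le_antisymm
  · have : a = (a - b) + b := by ring
    rw [this]
    exact add_le hw h.le le_rfl
  · by_contra hlt
    have hlt : w a < w b := not_le.mp hlt
    have h2 : w (a + -(a - b)) < w b := add_lt hw hlt (by rwa [w.map_neg])
    have : a + -(a - b) = b := by ring
    rw [this] at h2
    exact lt_irrefl _ h2

theorem pow_sub_le (hw : IsNonarchimedean w) {a b : Om} {c : ℝ} (ha : w a ≤ c) (hb : w b ≤ c)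
    (n : ℕ) : w (a ^ (n + 1) - b ^ (n + 1)) ≤ w (a - b) * c ^ n := by
  have hc : 0 ≤ c := (w.nonneg a).trans ha
  induction n with
  | zero => simp
  | succ n ih =>
    have e : a ^ (n + 1 + 1) - b ^ (n + 1 + 1) =
        (a ^ (n + 1) - b ^ (n + 1)) * a + (a - b) * b ^ (n + 1) := by ring
    rw [e]
    refine add_le hw ?_ ?_
    · rw [w.map_mul, pow_succ c, ← mul_assoc]
      exact mul_le_mul ih ha (w.nonneg _) (mul_nonneg (w.nonneg _) (pow_nonneg hc _))
    · rw [w.map_mul, w.map_pow]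
      exact mul_le_mul_of_nonneg_left (pow_le_pow_left₀ (w.nonneg _) hb _) (w.nonneg _)

theorem eval_le (hw : IsNonarchimedean w) {g : Om[X]} (hg : ∀ i, w (g.coeff i) ≤ 1) {x : Om}
    (hx : w x ≤ 1) : w (g.eval x) ≤ 1 := by
  rw [eval_eq_sum_range]
  refine sum_le hw _ _ zero_le_one fun i _ => ?_
  rw [w.map_mul, w.map_pow]
  exact mul_le_one₀ (hg i) (pow_nonneg (w.nonneg _) _) (pow_le_one₀ (w.nonneg _) hx)

theorem eval_sub_le (hw : IsNonarchimedean w) {g : Om[X]} (hg : ∀ i, w (g.coeff i) ≤ 1)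
    {x y : Om} (hx : w x ≤ 1) (hy : w y ≤ 1) : w (g.eval x - g.eval y) ≤ w (x - y) := by
  rw [eval_eq_sum_range, eval_eq_sum_range, ← Finset.sum_sub_distrib]
  refine sum_le hw _ _ (w.nonneg _) fun i _ => ?_
  rw [← mul_sub, w.map_mul]
  rcases i with _ | i
  · simp
  · have := pow_sub_le hw hx hy i
    rw [one_pow, mul_one] at this
    exact (mul_le_of_le_one_left (w.nonneg _) (hg _)).trans this

theorem it_succ (f : Om[X]) (n : ℕ) (x : Om) : it f (n + 1) x = it f n (f.eval x) := rfl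

theorem it_le (hw : IsNonarchimedean w) {f : Om[X]} (hf : ∀ i, w (f.coeff i) ≤ 1) (n : ℕ) :
    ∀ x y : Om, w x ≤ 1 → w y ≤ 1 → w (it f n x - it f n y) ≤ w (x - y) := by
  induction n with
  | zero => intro x y _ _; exact le_rfl
  | succ n ih =>
    intro x y hx hy
    rw [it_succ, it_succ]
    exact (ih _ _ (eval_le hw hf hx) (eval_le hw hf hy)).trans (eval_sub_le hw hf hx hy)

theorem exists_root {ρ : ℝ} (hρ : ρ < 1) {n : ℕ} (hn : 0 < n) :
    ∃ r : ℝ, 0 ≤ r ∧ r < 1 ∧ ρ ≤ r ^ n := by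
  have h0 : 0 ≤ max ρ 0 := le_max_right _ _
  refine ⟨(max ρ 0) ^ ((n : ℝ)⁻¹), Real.rpow_nonneg h0 _, ?_, ?_⟩
  · exact Real.rpow_lt_one h0 (max_lt hρ one_pos) (inv_pos.mpr (Nat.cast_pos.mpr hn))
  · rw [Real.rpow_inv_natCast_pow h0 hn.ne']
    exact le_max_left _ _

/-- near the boundary of the open unit disc `Φ` looks like `u y ^ δ` -/
def Loc (w : AbsoluteValue Om ℝ) (Φ : Om → Om) (u : Om) (δ : ℕ) : Prop :=
  w u = 1 ∧ 0 < δ ∧ ∃ r : ℝ, 0 ≤ r ∧ r < 1 ∧
    ∀ y, r < w y → w y < 1 → w (Φ y - u * y ^ δ) < w y ^ δ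

theorem Loc.comp (hw : IsNonarchimedean w) {Φ Ψ : Om → Om} {u v : Om} {δ ε : ℕ}
    (h1 : Loc w Φ u δ) (h2 : Loc w Ψ v ε) : Loc w (fun y => Ψ (Φ y)) (v * u ^ ε) (δ * ε) := by
  obtain ⟨hu, hδ, r, hr0, hr1, h1⟩ := h1
  obtain ⟨hv, hε, s, hs0, hs1, h2⟩ := h2
  obtain ⟨t, ht0, ht1, ht⟩ := exists_root hs1 hδ
  refine ⟨by rw [w.map_mul, w.map_pow, hu, hv]; simp, Nat.mul_pos hδ hε, max r t,
    le_max_of_le_left hr0, max_lt hr1 ht1, fun y hy hy1 => ?_⟩
  have hyr : r < w y := (le_max_left _ _).trans_lt hy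
  have hyt : t < w y := (le_max_right _ _).trans_lt hy
  have hy0 : 0 < w y := hr0.trans_lt hyr
  have hb : w (u * y ^ δ) = w y ^ δ := by rw [w.map_mul, w.map_pow, hu, one_mul]
  have a1 := h1 y hyr hy1
  have hΦ : w (Φ y) = w y ^ δ := by
    rw [← hb]
    exact eq_of_sub_lt hw (by rwa [hb])
  have a2 := h2 (Φ y) (by
      rw [hΦ]
      exact ht.trans_lt (pow_lt_pow_left₀ hyt ht0 hδ.ne'))
    (by rw [hΦ]; exact pow_lt_one₀ hy0.le hy1 hδ.ne')
  rw [hΦ, ← pow_mul] at a2
  obtain ⟨e, rfl⟩ : ∃ e, ε = e + 1 := ⟨ε - 1, by omega⟩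
  have a3 := pow_sub_le hw hΦ.le hb.le e
  have a4 : w (v * (Φ y ^ (e + 1) - (u * y ^ δ) ^ (e + 1))) < w y ^ (δ * (e + 1)) := by
    rw [w.map_mul, hv, one_mul, pow_mul, pow_succ' (w y ^ δ)]
    exact a3.trans_lt (mul_lt_mul_of_pos_right a1 (pow_pos (pow_pos hy0 _) _))
  have e1 : Ψ (Φ y) - v * u ^ (e + 1) * y ^ (δ * (e + 1)) =
      (Ψ (Φ y) - v * Φ y ^ (e + 1)) + v * (Φ y ^ (e + 1) - (u * y ^ δ) ^ (e + 1)) := by
    rw [mul_pow, ← pow_mul]
    ring
  show w (Ψ (Φ y) - v * u ^ (e + 1) * y ^ (δ * (e + 1))) < _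
  rw [e1]
  exact add_lt hw a2 a4

theorem taylor_le (hw : IsNonarchimedean w) {f : Om[X]} (hf : ∀ i, w (f.coeff i) ≤ 1) {x : Om}
    (hx : w x ≤ 1) (i : ℕ) : w ((taylor x f).coeff i) ≤ 1 := by
  rw [taylor_coeff]
  refine eval_le hw (fun n => ?_) hx
  rw [hasseDeriv_coeff, w.map_mul]
  exact mul_le_one₀ (nat_le hw _) (w.nonneg _) (hf _)

theorem eval_add (f : Om[X]) (x y : Om) : f.eval (x + y) =
    ∑ i ∈ Finset.range (f.natDegree + 1), (taylor x f).coeff i * y ^ i := by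
  rw [add_comm x y, ← taylor_eval, eval_eq_sum_range, natDegree_taylor]

theorem one_step (hw : IsNonarchimedean w) {f : Om[X]} (hd : 0 < f.natDegree)
    (hf : ∀ i, w (f.coeff i) ≤ 1) (hl : w f.leadingCoeff = 1) {x : Om} (hx : w x ≤ 1) :
    ∃ (u : Om) (δ : ℕ), Loc w (fun y => f.eval (x + y) - f.eval x) u δ ∧ δ ≤ f.natDegree ∧
      (w (f.derivative.eval x) < 1 → 2 ≤ δ) := by
  classical
  have hT := taylor_le hw hf hx
  have hdT : w ((taylor x f).coeff f.natDegree) = 1 := by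
    rw [← natDegree_taylor f x, coeff_natDegree, leadingCoeff_taylor, hl]
  have hex : ∃ i, 0 < i ∧ w ((taylor x f).coeff i) = 1 := ⟨_, hd, hdT⟩
  obtain ⟨hδ0, hδ1⟩ := Nat.find_spec hex
  have hle : Nat.find hex ≤ f.natDegree := Nat.find_min' hex ⟨hd, hdT⟩
  have hmin : ∀ i, 0 < i → i < Nat.find hex → w ((taylor x f).coeff i) < 1 := fun i h0 hi =>
    lt_of_le_of_ne (hT i) fun h => Nat.find_min hex hi ⟨h0, h⟩
  generalize Nat.find hex = δ at hδ0 hδ1 hle hmin
  obtain ⟨ρ, hρ1, hρ⟩ : ∃ ρ : ℝ, ρ < 1 ∧ ∀ i, 0 < i → i < δ → w ((taylor x f).coeff i) ≤ ρ := by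
    clear hδ0 hδ1 hle
    induction δ with
    | zero => exact ⟨0, one_pos, fun i _ hi => absurd hi (Nat.not_lt_zero _)⟩
    | succ n ih =>
      obtain ⟨ρ, h1, h2⟩ := ih fun i h0 hi => hmin i h0 (by omega)
      rcases Nat.eq_zero_or_pos n with rfl | hn
      · exact ⟨0, one_pos, fun i h0 hi => by omega⟩
      · refine ⟨max ρ (w ((taylor x f).coeff n)), max_lt h1 (hmin n hn (by omega)),
          fun i h0 hi => ?_⟩
        rcases Nat.lt_succ_iff_lt_or_eq.mp hi with h | rfl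
        · exact le_max_of_le_left (h2 i h0 h)
        · exact le_max_right _ _
  obtain ⟨r, hr0, hr1, hr⟩ := exists_root hρ1 hδ0
  refine ⟨(taylor x f).coeff δ, δ, ⟨hδ1, hδ0, r, hr0, hr1, fun y hy hy1 => ?_⟩, hle, fun h => ?_⟩
  · have hy0 : 0 < w y := hr0.trans_lt hy
    have m1 : δ ∈ Finset.range (f.natDegree + 1) := Finset.mem_range.mpr (by omega)
    have m0 : 0 ∈ (Finset.range (f.natDegree + 1)).erase δ :=
      Finset.mem_erase.mpr ⟨hδ0.ne, Finset.mem_range.mpr (by omega)⟩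
    have e : f.eval (x + y) - f.eval x - (taylor x f).coeff δ * y ^ δ =
        ∑ i ∈ ((Finset.range (f.natDegree + 1)).erase δ).erase 0,
          (taylor x f).coeff i * y ^ i := by
      rw [eval_add, ← Finset.add_sum_erase _ _ m1, ← Finset.add_sum_erase _ _ m0,
        taylor_coeff_zero]
      ring
    show w (f.eval (x + y) - f.eval x - (taylor x f).coeff δ * y ^ δ) < _
    rw [e]
    refine sum_lt hw _ _ (pow_pos hy0 _) fun i hi => ?_
    obtain ⟨hi0, hi⟩ := Finset.mem_erase.mp hi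
    obtain ⟨hiδ, -⟩ := Finset.mem_erase.mp hi
    rw [w.map_mul, w.map_pow]
    rcases lt_or_gt_of_ne hiδ with h | h
    · have b1 : w ((taylor x f).coeff i) < w y ^ δ :=
        ((hρ i (Nat.pos_of_ne_zero hi0) h).trans hr).trans_lt (pow_lt_pow_left₀ hy hr0 hδ0.ne')
      have b2 : w y ^ δ ≤ w y ^ (δ - i) := pow_le_pow_of_le_one hy0.le hy1.le (by omega)
      calc w ((taylor x f).coeff i) * w y ^ i < w y ^ (δ - i) * w y ^ i :=
            mul_lt_mul_of_pos_right (b1.trans_le b2) (pow_pos hy0 _)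
        _ = w y ^ δ := by rw [← pow_add]; congr 1; omega
    · exact (mul_le_of_le_one_left (pow_nonneg hy0.le _) (hT i)).trans_lt
        (pow_lt_pow_right_of_lt_one₀ hy0 hy1 h)
  · by_contra h2
    obtain rfl : δ = 1 := by omega
    rw [taylor_coeff_one] at hδ1
    exact h.ne hδ1

theorem contract (hw : IsNonarchimedean w) {f : Om[X]} (hf : ∀ i, w (f.coeff i) ≤ 1) {x : Om}
    (hx : w x ≤ 1) {r : ℝ} (hr1 : r < 1) (y : Om) (hy : w y ≤ r) :
    w (f.eval (x + y) - f.eval x) ≤ max (w (f.derivative.eval x)) r * w y := by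
  have hT := taylor_le hw hf hx
  have hθ : 0 ≤ max (w (f.derivative.eval x)) r := le_max_of_le_left (w.nonneg _)
  rw [eval_add, Finset.sum_range_succ', taylor_coeff_zero, pow_zero, mul_one, add_sub_cancel_right]
  refine sum_le hw _ _ (mul_nonneg hθ (w.nonneg _)) fun i _ => ?_
  rw [w.map_mul, w.map_pow, pow_succ, ← mul_assoc]
  refine mul_le_mul_of_nonneg_right ?_ (w.nonneg _)
  rcases i with _ | i
  · rw [zero_add, taylor_coeff_one, pow_zero, mul_one]
    exact le_max_left _ _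
  · refine le_max_of_le_right ((mul_le_of_le_one_left (pow_nonneg (w.nonneg _) _) (hT _)).trans ?_)
    rw [pow_succ]
    exact (mul_le_of_le_one_left (w.nonneg _)
      (pow_le_one₀ (w.nonneg _) (hy.trans hr1.le))).trans hy

theorem loc_it (hw : IsNonarchimedean w) {p : ℕ} (hp : p.Prime) {f : Om[X]}
    (hd : 0 < f.natDegree) (hdp : f.natDegree < p) (hf : ∀ i, w (f.coeff i) ≤ 1)
    (hl : w f.leadingCoeff = 1) (n : ℕ) : ∀ x : Om, w x ≤ 1 →
    ∃ (u : Om) (δ : ℕ), Loc w (fun y => it f n (x + y) - it f n x) u δ ∧ δ.Coprime p ∧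
      (0 < n → w (f.derivative.eval x) < 1 → 2 ≤ δ) := by
  induction n with
  | zero =>
    intro x _
    refine ⟨1, 1, ⟨by simp, one_pos, 0, le_rfl, one_pos, fun y hy _ => ?_⟩, by simp,
      fun h => absurd h (lt_irrefl _)⟩
    simpa [it] using hy
  | succ n ih =>
    intro x hx
    obtain ⟨u, δ, h1, hδ, h2⟩ := one_step hw hd hf hl hx
    obtain ⟨v, ε, h3, hε, -⟩ := ih (f.eval x) (eval_le hw hf hx)
    have h4 := h1.comp hw h3
    refine ⟨v * u ^ ε, δ * ε, ?_, Nat.Coprime.mul_left ?_ hε, fun _ h => ?_⟩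
    · simpa only [add_sub_cancel, it_succ] using h4
    · exact ((Nat.coprime_of_lt_prime h1.2.1.ne' (hδ.trans_lt hdp) hp)).symm
    · have := h2 h
      have := h3.2.1
      nlinarith

theorem exists_poly {f : Om[X]} (hd : 0 < f.natDegree) (hl : w f.leadingCoeff = 1) (n : ℕ) :
    ∃ G : Om[X], G.natDegree = f.natDegree ^ n ∧ w G.leadingCoeff = 1 ∧
      ∀ x, G.eval x = it f n x := by
  induction n with
  | zero => exact ⟨X, by simp, by simp, fun x => by simp [it]⟩
  | succ n ih =>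
    obtain ⟨G, h1, h2, h3⟩ := ih
    refine ⟨G.comp f, by rw [natDegree_comp, h1, pow_succ], ?_, fun x => ?_⟩
    · rw [leadingCoeff_comp hd.ne', w.map_mul, w.map_pow, h2, hl]
      simp
    · rw [eval_comp, h3, it_succ]

theorem exists_near (H : Om[X]) (hl : w H.leadingCoeff = 1) (τ : Om) (h : w (H.eval τ) < 1) :
    ∃ z, H.eval z = 0 ∧ w (z - τ) < 1 := by
  by_contra hn
  have hs := (IsAlgClosed.splits H).eq_prod_roots
  have hH : H ≠ 0 := by
    rintro rfl
    simp at hl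
  have h1 : ∀ s : Multiset Om, (∀ z ∈ s, 1 ≤ w (τ - z)) →
      1 ≤ w (((s.map fun a => X - C a).prod).eval τ) := by
    intro s
    induction s using Multiset.induction_on with
    | empty => simp
    | cons a s ih =>
      intro hs
      rw [Multiset.map_cons, Multiset.prod_cons, eval_mul, w.map_mul]
      refine one_le_mul_of_one_le_of_one_le ?_ (ih fun z hz => hs z (Multiset.mem_cons_of_mem hz))
      simpa using hs a (Multiset.mem_cons_self _ _)
  have h2 := h1 H.roots fun z hz => by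
    by_contra h3
    refine hn ⟨z, (mem_roots hH).mp hz, ?_⟩
    rw [w.map_sub]
    exact not_le.mp h3
  rw [hs, eval_mul, eval_C, w.map_mul, hl, one_mul] at h
  exact absurd h (not_lt.mpr h2)

end DYN

open DYN in
theorem dyn : DynStmt := by
  intro p w hp hw _ f τ m hd hdp hf hl hτ hc hm hper
  have hd2 : 2 ≤ f.natDegree := by
    by_contra h
    have h1 : f.natDegree = 1 := by omega
    have h2 := eq_X_add_C_of_natDegree_le_one h1.le
    have h3 : f.derivative.eval τ = f.coeff 1 := by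
      conv_lhs => rw [h2]
      simp
    rw [leadingCoeff, h1, ← h3, hc] at hl
    simp at hl
  obtain ⟨G, hG1, hG2, hG3⟩ := exists_poly hd hl m
  have hGX : (X : Om[X]).degree < G.degree := by
    apply degree_lt_degree
    rw [natDegree_X, hG1]
    exact Nat.one_lt_pow hm.ne' hd2
  obtain ⟨z, hz, hzτ⟩ := exists_near (w := w) (G - X)
    (by rw [leadingCoeff_sub_of_degree_lt hGX, hG2]) τ (by simpa [hG3] using hper)
  have hfix : it f m z = z := by simpa [hG3, sub_eq_zero] using hz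
  have hz1 : w z ≤ 1 := by
    have : z = (z - τ) + τ := by ring
    rw [this]
    exact add_le hw hzτ.le hτ
  have hder : w (f.derivative.eval z) < 1 := by
    have h1 : ∀ i, w (f.derivative.coeff i) ≤ 1 := fun i => by
      rw [coeff_derivative, w.map_mul, ← Nat.cast_succ]
      exact mul_le_one₀ (hf _) (w.nonneg _) (nat_le hw _)
    have := eval_sub_le hw h1 hz1 hτ
    rw [hc, sub_zero] at this
    exact this.trans_lt hzτ
  obtain ⟨u, δ, ⟨hu, -, r, hr0, hr1, hr⟩, hδ, h2⟩ := loc_it hw hp hd hdp hf hl m z hz1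
  refine ⟨z, u, δ, r, max (w (f.derivative.eval z)) r, hfix, hzτ, h2 hm hder, hδ, hu, hr1,
    le_max_of_le_right hr0, max_lt hder hr1, fun y h1 h2 => ?_, fun y hy => ?_⟩
  · have := hr y h1 h2
    rwa [hfix] at this
  · obtain ⟨n, rfl⟩ : ∃ n, m = n + 1 := ⟨m - 1, by omega⟩
    have h3 := it_le hw hf n _ _ (eval_le hw hf (add_le hw hz1 (hy.trans hr1.le)))
      (eval_le hw hf hz1)
    rw [← it_succ, ← it_succ, hfix] at h3
    exact h3.trans (contract hw hf hz1 hr1 y hy)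

end Pool.Agent.MP_be2dd8_ag.H53D
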