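import Pool.Agent.MP_be2dd8_ag.H53D.Spec

set_option autoImplicit false

/-!
Specialisations of a finite extension of a localised integer polynomial ring.
-/

namespace Pool.Agent.MP_be2dd8_ag.H53D

open Polynomial
open scoped NNReal

namespace FAM

/-- the valuation of a nonarchimedean absolute value -/
noncomputable def val (w : AbsoluteValue Om ℝ) (hw : IsNonarchimedean w) : Valuation Om ℝ≥0 where
  toFun x := ⟨w x, w.nonneg x⟩
  map_zero' := NNReal.eq w.map_zero
  map_one' := NNReal.eq w.map_one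
  map_mul' x y := NNReal.eq (w.map_mul x y)
  map_add_le_max' x y := by
    rw [← NNReal.coe_le_coe, NNReal.coe_max]; exact hw x y

lemma fin_quot {A R : Type} [CommRing A] [CommRing R] [Algebra A R] [Module.Finite A R]
    (I : Ideal R) {p : ℕ} (hp : p ≠ 0) (h0 : (p : R) ∈ I)
    (h : ∀ a : A, ∃ n : ℤ, algebraMap A R a - n ∈ I) : Finite (R ⧸ I) := by
  have := NeZero.mk hp
  have h1 : Finite (A ⧸ I.comap (algebraMap A R)) := by
    refine Finite.of_surjective (ZMod.lift p ⟨Int.castAddHom _, ?_⟩) fun b => ?_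
    · exact Ideal.Quotient.eq_zero_iff_mem.2 (Ideal.mem_comap.2 (by simpa using h0))
    · obtain ⟨a, rfl⟩ := Ideal.Quotient.mk_surjective b
      obtain ⟨n, hn⟩ := h a
      exact ⟨n, (ZMod.lift_coe _ _ _).trans
        (Ideal.Quotient.eq.2 (Ideal.mem_comap.2 (by simpa using hn))).symm⟩
  have h2 := Module.Finite.of_restrictScalars_finite A (A ⧸ I.comap (algebraMap A R)) (R ⧸ I)
  exact Module.finite_of_finite (A ⧸ I.comap (algebraMap A R))

variable {m : ℕ}

lemma cong {S : Type} [CommRing S] (I : Ideal S) (φ ψ : MvPolynomial (Fin m) ℤ →+* S)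
    (h : ∀ i, φ (.X i) - ψ (.X i) ∈ I) (n : MvPolynomial (Fin m) ℤ) : φ n - ψ n ∈ I := by
  rw [← Ideal.Quotient.eq]
  exact RingHom.congr_fun (MvPolynomial.ringHom_ext (f := (Ideal.Quotient.mk I).comp φ)
    (g := (Ideal.Quotient.mk I).comp ψ) (fun r => by simp) fun i => Ideal.Quotient.eq.2 (h i)) n

lemma cong_int {c : ℤ} {t t' : Fin m → ℤ} (h : ∀ i, c ∣ t i - t' i) (n : MvPolynomial (Fin m) ℤ) :
    c ∣ MvPolynomial.eval t n - MvPolynomial.eval t' n :=
  Ideal.mem_span_singleton.1 (cong _ _ _ (fun i => Ideal.mem_span_singleton.2 (by simpa using h i)) n)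

lemma grid {n : MvPolynomial (Fin m) ℤ} (hn : n ≠ 0) {c : ℤ} (hc : c ≠ 0) (t' : Fin m → ℤ) :
    ∃ t, (∀ i, c ∣ t i - t' i) ∧ MvPolynomial.eval t n ≠ 0 := by
  by_contra! H
  refine hn (MvPolynomial.funext_set (fun i => {x | c ∣ x - t' i}) (fun i => ?_) fun x hx => ?_)
  · exact Set.infinite_of_injective_forall_mem (f := fun k : ℤ => t' i + c * k)
      (fun k l e => mul_left_cancel₀ hc (add_left_cancel e)) fun k => by simp
  · rw [H x fun i => hx i trivial, map_zero]

variable {g : MvPolynomial (Fin m) ℤ} {μ : (Ao m g)[X]}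

/-- the structure map -/
noncomputable def io (μ : (Ao m g)[X]) : MvPolynomial (Fin m) ℤ →+* AdjoinRoot μ :=
  (algebraMap (Ao m g) (AdjoinRoot μ)).comp (algebraMap _ _)

lemma nrm (hμ : μ.Monic) [IsDomain (AdjoinRoot μ)] {a : AdjoinRoot μ} (ha : a ≠ 0) :
    ∃ n, n ≠ 0 ∧ a ∣ io μ n := by
  have := hμ.finite_adjoinRoot
  have := (algebraMap (Ao m g) (AdjoinRoot μ)).domain_nontrivial
  obtain ⟨N, h1, h2⟩ := Submodule.exists_mem_ne_zero_of_ne_bot
    (Ideal.comap_ne_bot_of_integral_mem ha (Ideal.mem_span_singleton_self a)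
      (Algebra.IsIntegral.isIntegral (R := Ao m g) a))
  obtain ⟨k, n, e⟩ := IsLocalization.Away.surj g N
  refine ⟨n, fun h => h2 ?_, ?_⟩
  · rwa [h, map_zero, ((IsLocalization.Away.algebraMap_isUnit g).pow k).mul_left_eq_zero] at e
  · rw [io, RingHom.comp_apply, ← e, map_mul]
    exact (Ideal.mem_span_singleton.1 (Ideal.mem_comap.1 h1)).mul_right _

lemma spec (hμ : μ.Monic) [IsDomain (AdjoinRoot μ)] {w : AbsoluteValue Om ℝ}
    (hw : IsNonarchimedean w) {t : Fin m → ℤ} (ht : w (MvPolynomial.eval t g : ℤ) = 1) :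
    ∃ s : AdjoinRoot μ →+* Om, (∀ y, w (s y) ≤ 1) ∧
      ∀ n, s (io μ n) = (MvPolynomial.eval t n : ℤ) := by
  have := hμ.finite_adjoinRoot
  have hu : IsUnit (((Int.castRingHom Om).comp (MvPolynomial.eval t)) g) :=
    Ne.isUnit fun e => by
      rw [show ((MvPolynomial.eval t g : ℤ) : Om) = 0 from e, map_zero] at ht
      exact zero_ne_one ht
  set ev : Ao m g →+* Om := IsLocalization.Away.lift g hu with hev
  have e1 : ∀ n, ev (algebraMap _ _ n) = (MvPolynomial.eval t n : ℤ) := fun n =>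
    IsLocalization.Away.lift_eq g hu n
  have e2 : ∀ a, ev a ∈ (val w hw).integer := fun a => by
    obtain ⟨k, n, e⟩ := IsLocalization.Away.surj g a
    have := congrArg (fun x => w (ev x)) e
    simp only [map_mul, map_pow, e1, ht, one_pow, mul_one] at this
    exact this.trans_le hw.apply_intCast_le_one
  obtain ⟨θ, hθ⟩ := IsAlgClosed.exists_root (μ.map ev) (by
    rw [hμ.degree_map]
    intro e
    have h1 := AdjoinRoot.mk_self (f := μ)
    rw [eq_one_of_monic_natDegree_zero hμ (natDegree_eq_zero_iff_degree_le_zero.2 e.le)] at h1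
    exact one_ne_zero (α := AdjoinRoot μ) (by
      rw [← map_one (AdjoinRoot.mk μ), AdjoinRoot.mk_eq_zero,
        eq_one_of_monic_natDegree_zero hμ (natDegree_eq_zero_iff_degree_le_zero.2 e.le)]))
  rw [IsRoot, eval_map] at hθ
  refine ⟨AdjoinRoot.lift ev θ hθ, fun y => ?_, fun n => (AdjoinRoot.lift_of hθ).trans (e1 n)⟩
  exact (Valuation.integer.integers (val w hw)).mem_of_integral
    (IsIntegral.map_of_comp_eq (ev.codRestrict _ e2) (AdjoinRoot.lift ev θ hθ)
      (RingHom.ext fun a => (AdjoinRoot.lift_of hθ).symm)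
      (Algebra.IsIntegral.isIntegral (R := Ao m g) y))

end FAM

open FAM in
theorem fam (hU : UnitStmt) : FamStmt := by
  intro m g μ hg hμ _
  have := hμ.finite_adjoinRoot
  obtain ⟨t0, -, h0⟩ := grid hg one_ne_zero 0
  obtain ⟨p, w, pp, -, hw, hp, hE⟩ := hU {((MvPolynomial.eval t0 g : ℤ) : Om)} 0
  have h1 := hE _ (Finset.mem_singleton_self _) (Int.cast_ne_zero.2 h0)
  have p0 : (p : ℤ) ≠ 0 := Int.natCast_ne_zero.2 pp.ne_zero
  have dv : ∀ {c x : ℤ}, c ∣ x → w x ≤ w c := by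
    rintro c _ ⟨k, rfl⟩
    rw [Int.cast_mul, map_mul]
    exact mul_le_of_le_one_right (w.nonneg _) hw.apply_intCast_le_one
  have dp : ∀ {x : ℤ}, (p : ℤ) ∣ x → w x ≤ w p := fun h => by simpa using dv h
  have eqw : ∀ {x y : ℤ}, w (x - y : ℤ) < w y → w x = w y := fun {x y} h => by
    rw [← hw.add_eq_right_of_lt h]; simp
  let I : Ideal (AdjoinRoot μ) :=
    { carrier := {y | ∀ s : AdjoinRoot μ →+* Om, (∀ y, w (s y) ≤ 1) →
        (∀ i, w (s (io μ (.X i)) - t0 i) ≤ w p) → w (s y) ≤ w p}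
      add_mem' := fun a b s c d => by
        rw [map_add]; exact (hw _ _).trans (max_le (a s c d) (b s c d))
      zero_mem' := fun s _ _ => by simp
      smul_mem' := fun x y a s c d => by
        rw [smul_eq_mul, map_mul, map_mul]
        exact (mul_le_of_le_one_left (w.nonneg _) (c x)).trans (a s c d) }
  have pI : (p : AdjoinRoot μ) ∈ I := fun s _ _ => by rw [map_natCast]
  refine ⟨w, I, w p, hw, hp, fin_quot (A := Ao m g) I pp.ne_zero pI fun a => ?_, fun a ha => ?_⟩
  · have c1 := cong I (io μ) ((Int.castRingHom _).comp (MvPolynomial.eval t0)) fun i s _ d => by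
      simpa using d i
    obtain ⟨k, n, e⟩ := IsLocalization.Away.surj g a
    obtain ⟨u, v, huv⟩ := ((Nat.prime_iff_prime_int.1 pp).coprime_iff_not_dvd.2
      fun h => (h1 ▸ dp h).not_gt hp).pow_right (n := k)
    have e1 := congrArg (Int.cast : ℤ → AdjoinRoot μ) huv
    have e2 : algebraMap _ _ a * io μ (g ^ k) = io μ n := by
      rw [io, RingHom.comp_apply, RingHom.comp_apply, ← e, map_mul, map_pow]
    have c2 := I.add_mem (I.mul_mem_left (algebraMap _ _ a * u) pI) (I.mul_mem_left v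
      (I.sub_mem (c1 n) (I.mul_mem_left (algebraMap _ _ a) (c1 (g ^ k)))))
    refine ⟨v * MvPolynomial.eval t0 n, ?_⟩
    simp only [RingHom.comp_apply, eq_intCast, map_pow (MvPolynomial.eval t0)] at c2
    push_cast at e1 c2 ⊢
    refine (congrArg (· ∈ I) ?_).mp c2
    linear_combination algebraMap _ _ a * e1 - v * e2
  · obtain ⟨n, n0, a', e⟩ := nrm hμ ha
    obtain ⟨t1, d1, N0⟩ := grid n0 p0 t0
    have N1 := w.pos (Int.cast_ne_zero.2 N0)
    refine ⟨_, N1, fun b hb => ?_⟩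
    obtain ⟨n', n1, b', e'⟩ := nrm hμ hb
    obtain ⟨t, d2, N2⟩ := grid n1 (mul_ne_zero p0 N0) t1
    have d3 : ∀ i, (p : ℤ) ∣ t i - t0 i := fun i => by
      simpa using dvd_add (dvd_of_mul_right_dvd (d2 i)) (d1 i)
    obtain ⟨s, s1, s2⟩ := spec hμ hw (t := t)
      ((eqw ((dp (cong_int d3 g)).trans_lt (h1 ▸ hp))).trans h1)
    refine ⟨s, s1, fun y hy => hy s s1 fun i => ?_, ?_, fun h => N2 ?_⟩
    · simpa [s2] using dp (d3 i)
    · rw [← eqw ((dv (cong_int d2 n)).trans_lt (by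
        rw [Int.cast_mul, map_mul, Int.cast_natCast]; exact mul_lt_of_lt_one_left N1 hp)),
        ← s2, e, map_mul, map_mul]
      exact mul_le_of_le_one_right (w.nonneg _) (s1 _)
    · rw [← Int.cast_eq_zero (α := Om), ← s2, e', map_mul, h, zero_mul]

end Pool.Agent.MP_be2dd8_ag.H53D
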