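import Pool.Agent.MP_be2dd8_ag.H53D.Spec

set_option autoImplicit false

/-!
A Frobenius lift fixing a finite extension pointwise.
-/

namespace Pool.Agent.MP_be2dd8_ag.H53D

open NumberField
open scoped Pointwise

namespace FROB

/-- an element integral over a ring mapping into `O` lies in `O` -/
theorem mem_of_isIntegral {A L : Type} [CommRing A] [Field L] [Algebra A L]
    (O : ValuationSubring L) (hA : ∀ r : A, algebraMap A L r ∈ O) {x : L}
    (hx : IsIntegral A x) : x ∈ O := by
  let : Algebra A O := ((algebraMap A L).codRestrict O hA).toAlgebra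
  have : IsScalarTower A O L := IsScalarTower.of_algebraMap_eq (fun _ => rfl)
  have h1 : IsIntegral O x := hx.tower_top
  obtain ⟨y, hy⟩ := IsIntegrallyClosed.algebraMap_eq_of_integral h1
  rw [← hy]
  exact y.2

/-- the pull back of the maximal ideal of `O` -/
def cen {B L : Type} [CommRing B] [Field L] [Algebra B L]
    (O : ValuationSubring L) (hB : ∀ r : B, algebraMap B L r ∈ O) : Ideal B :=
  (IsLocalRing.maximalIdeal O).comap ((algebraMap B L).codRestrict O hB)

theorem mem_cen {B L : Type} [CommRing B] [Field L] [Algebra B L]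
    (O : ValuationSubring L) (hB : ∀ r : B, algebraMap B L r ∈ O) (b : B) :
    b ∈ cen O hB ↔ O.valuation (algebraMap B L b) < 1 := by
  rw [cen, Ideal.mem_comap, ValuationSubring.valuation_lt_one_iff]
  rfl

theorem cen_isPrime {B L : Type} [CommRing B] [Field L] [Algebra B L]
    (O : ValuationSubring L) (hB : ∀ r : B, algebraMap B L r ∈ O) : (cen O hB).IsPrime :=
  Ideal.comap_isPrime _ _

theorem val_eq_one_of_not_mem_cen {B L : Type} [CommRing B] [Field L] [Algebra B L]
    (O : ValuationSubring L) (hB : ∀ r : B, algebraMap B L r ∈ O) {b : B}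
    (hb : b ∉ cen O hB) : O.valuation (algebraMap B L b) = 1 := by
  rw [mem_cen] at hb
  exact le_antisymm ((O.valuation_le_one_iff _).2 (hB b)) (not_lt.1 hb)

/-- in a Dedekind domain mapping into `O`, a quotient lying in `O` has a unit denominator -/
theorem exists_unit_den {D L : Type} [CommRing D] [IsDedekindDomain D] [Field L] [Algebra D L]
    (O : ValuationSubring L) (hD : ∀ r : D, algebraMap D L r ∈ O) (h0 : cen O hD ≠ ⊥)
    {x : L} (hx : x ∈ O) {n d : D} (hd : algebraMap D L d ≠ 0)
    (hxd : x * algebraMap D L d = algebraMap D L n) :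
    ∃ b s : D, O.valuation (algebraMap D L s) = 1 ∧ x * algebraMap D L s = algebraMap D L b := by
  have := cen_isPrime O hD
  have : IsDiscreteValuationRing (Localization.AtPrime (cen O hD)) :=
    IsLocalization.AtPrime.isDiscreteValuationRing_of_dedekind_domain D h0 _
  have hinj : Function.Injective (algebraMap D (Localization.AtPrime (cen O hD))) :=
    IsLocalization.injective _ (cen O hD).primeCompl_le_nonZeroDivisors
  obtain ⟨c, hc⟩ := ValuationRing.cond (algebraMap D (Localization.AtPrime (cen O hD)) n)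
    (algebraMap D (Localization.AtPrime (cen O hD)) d)
  obtain ⟨⟨r, s⟩, hrs⟩ := IsLocalization.surj (cen O hD).primeCompl c
  simp only at hrs
  have hs1 : O.valuation (algebraMap D L s) = 1 := val_eq_one_of_not_mem_cen O hD s.2
  rcases hc with hc | hc
  · have h1 : n * r = d * s := by
      apply hinj
      rw [map_mul, map_mul, ← hrs, ← hc]; ring
    have h2 : x * algebraMap D L r = algebraMap D L s := by
      apply mul_left_cancel₀ hd
      rw [← map_mul, ← h1, map_mul, ← hxd]; ring
    refine ⟨s, r, ?_, h2⟩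
    have h3 : O.valuation x * O.valuation (algebraMap D L r) = 1 := by
      rw [← map_mul, h2, hs1]
    have h4 := (O.valuation_le_one_iff _).2 hx
    have h5 := (O.valuation_le_one_iff _).2 (hD r)
    refine le_antisymm h5 ?_
    calc (1 : O.ValueGroup) = O.valuation x * O.valuation (algebraMap D L r) := h3.symm
      _ ≤ 1 * O.valuation (algebraMap D L r) := by gcongr
      _ = _ := one_mul _
  · have h1 : d * r = n * s := by
      apply hinj
      rw [map_mul, map_mul, ← hrs, ← hc]; ring
    refine ⟨r, s, hs1, ?_⟩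
    apply mul_left_cancel₀ hd
    rw [← map_mul, h1, map_mul, ← hxd]; ring

theorem exists_frac (K : Type) {N : Type} [Field K] [NumberField K] [Field N] [Algebra K N]
    [Algebra.IsAlgebraic K N] (O : ValuationSubring N) (p : ℕ) (hp : p ≠ 0)
    (h2 : O.valuation (p : N) < 1) {x : N} (hx : x ∈ O) :
    ∃ b s : N, IsIntegral ℤ b ∧ IsIntegral ℤ s ∧ O.valuation s = 1 ∧ x * s = b := by
  have hxi : IsIntegral K x := Algebra.IsIntegral.isIntegral x
  let E : IntermediateField K N := IntermediateField.adjoin K {x}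
  have : FiniteDimensional K E := IntermediateField.adjoin.finiteDimensional hxi
  have : NumberField E := NumberField.of_module_finite K E
  have hint : ∀ r : 𝓞 E, IsIntegral ℤ (algebraMap (𝓞 E) N r) := fun r =>
    map_isIntegral_int _ (RingOfIntegers.isIntegral r)
  have hD : ∀ r : 𝓞 E, algebraMap (𝓞 E) N r ∈ O := fun r =>
    mem_of_isIntegral O (fun z => by simp) (hint r)
  have h0 : cen O hD ≠ ⊥ := by
    intro hb
    have : (p : 𝓞 E) ∈ cen O hD := by
      rw [mem_cen, map_natCast]; exact h2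
    rw [hb, Ideal.mem_bot] at this
    exact hp (Nat.cast_eq_zero.1 this)
  obtain ⟨n, d, hd, hnd⟩ := IsFractionRing.div_surjective (A := 𝓞 E)
    (⟨x, IntermediateField.mem_adjoin_simple_self K x⟩ : E)
  have hd0 : algebraMap (𝓞 E) E d ≠ 0 :=
    RingOfIntegers.coe_ne_zero_iff.2 (nonZeroDivisors.ne_zero hd)
  have hd1 : algebraMap (𝓞 E) N d ≠ 0 := by
    have : algebraMap (𝓞 E) N d = algebraMap E N (algebraMap (𝓞 E) E d) := rfl
    rw [this]
    exact (map_ne_zero _).2 hd0
  have hxd : x * algebraMap (𝓞 E) N d = algebraMap (𝓞 E) N n := by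
    have h4 := congrArg (algebraMap E N) ((div_eq_iff hd0).1 hnd)
    rw [map_mul] at h4
    exact h4.symm
  obtain ⟨b, s, hs, hbs⟩ := exists_unit_den O hD h0 hx hd1 hxd
  exact ⟨_, _, hint b, hint s, hs, hbs⟩

/-- the ring of integers of a nonarchimedean absolute value -/
def vs (w : AbsoluteValue Om ℝ) (hw : IsNonarchimedean w) : ValuationSubring Om where
  carrier := {x | w x ≤ 1}
  mul_mem' := by
    intro x y hx hy
    simp only [Set.mem_ofPred_eq, map_mul] at hx hy ⊢
    exact mul_le_one₀ hx (w.nonneg y) hy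
  one_mem' := by simp
  add_mem' := by
    intro x y hx hy
    simp only [Set.mem_ofPred_eq] at hx hy ⊢
    exact (hw x y).trans (max_le hx hy)
  zero_mem' := by simp
  neg_mem' := by
    intro x hx
    simpa using hx
  mem_or_inv_mem' := by
    intro x
    simp only [Set.mem_ofPred_eq, map_inv₀]
    rcases le_total (w x) 1 with h | h
    · exact Or.inl h
    · exact Or.inr (inv_le_one_of_one_le₀ h)

theorem mem_vs (w : AbsoluteValue Om ℝ) (hw : IsNonarchimedean w) (x : Om) :
    x ∈ vs w hw ↔ w x ≤ 1 := Iff.rfl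

theorem val_vs_lt (w : AbsoluteValue Om ℝ) (hw : IsNonarchimedean w) (x : Om) :
    (vs w hw).valuation x < 1 ↔ w x < 1 := by
  rw [← ValuationSubring.mem_nonunits_iff, ValuationSubring.mem_nonunits_iff_or, mem_vs,
    map_inv₀, not_le]
  constructor
  · rintro (h | h)
    · simp [h]
    · have h0 : 0 < w x := by
        rcases (w.nonneg x).eq_or_lt with h1 | h1
        · rw [← h1] at h; norm_num at h
        · exact h1
      exact (one_lt_inv₀ h0).1 h
  · intro h
    by_cases h0 : x = 0
    · exact Or.inl h0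
    · exact Or.inr ((one_lt_inv₀ (w.pos h0)).2 h)

theorem bij {F E : Type} [Field F] [Field E] [Algebra F E] [Algebra.IsAlgebraic F E]
    (φ : E →ₐ[F] E) : Function.Bijective φ := Algebra.IsAlgebraic.algHom_bijective φ

theorem lift (K : Type) {N : Type} [Field K] [NumberField K] [Field N] [Algebra K N]
    [IsGalois K N] (O : ValuationSubring N) (p : ℕ) (hp : p.Prime)
    (hpO : O.valuation (p : N) < 1) (a : ℕ)
    (hK : ∀ x : K, algebraMap K N x ∈ O →
      O.valuation (algebraMap K N x ^ p ^ a - algebraMap K N x) < 1) :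
    ∃ σ : N ≃ₐ[K] N, ∀ x ∈ O, O.valuation (σ x - x ^ p ^ a) < 1 := by
  have : Fact p.Prime := ⟨hp⟩
  have h1 : ∀ r : 𝓞 K, algebraMap (𝓞 K) N r ∈ O := fun r =>
    mem_of_isIntegral O (fun z => by simp) (map_isIntegral_int _ (RingOfIntegers.isIntegral r))
  let P : Ideal (𝓞 K) := cen O h1
  have hPp : P.IsPrime := cen_isPrime O h1
  have hP0 : P ≠ ⊥ := by
    intro hb
    have : (p : 𝓞 K) ∈ P := by
      rw [mem_cen, map_natCast]; exact hpO
    rw [hb, Ideal.mem_bot] at this
    exact hp.ne_zero (Nat.cast_eq_zero.1 this)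
  have hP : P.IsMaximal := hPp.isMaximal hP0
  let B := integralClosure (𝓞 K) N
  have hB : ∀ r : B, algebraMap B N r ∈ O := fun r => mem_of_isIntegral O h1 r.2
  let Q : Ideal B := cen O hB
  have : Q.IsPrime := cen_isPrime O hB
  have : Q.LiesOver P := ⟨by
    ext r
    rw [Ideal.under_def, Ideal.mem_comap, mem_cen, mem_cen]
    rfl⟩
  let : TopologicalSpace B := ⊥
  have : DiscreteTopology B := ⟨rfl⟩
  have : ContinuousSMul (N ≃ₐ[K] N) B := by
    rw [continuousSMul_iff_stabilizer_isOpen]
    intro b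
    have h := stabilizer_isOpen_of_isIntegral (K := K) (b : N)
    have h' : MulAction.stabilizer (N ≃ₐ[K] N) b
        = MulAction.stabilizer (N ≃ₐ[K] N) (b : N) := by
      ext g
      rw [MulAction.mem_stabilizer_iff, MulAction.mem_stabilizer_iff, Subtype.ext_iff]
      rfl
    rw [h']
    exact h
  have : Algebra.IsInvariant (𝓞 K) B (N ≃ₐ[K] N) := ⟨by
    intro b hb
    obtain ⟨k, hk⟩ := (InfiniteGalois.mem_range_algebraMap_iff_fixed (k := K) (b : N)).2
      (fun g => congrArg Subtype.val (hb g))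
    have hb' : IsIntegral (𝓞 K) (algebraMap K N k) := by rw [hk]; exact b.2
    rw [isIntegral_algebraMap_iff (algebraMap K N).injective] at hb'
    obtain ⟨a, rfl⟩ := IsIntegrallyClosed.algebraMap_eq_of_integral hb'
    exact ⟨a, Subtype.ext hk⟩⟩
  have : Q.IsMaximal := Ideal.IsMaximal.of_liesOver_isMaximal Q P
  let : Field (𝓞 K ⧸ P) := Ideal.Quotient.field P
  let : Field (B ⧸ Q) := Ideal.Quotient.field Q
  have : Algebra.IsAlgebraic (𝓞 K ⧸ P) (B ⧸ Q) := Algebra.IsIntegral.isAlgebraic
  have : CharP (B ⧸ Q) p := by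
    rw [CharP.charP_iff_prime_eq_zero hp]
    have h3 : (p : B) ∈ Q := by
      rw [mem_cen, map_natCast]; exact hpO
    rw [← Ideal.Quotient.eq_zero_iff_mem, map_natCast] at h3
    exact h3
  let φ : (B ⧸ Q) →ₐ[𝓞 K ⧸ P] (B ⧸ Q) :=
    { iterateFrobenius (B ⧸ Q) p a with
      commutes' := by
        intro r
        obtain ⟨r, rfl⟩ := Ideal.Quotient.mk_surjective r
        have h3 : algebraMap (𝓞 K ⧸ P) (B ⧸ Q) (Ideal.Quotient.mk P r)
            = Ideal.Quotient.mk Q (algebraMap (𝓞 K) B r) := rfl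
        rw [h3]
        change (Ideal.Quotient.mk Q (algebraMap (𝓞 K) B r)) ^ p ^ a = _
        rw [← map_pow, Ideal.Quotient.eq, mem_cen]
        exact hK (algebraMap (𝓞 K) K r) (h1 r) }
  obtain ⟨⟨σ, hσ⟩, hσ'⟩ := Ideal.Quotient.stabilizerHom_surjective_of_profinite
    (G := N ≃ₐ[K] N) P Q (AlgEquiv.ofBijective φ (bij φ))
  have hcong : ∀ b : B, O.valuation (σ (b : N) - (b : N) ^ p ^ a) < 1 := by
    intro b
    have h3 := DFunLike.congr_fun hσ' (Ideal.Quotient.mk Q b)
    rw [Ideal.Quotient.stabilizerHom_apply] at h3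
    change _ = (Ideal.Quotient.mk Q b) ^ p ^ a at h3
    rw [← map_pow, Ideal.Quotient.eq] at h3
    exact (mem_cen O hB _).1 h3
  have hstab : ∀ s : B, O.valuation (s : N) = 1 → O.valuation (σ (s : N)) = 1 := by
    intro s hs
    have h3 : σ • s ∉ Q := by
      intro h4
      rw [← MulAction.mem_stabilizer_iff.1 hσ, Ideal.smul_mem_pointwise_smul_iff] at h4
      have h5 := (mem_cen O hB _).1 h4
      exact absurd hs (ne_of_lt h5)
    exact val_eq_one_of_not_mem_cen O hB h3
  have hfrac : ∀ x ∈ O, ∃ b s : B, O.valuation (s : N) = 1 ∧ x * (s : N) = b := by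
    intro x hx
    obtain ⟨b, s, hb, hs, hs1, hbs⟩ := exists_frac K O p hp.ne_zero hpO hx
    exact ⟨⟨b, hb.tower_top⟩, ⟨s, hs.tower_top⟩, hs1, hbs⟩
  refine ⟨σ, fun x hx => ?_⟩
  obtain ⟨b, s, hs, hbs⟩ := hfrac x hx
  have h3 := hstab s hs
  have h4 : σ x * σ (s : N) = σ (b : N) := by rw [← map_mul, hbs]
  have h5 : (σ x - x ^ p ^ a) * σ (s : N)
      = (σ (b : N) - (b : N) ^ p ^ a) - x ^ p ^ a * (σ (s : N) - (s : N) ^ p ^ a) := by
    rw [← h4, ← hbs, mul_pow]; ring
  have h6 : O.valuation ((σ x - x ^ p ^ a) * σ (s : N)) < 1 := by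
    rw [h5]
    refine lt_of_le_of_lt (Valuation.map_sub _ _ _) (max_lt (hcong b) ?_)
    rw [map_mul]
    have h7 : O.valuation (x ^ p ^ a) ≤ 1 :=
      (O.valuation_le_one_iff _).2 (pow_mem hx _)
    calc _ ≤ 1 * O.valuation (σ (s : N) - (s : N) ^ p ^ a) := by gcongr
      _ < 1 := by rw [one_mul]; exact hcong s
  rwa [map_mul, h3, mul_one] at h6

end FROB

theorem frob : FrobStmt := by
  intro p w hp hw hwp L _ a hL
  have : NumberField L := NumberField.of_module_finite ℚ L
  have : Algebra.IsAlgebraic ℚ Om := AlgebraicClosure.isAlgebraic ℚ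
  have : Algebra.IsAlgebraic L Om := Algebra.IsAlgebraic.tower_top (K := ℚ) L
  have : IsAlgClosure L Om := ⟨inferInstance, inferInstance⟩
  have : IsGalois L Om := IsAlgClosure.isGalois L Om
  obtain ⟨σ, hσ⟩ := FROB.lift L (FROB.vs w hw) p hp ((FROB.val_vs_lt w hw _).2 hwp) a
    (fun x hx1 => (FROB.val_vs_lt w hw _).2 (hL x x.2 hx1))
  refine ⟨σ.restrictScalars ℚ, fun x hx => σ.commutes ⟨x, hx⟩, fun x hx => ?_⟩
  exact (FROB.val_vs_lt w hw _).1 (hσ x hx)

end Pool.Agent.MP_be2dd8_ag.H53D
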