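import Pool.Agent.MP_be2dd8_ag.H53D.Spec

set_option autoImplicit false

/-! A finite residue field in which no orbit meets a critical point. -/

namespace Pool.Agent.MP_be2dd8_ag.H53D

open Polynomial Filter

namespace GOOD

theorem it_succ {R : Type} [CommRing R] (f : R[X]) (n : ℕ) (x : R) :
    it f (n + 1) x = f.eval (it f n x) := Function.iterate_succ_apply' _ _ _

theorem it_add {R : Type} [CommRing R] (f : R[X]) (m n : ℕ) (x : R) :
    it f (m + n) x = it f m (it f n x) := Function.iterate_add_apply _ _ _ _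

theorem map_it {R S : Type} [CommRing R] [CommRing S] (s : R →+* S) (f : R[X]) (n : ℕ) (x : R) :
    s (it f n x) = it (f.map s) n (s x) := by
  induction n with
  | zero => rfl
  | succ n ih => rw [it_succ, it_succ, ← ih, eval_map, eval₂_at_apply]

/-- periodic points -/
def Per (F : Om[X]) (c : Om) : Prop := ∃ m, 0 < m ∧ it F m c = c

/-- the cycles of the periodic critical points -/
def Cyc (F : Om[X]) : Set Om := {y | ∃ c, F.derivative.eval c = 0 ∧ Per F c ∧ ∃ i, y = it F i c}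

/-- the targets -/
def Tgt (F : Om[X]) : Set Om := {τ | ¬Per F τ ∧ (F.derivative.eval τ = 0 ∨ F.eval τ ∈ Cyc F)}

theorem it_mul {F : Om[X]} {c : Om} {m : ℕ} (h : it F m c = c) (t : ℕ) : it F (m * t) c = c := by
  induction t with
  | zero => rfl
  | succ t ih => rw [Nat.mul_succ, it_add, h, ih]

theorem cyc_it {F : Om[X]} {y : Om} (h : y ∈ Cyc F) (n : ℕ) : it F n y ∈ Cyc F := by
  obtain ⟨c, h1, h2, i, rfl⟩ := h
  exact ⟨c, h1, h2, n + i, (it_add _ _ _ _).symm⟩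

theorem der_ne {F : Om[X]} (h : 0 < F.natDegree) : F.derivative ≠ 0 := fun h0 =>
  h.ne' (natDegree_eq_zero_of_derivative_eq_zero h0)

theorem sub_ne {F : Om[X]} (h : 0 < F.natDegree) (o : Om) : F - C o ≠ 0 := fun h0 => by
  rw [sub_eq_zero.1 h0, natDegree_C] at h
  exact h.false

theorem fin_root {G : Om[X]} (h : G ≠ 0) : {β | G.eval β = 0}.Finite := finite_setOf_isRoot h

theorem cyc_fin {F : Om[X]} (h : 0 < F.natDegree) : (Cyc F).Finite := by
  have h1 : {c | F.derivative.eval c = 0 ∧ Per F c}.Finite :=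
    (fin_root (der_ne h)).subset fun c hc => hc.1
  refine (h1.biUnion (t := fun c => Set.range fun i => it F i c) fun c hc => ?_).subset ?_
  · obtain ⟨m, hm, hc⟩ := hc.2
    refine ((Set.finite_lt_nat m).image fun i => it F i c).subset ?_
    rintro _ ⟨i, rfl⟩
    refine ⟨i % m, Nat.mod_lt _ hm, ?_⟩
    conv_rhs => rw [← Nat.mod_add_div i m]
    simp only [it_add, it_mul hc]
  · rintro _ ⟨c, h2, h3, i, rfl⟩
    exact Set.mem_biUnion (x := c) ⟨h2, h3⟩ ⟨i, rfl⟩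

theorem tgt_fin {F : Om[X]} (h : 0 < F.natDegree) : (Tgt F).Finite := by
  refine ((fin_root (der_ne h)).union
    ((cyc_fin h).biUnion fun o _ => fin_root (sub_ne h o))).subset ?_
  rintro τ ⟨-, h1 | h1⟩
  · exact Or.inl h1
  · exact Or.inr (Set.mem_biUnion h1 (by simp))

theorem tgt_orbit {F : Om[X]} (h : 0 < F.natDegree) {τ : Om} (hτ : τ ∈ Tgt F) :
    F.derivative.eval τ = 0 ∨ (Set.range fun n => it F n τ).Finite := by
  refine hτ.2.imp_right fun h1 => ((cyc_fin h).insert τ).subset ?_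
  rintro _ ⟨n, rfl⟩
  rcases n with _ | n
  · exact Or.inl rfl
  · exact Or.inr (cyc_it h1 n)

theorem mem_tgt {F : Om[X]} {e : Om} (h1 : F.eval e ∈ Cyc F) (h2 : e ∉ Cyc F) : e ∈ Tgt F := by
  refine ⟨fun ⟨m, hm, h⟩ => h2 ?_, Or.inr h1⟩
  obtain ⟨m, rfl⟩ := Nat.exists_eq_succ_of_ne_zero hm.ne'
  rw [← h]
  exact cyc_it h1 m

theorem not_cyc {F : Om[X]} {a : Om} (h : ∀ᶠ n in atTop, F.derivative.eval (it F n a) ≠ 0)
    (i : ℕ) : it F i a ∉ Cyc F := by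
  rintro ⟨c, h1, ⟨m, hm, h2⟩, l, h3⟩
  obtain ⟨N, hN⟩ := eventually_atTop.1 h
  have h4 : N + l ≤ m * (N + l) := Nat.le_mul_of_pos_left _ hm
  refine hN (m * (N + l) - l + i) (by omega) ?_
  rw [it_add, h3, ← it_add, Nat.sub_add_cancel (by omega), it_mul h2, h1]

/-- a prime ideal of a subring -/
structure Pl (O : Subring Om) (M : AddSubgroup Om) : Prop where
  mul : ∀ a ∈ O, ∀ x ∈ M, a * x ∈ M
  prime : ∀ a ∈ O, ∀ b ∈ O, a * b ∈ M → a ∈ M ∨ b ∈ M
  one : (1 : Om) ∉ M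

variable {O : Subring Om} {M : AddSubgroup Om}

theorem Pl.unit (h : Pl O M) {e : Om} (h0 : e ≠ 0) (h1 : e⁻¹ ∈ O) : e ∉ M := fun he =>
  h.one (inv_mul_cancel₀ h0 ▸ h.mul _ h1 _ he)

theorem Pl.prod (h : Pl O M) (t : Multiset Om) (ht : ∀ a ∈ t, a ∈ O) (hm : t.prod ∈ M) :
    ∃ a ∈ t, a ∈ M := by
  induction t using Multiset.induction_on with
  | empty => exact (h.one hm).elim
  | cons a t ih =>
    rw [Multiset.prod_cons] at hm
    have h1 : ∀ b ∈ t, b ∈ O := fun b hb => ht b (Multiset.mem_cons_of_mem hb)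
    rcases h.prime _ (ht a (Multiset.mem_cons_self _ _)) _ (O.multiset_prod_mem _ h1) hm with
      h2 | h2
    · exact ⟨a, Multiset.mem_cons_self _ _, h2⟩
    · obtain ⟨b, hb, h3⟩ := ih h1 h2
      exact ⟨b, Multiset.mem_cons_of_mem hb, h3⟩

/-- the numbers attached to a polynomial -/
def dat (σ : Om ≃ₐ[ℚ] Om) (G : Om[X]) : Set Om :=
  insert G.leadingCoeff ({β | G.eval β = 0} ∪ (fun β => σ β - β) '' {β | G.eval β = 0})

theorem dat_fin (σ : Om ≃ₐ[ℚ] Om) {G : Om[X]} (h : G ≠ 0) : (dat σ G).Finite :=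
  ((fin_root h).union ((fin_root h).image _)).insert _

theorem Pl.root (h : Pl O M) {σ : Om ≃ₐ[ℚ] Om} {G : Om[X]} (hG : G ≠ 0)
    (hd : ∀ e ∈ dat σ G, e ∈ O ∧ e⁻¹ ∈ O) {x : Om} (hx : x ∈ O) (hm : G.eval x ∈ M) :
    ∃ β, G.eval β = 0 ∧ x - β ∈ M := by
  have h1 := hd _ (Set.mem_insert _ _)
  have h2 : ∀ a ∈ G.roots.map fun β => x - β, a ∈ O := fun a ha => by
    obtain ⟨β, hβ, rfl⟩ := Multiset.mem_map.1 ha
    exact O.sub_mem hx (hd β (Or.inr (Or.inl ((mem_roots hG).1 hβ)))).1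
  rw [(IsAlgClosed.splits G).eval_eq_prod_roots] at hm
  rcases h.prime _ h1.1 _ (O.multiset_prod_mem _ h2) hm with h3 | h3
  · exact (h.unit (leadingCoeff_ne_zero.2 hG) h1.2 h3).elim
  · obtain ⟨a, ha, h4⟩ := h.prod _ h2 h3
    obtain ⟨β, hβ, rfl⟩ := Multiset.mem_map.1 ha
    exact ⟨β, (mem_roots hG).1 hβ, h4⟩

/-- the polynomial of the `n`-th iterate -/
noncomputable def itp (F : Om[X]) (n : ℕ) : Om[X] := F.comp^[n] X

theorem eval_itp (F : Om[X]) (n : ℕ) (x : Om) : (itp F n).eval x = it F n x := by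
  rw [itp, iterate_comp_eval, eval_X, it]

theorem deg_itp {F : Om[X]} (h : 0 < F.natDegree) (n : ℕ) : 0 < (itp F n).natDegree := by
  rw [itp, natDegree_iterate_comp, natDegree_X, mul_one]
  exact pow_pos h n

/-- the numbers that have to be units -/
def need (σ : Om ≃ₐ[ℚ] Om) (n : ℕ) (F : Om[X]) (a : Om) : Set Om :=
  dat σ F.derivative ∪ (⋃ o ∈ Cyc F, dat σ (F - C o) ∪ (fun i => it F i a - o) '' {i | i ≤ n}) ∪
    ⋃ τ ∈ Tgt F, dat σ (itp F n - C τ)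

theorem need_fin (σ : Om ≃ₐ[ℚ] Om) (n : ℕ) {F : Om[X]} (h : 0 < F.natDegree) (a : Om) :
    (need σ n F a).Finite :=
  ((dat_fin σ (der_ne h)).union ((cyc_fin h).biUnion fun o _ =>
    (dat_fin σ (sub_ne h o)).union ((Set.finite_le_nat n).image _))).union
      ((tgt_fin h).biUnion fun τ _ => dat_fin σ (sub_ne (deg_itp h n) τ))

theorem avoid (h : Pl O M) {σ : Om ≃ₐ[ℚ] Om} (hσ : ∀ x ∈ M, σ x ∈ M) {F : Om[X]}
    (hF : 0 < F.natDegree) {a : Om} (hO : ∀ i, it F i a ∈ O) (hfix : ∀ i, σ (it F i a) = it F i a)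
    {n : ℕ} (hmove : ∀ τ ∈ Tgt F, ∀ β, it F n β = τ → σ β ≠ β) (hc : ∀ i, it F i a ∉ Cyc F)
    (hU : ∀ e ∈ need σ n F a, e ∈ O ∧ e⁻¹ ∈ O) {i : ℕ} (hi : n ≤ i) :
    F.derivative.eval (it F i a) ∉ M := by
  classical
  have key : ∀ i, n ≤ i → ∀ τ ∈ Tgt F, it F i a - τ ∉ M := by
    intro i hi τ hτ hm
    have hd : ∀ e ∈ dat σ (itp F n - C τ), e ∈ O ∧ e⁻¹ ∈ O := fun e he =>
      hU e (Or.inr (Set.mem_biUnion hτ he))
    obtain ⟨β, h1, h2⟩ := h.root (sub_ne (deg_itp hF n) τ) hd (hO (i - n)) (by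
      rw [eval_sub, eval_C, eval_itp, ← it_add, Nat.add_sub_cancel' hi]
      exact hm)
    have h3 := hσ _ h2
    rw [map_sub, hfix] at h3
    have h4 := M.sub_mem h2 h3
    rw [sub_sub_sub_cancel_left] at h4
    refine h.unit (sub_ne_zero.2 (hmove τ hτ β ?_)) (hd _ (Or.inr (Or.inr ⟨β, h1, rfl⟩))).2 h4
    rwa [eval_sub, eval_C, eval_itp, sub_eq_zero] at h1
  intro hm
  obtain ⟨c, h1, h2⟩ := h.root (der_ne hF) (fun e he => hU e (Or.inl (Or.inl he))) (hO i) hm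
  by_cases hp : Per F c
  swap
  · exact key i hi c ⟨hp, Or.inl h1⟩ h2
  have hex : ∃ i, ∃ o ∈ Cyc F, it F i a - o ∈ M := ⟨i, c, ⟨c, h1, hp, 0, rfl⟩, h2⟩
  obtain ⟨o, ho, h3⟩ := Nat.find_spec hex
  rcases le_or_gt (Nat.find hex) n with h4 | h4
  · exact h.unit (sub_ne_zero.2 fun h5 => hc _ (h5 ▸ ho))
      (hU _ (Or.inl (Or.inr (Set.mem_biUnion ho (Or.inr ⟨_, h4, rfl⟩))))).2 h3
  obtain ⟨l, hl⟩ := Nat.exists_eq_succ_of_ne_zero (by omega : Nat.find hex ≠ 0)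
  rw [hl, it_succ] at h3
  obtain ⟨e, h5, h6⟩ := h.root (sub_ne hF o)
    (fun e he => hU e (Or.inl (Or.inr (Set.mem_biUnion ho (Or.inl he))))) (hO l)
    (by rwa [eval_sub, eval_C])
  rw [eval_sub, eval_C, sub_eq_zero] at h5
  exact key l (by omega) e
    (mem_tgt (h5 ▸ ho) fun he => Nat.find_min hex (by omega : l < Nat.find hex) ⟨e, he, h6⟩) h6

/-- the kernel of the residue map -/
noncomputable def kerM {k : Type} [Field k] (ρ : O →+* k) : AddSubgroup Om :=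
  (RingHom.ker ρ).toAddSubgroup.map O.subtype.toAddMonoidHom

theorem mem_kerM {k : Type} [Field k] {ρ : O →+* k} {x : Om} :
    x ∈ kerM ρ ↔ ∃ y : O, ρ y = 0 ∧ (y : Om) = x := Iff.rfl

theorem pl_kerM {k : Type} [Field k] (ρ : O →+* k) : Pl O (kerM ρ) := by
  refine ⟨?_, fun a ha b hb => ?_, ?_⟩
  · rintro a ha _ ⟨y, hy, rfl⟩
    exact mem_kerM.2 ⟨⟨a, ha⟩ * y, by rw [map_mul, show ρ y = 0 from hy, mul_zero], rfl⟩
  · intro hm
    obtain ⟨y, hy, h⟩ := mem_kerM.1 hm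
    have e : y = ⟨a, ha⟩ * ⟨b, hb⟩ := Subtype.ext h
    rw [e, map_mul, mul_eq_zero] at hy
    exact hy.imp (fun h => mem_kerM.2 ⟨_, h, rfl⟩) fun h => mem_kerM.2 ⟨_, h, rfl⟩
  · intro hm
    obtain ⟨y, hy, h⟩ := mem_kerM.1 hm
    have e : y = 1 := Subtype.ext h
    rw [e, map_one] at hy
    exact one_ne_zero hy

theorem gen_ind {R : Type} [CommRing R] {Γ : Finset R} (hΓ : Algebra.adjoin ℤ (Γ : Set R) = ⊤)
    (S : Subring R) (h : ∀ g ∈ Γ, g ∈ S) (y : R) : y ∈ S := by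
  have h1 : Algebra.adjoin ℤ (Γ : Set R) ≤ subalgebraOfSubring S := Algebra.adjoin_le h
  rw [hΓ] at h1
  exact h1 Algebra.mem_top

end GOOD

open GOOD

theorem good : LocStmt → StabStmt → GoodStmt := by
  classical
  intro hL hS R _ hR s J _ f α hf hα
  obtain ⟨Γ, hΓ⟩ := hR.out
  have hF : ∀ j, 0 < ((f j).map s).natDegree := fun j => by
    rw [natDegree_map_of_leadingCoeff_ne_zero s ((hf j).2.map s).ne_zero]
    exact (hf j).1
  have hder : ∀ j n, s ((f j).derivative.eval (it (f j) n (α j))) =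
      ((f j).map s).derivative.eval (it ((f j).map s) n (s (α j))) := fun j n => by
    rw [← map_it, derivative_map, eval_map, eval₂_at_apply]
  obtain ⟨σ, n, h1, h2⟩ := hL ((j : J) × (tgt_fin (hF j)).toFinset) (fun t => (f t.1).map s)
    (fun t => t.2.1) (Γ.image s) (fun t => hF t.1)
    (fun t m hm h => ((tgt_fin (hF t.1)).mem_toFinset.1 t.2.2).1 ⟨m, hm, h⟩)
    fun t => tgt_orbit (hF t.1) ((tgt_fin (hF t.1)).mem_toFinset.1 t.2.2)
  have hfin : (s '' Γ ∪ ⋃ j, need σ n ((f j).map s) (s (α j))).Finite :=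
    (Γ.finite_toSet.image s).union (Set.finite_iUnion fun j => need_fin σ n (hF j) _)
  obtain ⟨O, k, _, _, ρ, h3, h4⟩ := hS σ hfin.toFinset
  have hO : ∀ y, s y ∈ O := gen_ind hΓ (O.comap s) fun g hg =>
    (h3 _ (hfin.mem_toFinset.2 (Or.inl ⟨g, hg, rfl⟩))).1
  have hfix : ∀ y, σ (s y) = s y :=
    gen_ind hΓ (RingHom.eqLocus ((σ : Om →+* Om).comp s) s) fun g hg =>
      h1 _ (Finset.mem_image_of_mem s hg)
  refine ⟨k, inferInstance, inferInstance, ρ.comp (s.codRestrict O hO), fun j => ?_⟩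
  filter_upwards [eventually_ge_atTop n] with i hi h0
  refine avoid (pl_kerM ρ) (σ := σ) ?_ (hF j) (a := s (α j)) (fun i => map_it s _ _ _ ▸ hO _)
    (fun i => map_it s _ _ _ ▸ hfix _)
    (fun τ hτ β => h2 ⟨j, τ, (tgt_fin (hF j)).mem_toFinset.2 hτ⟩ β)
    (not_cyc (by simpa only [hder] using hα j))
    (fun e he => h3 e (hfin.mem_toFinset.2 (Or.inr (Set.mem_iUnion.2 ⟨j, he⟩)))) hi
    (mem_kerM.2 ⟨_, h0, hder j i⟩)
  intro x hx
  obtain ⟨y, hy, rfl⟩ := mem_kerM.1 hx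
  obtain ⟨h5, h6⟩ := h4 y
  exact mem_kerM.2 ⟨_, h6 hy, rfl⟩

end Pool.Agent.MP_be2dd8_ag.H53D
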