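import Pool.Agent.MP_be2dd8_ag.H53D.Spec

set_option autoImplicit false

/-! Lifting a residue map to an embedding into a nonarchimedean field of characteristic zero. -/

namespace Pool.Agent.MP_be2dd8_ag.H53D

open Polynomial IsLocalRing

namespace LIFT

theorem root {F : Type} [Field F] [IsAlgClosed F] (O : ValuationSubring F) {P : O[X]}
    (hP : P.Monic) (hd : P.degree ≠ 0) : ∃ x : O, P.eval x = 0 := by
  obtain ⟨x, hx⟩ := IsAlgClosed.exists_root (P.map (algebraMap O F))
    (by rwa [hP.degree_map])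
  rw [IsRoot, eval_map] at hx
  obtain ⟨y, rfl⟩ := IsIntegrallyClosed.isIntegral_iff.1 (⟨P, hP, hx⟩ : IsIntegral O x)
  rw [eval₂_at_apply] at hx
  exact ⟨y, Subtype.ext hx⟩

theorem res_root {F : Type} [Field F] [IsAlgClosed F] (O : ValuationSubring F)
    (a : ResidueField O) (n : ℕ) : ∀ P : O[X], P.natDegree = n → P.Monic →
      P.eval₂ (residue O) a = 0 → ∃ x : O, P.eval x = 0 ∧ residue O x = a := by
  induction n with
  | zero =>
    intro P h hP ha
    rw [hP.natDegree_eq_zero.1 h] at ha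
    simp at ha
  | succ n ih =>
    intro P h hP ha
    obtain ⟨x, hx⟩ := root O hP fun h0 => by
      rw [natDegree_eq_zero_iff_degree_le_zero.2 h0.le] at h
      omega
    obtain ⟨Q, rfl⟩ := dvd_iff_isRoot.2 hx
    have hQ : Q.Monic := (monic_X_sub_C x).of_mul_monic_left hP
    rw [(monic_X_sub_C x).natDegree_mul hQ, natDegree_X_sub_C] at h
    rw [eval₂_mul, mul_eq_zero] at ha
    rcases ha with ha | ha
    · rw [eval₂_sub, eval₂_X, eval₂_C, sub_eq_zero] at ha
      exact ⟨x, hx, ha.symm⟩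
    · obtain ⟨y, hy, hya⟩ := ih Q (by omega) hQ ha
      exact ⟨y, by rw [eval_mul, hy, mul_zero], hya⟩

theorem closed {F : Type} [Field F] [IsAlgClosed F] (O : ValuationSubring F) :
    IsAlgClosed (ResidueField O) := by
  refine IsAlgClosed.of_exists_root _ fun P hP hi => ?_
  obtain ⟨Q, rfl, h2, h3⟩ := lifts_and_degree_eq_and_monic
    (mem_lifts_of_surjective (residue_surjective (R := O)) P) hP
  obtain ⟨x, hx⟩ := root O h3 (h2 ▸ (degree_pos_of_irreducible hi).ne')
  exact ⟨residue O x, by rw [eval_map, eval₂_at_apply, hx, map_zero]⟩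

theorem indep {F : Type} [NormedField F] [CharZero F]
    (hF : ∀ s : Set F, s.Countable → Dense sᶜ) (m : ℕ) : ∀ a : Fin m → F,
      ∃ T : Fin m → F, (∀ i, ‖T i - a i‖ < 1) ∧ AlgebraicIndependent ℤ T := by
  induction m with
  | zero =>
    intro a
    exact ⟨a, fun i => i.elim0, algebraicIndependent_empty_type_iff.2 Int.cast_injective⟩
  | succ m ih =>
    intro a
    obtain ⟨T, h1, h2⟩ := ih fun i => a i.succ
    have : Countable (MvPolynomial (Fin m) ℤ) := Cardinal.mk_le_aleph0_iff.1
      (MvPolynomial.cardinalMk_le_max.trans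
        (sup_le (sup_le Cardinal.mk_le_aleph0 Cardinal.mk_le_aleph0) le_rfl))
    have : Countable (Algebra.adjoin ℤ (Set.range T)) := h2.aevalEquiv.symm.injective.countable
    obtain ⟨x, hx1, hx2⟩ :=
      (hF _ (Algebraic.countable (Algebra.adjoin ℤ (Set.range T)) F)).exists_dist_lt (a 0) one_pos
    refine ⟨_, fun i => ?_, ((h2.option_iff_transcendental x).2 hx1).comp _
      (finSuccEquiv m).injective⟩
    refine Fin.cases ?_ (fun i => ?_) i
    · simpa [dist_eq_norm'] using hx2
    · simpa using h1 i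

theorem main {F : Type} [NormedField F] [IsUltrametricDist F] [IsAlgClosed F] [CharZero F]
    (hF : ∀ s : Set F, s.Countable → Dense sᶜ) {p : ℕ} [Fact p.Prime] (hp : ‖(p : F)‖ < 1)
    {m : ℕ} {g : MvPolynomial (Fin m) ℤ} {μ : (Ao m g)[X]} (hg : g ≠ 0) (hμ : μ.Monic)
    [IsDomain (AdjoinRoot μ)] {k : Type} [Field k] [Finite k] [CharP k p]
    (ρ : AdjoinRoot μ →+* k) : ∃ ι : AdjoinRoot μ →+* F, Function.Injective ι ∧
      (∀ y, ‖ι y‖ ≤ 1) ∧ ∀ y, ρ y = 0 → ‖ι y‖ < 1 := by
  let O : ValuationSubring F := (NormedField.valuation (K := F)).valuationSubring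
  have hO : ∀ x : F, x ∈ O ↔ ‖x‖ ≤ 1 := fun x => Iff.rfl
  have hm : ∀ x : O, residue O x = 0 ↔ ‖(x : F)‖ < 1 := by
    intro x
    rw [residue_eq_zero_iff, ← ValuationSubring.coe_mem_nonunits_iff,
      ValuationSubring.mem_nonunits_iff_or, hO, norm_inv, not_le]
    rcases eq_or_ne (x : F) 0 with h | h
    · simp [h]
    · rw [one_lt_inv₀ (norm_pos_iff.2 h)]
      simp [h]
  have := closed O
  have : CharP (ResidueField O) p := by
    refine (CharP.charP_iff_prime_eq_zero Fact.out).2 ?_
    rw [← map_natCast (residue O), hm]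
    simpa using hp
  let _ := ZMod.algebra k p
  let _ := ZMod.algebra (ResidueField O) p
  let j : k →+* ResidueField O := (IsAlgClosed.lift : k →ₐ[ZMod p] ResidueField O)
  let r : MvPolynomial (Fin m) ℤ →+* ResidueField O :=
    ((j.comp ρ).comp (AdjoinRoot.of μ)).comp (algebraMap _ (Ao m g))
  choose a ha using fun i => residue_surjective (R := O) (r (MvPolynomial.X i))
  obtain ⟨T, hT1, hT2⟩ := indep hF m fun i => (a i : F)
  have hT3 : ∀ i, T i ∈ O := fun i => by
    simpa using O.add_mem _ _ ((hO _).2 (hT1 i).le) (a i).2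
  let e : MvPolynomial (Fin m) ℤ →+* O :=
    MvPolynomial.eval₂Hom (Int.castRingHom O) fun i => ⟨T i, hT3 i⟩
  have he : (residue O).comp e = r := by
    refine MvPolynomial.ringHom_ext' (RingHom.ext_int _ _) fun i => ?_
    rw [RingHom.comp_apply, MvPolynomial.eval₂Hom_X', ← ha, ← sub_eq_zero, ← map_sub, hm]
    exact hT1 i
  have hi : Function.Injective e := by
    have h1 : O.subtype.comp e = (MvPolynomial.aeval T : MvPolynomial (Fin m) ℤ →ₐ[ℤ] F) := by
      refine MvPolynomial.ringHom_ext' (RingHom.ext_int _ _) fun i => ?_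
      simp [e]
    refine Function.Injective.of_comp (f := O.subtype) ?_
    rw [← RingHom.coe_comp, h1]
    exact hT2
  have hu : IsUnit (e g) := by
    rw [← residue_ne_zero_iff_isUnit, ← RingHom.comp_apply, he]
    exact ((IsLocalization.Away.algebraMap_isUnit g).map
      ((j.comp ρ).comp (AdjoinRoot.of μ))).ne_zero
  let e1 : Ao m g →+* O := IsLocalization.Away.lift g hu
  have h1 : e1.comp (algebraMap _ (Ao m g)) = e := IsLocalization.Away.lift_comp g hu
  have he1 : (residue O).comp e1 = (j.comp ρ).comp (AdjoinRoot.of μ) :=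
    IsLocalization.ringHom_ext (Submonoid.powers g) (by rw [RingHom.comp_assoc, h1, he])
  have hi1 : Function.Injective e1 := by
    refine (injective_iff_map_eq_zero _).2 fun z hz => ?_
    obtain ⟨⟨x, s⟩, rfl⟩ := IsLocalization.mk'_surjective (Submonoid.powers g) z
    have h2 := congrArg e1 (IsLocalization.mk'_spec (Ao m g) x s)
    rw [map_mul, hz, zero_mul, ← RingHom.comp_apply, h1, ← map_zero e] at h2
    show IsLocalization.mk' (Ao m g) x s = 0
    rw [← hi h2, IsLocalization.mk'_zero]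
  obtain ⟨x, hx1, hx2⟩ := res_root O (j (ρ (AdjoinRoot.root μ))) _ (μ.map e1) rfl (hμ.map _) (by
    rw [eval₂_map, he1, ← RingHom.comp_apply, ← hom_eval₂, AdjoinRoot.eval₂_root, map_zero])
  rw [eval_map] at hx1
  let e2 : AdjoinRoot μ →+* O := AdjoinRoot.lift e1 x hx1
  have h2 : e2.comp (AdjoinRoot.of μ) = e1 := AdjoinRoot.lift_comp_of hx1
  have he2 : (residue O).comp e2 = j.comp ρ :=
    AdjoinRoot.ringHom_ext (by rw [RingHom.comp_assoc, h2, he1])
      (by rw [RingHom.comp_apply, AdjoinRoot.lift_root, hx2, RingHom.comp_apply])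
  refine ⟨O.subtype.comp e2, ?_, fun y => (hO _).1 (e2 y).2, fun y hy => (hm (e2 y)).1 ?_⟩
  · have := hμ.finite_adjoinRoot
    have : IsDomain (Ao m g) := IsLocalization.isDomain_localization
      (powers_le_nonZeroDivisors_of_noZeroDivisors hg)
    refine O.subtype_injective.comp ((RingHom.injective_iff_ker_eq_bot e2).2
      (Ideal.eq_bot_of_comap_eq_bot (R := Ao m g) ?_))
    rw [RingHom.comap_ker, AdjoinRoot.algebraMap_eq, h2]
    exact (RingHom.injective_iff_ker_eq_bot e1).1 hi1
  · rw [← RingHom.comp_apply, he2, RingHom.comp_apply, hy, map_zero]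

end LIFT

theorem lift : LiftStmt := by
  intro m g μ hg hμ _ k _ _ ρ
  obtain ⟨p, _⟩ := CharP.exists k
  have hp : p.Prime := CharP.char_is_prime k p
  have := Fact.mk hp
  have h1 : ‖(p : PadicAlgCl p)‖ < 1 := by
    rw [← map_natCast (algebraMap ℚ_[p] (PadicAlgCl p)), norm_algebraMap']
    exact Padic.norm_p_lt_one
  obtain ⟨ι, h⟩ := LIFT.main (F := PadicAlgCl p) (fun s hs => hs.dense_compl ℚ_[p]) h1 hg hμ ρ
  exact ⟨PadicAlgCl p, inferInstance, inferInstance, inferInstance, p, ι, hp, h1, h⟩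

end Pool.Agent.MP_be2dd8_ag.H53D
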