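import Pool.Agent.MP_be2dd8_ag.H53D.Spec

set_option autoImplicit false

/-! Row LOC: an automorphism that moves all iterated preimages of a fixed level. -/

namespace Pool.Agent.MP_be2dd8_ag.H53D

open Polynomial

namespace LOC

theorem it_succ (f : Om[X]) (n : ℕ) (x : Om) : it f (n + 1) x = it f n (f.eval x) :=
  Function.iterate_succ_apply _ n x

theorem it_succ' (f : Om[X]) (n : ℕ) (x : Om) : it f (n + 1) x = f.eval (it f n x) :=
  Function.iterate_succ_apply' _ n x

theorem it_add (f : Om[X]) (a b : ℕ) (x : Om) : it f (a + b) x = it f a (it f b x) :=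
  Function.iterate_add_apply _ a b x

theorem it_mul_fix {f : Om[X]} {m : ℕ} {z : Om} (h : it f m z = z) (k : ℕ) :
    it f (m * k) z = z := by
  induction k with
  | zero => rfl
  | succ k ih => rw [Nat.mul_succ, it_add, h, ih]

theorem it_fix (σ : Om ≃ₐ[ℚ] Om) {f : Om[X]} (hf : ∀ i, σ (f.coeff i) = f.coeff i) {x : Om}
    (hx : σ x = x) (n : ℕ) : σ (it f n x) = it f n x := by
  induction n with
  | zero => exact hx
  | succ n ih =>
    rw [it_succ', eval_eq_sum_range, map_sum]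
    refine Finset.sum_congr rfl fun i _ => ?_
    rw [map_mul, map_pow, hf, ih]

theorem pre_finite {f : Om[X]} (hf : 0 < f.natDegree) (n : ℕ) (τ : Om) :
    {β | it f n β = τ}.Finite := by
  induction n with
  | zero => exact (Set.finite_singleton τ).subset fun β h => h
  | succ n ih =>
    have h1 : ∀ c : Om, {β | f.eval β = c}.Finite := fun c => by
      have h2 : f - C c ≠ 0 := fun h => by
        rw [sub_eq_zero.1 h, natDegree_C] at hf
        exact lt_irrefl _ hf
      refine (finite_setOfPred_isRoot h2).subset fun β h => ?_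
      simp only [Set.mem_ofPred_eq] at h
      simp [h]
    refine (ih.biUnion fun c _ => h1 c).subset fun β h => ?_
    simp only [Set.mem_ofPred_eq, it_succ] at h
    exact Set.mem_biUnion h rfl

variable {w : AbsoluteValue Om ℝ} (hw : IsNonarchimedean w)
include hw

theorem add_le {a b : Om} {c : ℝ} (ha : w a ≤ c) (hb : w b ≤ c) : w (a + b) ≤ c :=
  (hw a b).trans (max_le ha hb)

theorem add_lt {a b : Om} {c : ℝ} (ha : w a < c) (hb : w b < c) : w (a + b) < c :=
  (hw a b).trans_lt (max_lt ha hb)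

theorem sub_lt {a b d : Om} {c : ℝ} (h1 : w (a - b) < c) (h2 : w (b - d) < c) :
    w (a - d) < c := by
  have := add_lt hw h1 h2
  rwa [sub_add_sub_cancel] at this

theorem eval_int {f : Om[X]} (hf : ∀ i, w (f.coeff i) ≤ 1) {x : Om} (hx : w x ≤ 1) :
    w (f.eval x) ≤ 1 := by
  rw [eval_eq_sum_range]
  refine Finset.sum_induction _ (fun y => w y ≤ 1) (fun a b => add_le hw) (by simp) fun i _ => ?_
  rw [map_mul, map_pow]
  exact mul_le_one₀ (hf i) (by positivity) (pow_le_one₀ (w.nonneg x) hx)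

theorem pow_cong {x y : Om} (hx : w x ≤ 1) (hy : w y ≤ 1) (h : w (x - y) < 1) (i : ℕ) :
    w (x ^ i - y ^ i) < 1 := by
  induction i with
  | zero => simp
  | succ i ih =>
    rw [show x ^ (i + 1) - y ^ (i + 1) = x * (x ^ i - y ^ i) + y ^ i * (x - y) by ring]
    refine add_lt hw ?_ ?_
    · rw [map_mul]
      exact mul_lt_one_of_nonneg_of_lt_one_right hx (w.nonneg _) ih
    · rw [map_mul, map_pow]
      exact mul_lt_one_of_nonneg_of_lt_one_right (pow_le_one₀ (w.nonneg y) hy) (w.nonneg _) h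

theorem eval_cong {f : Om[X]} (hf : ∀ i, w (f.coeff i) ≤ 1) {x y : Om} (hx : w x ≤ 1)
    (hy : w y ≤ 1) (h : w (x - y) < 1) : w (f.eval x - f.eval y) < 1 := by
  rw [eval_eq_sum_range, eval_eq_sum_range, ← Finset.sum_sub_distrib]
  refine Finset.sum_induction _ (fun y => w y < 1) (fun a b => add_lt hw) (by simp) fun i _ => ?_
  rw [← mul_sub, map_mul]
  exact mul_lt_one_of_nonneg_of_lt_one_right (hf i) (w.nonneg _) (pow_cong hw hx hy h i)

theorem int_of_eval {f : Om[X]} (hf : ∀ i, w (f.coeff i) ≤ 1) (hd : 0 < f.natDegree)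
    (hl : w f.leadingCoeff = 1) {x : Om} (h : w (f.eval x) ≤ 1) : w x ≤ 1 := by
  by_contra hx
  rw [not_le] at hx
  have h1 : f.leadingCoeff * x ^ f.natDegree =
      f.eval x + -∑ i ∈ Finset.range f.natDegree, f.coeff i * x ^ i := by
    rw [eval_eq_sum_range, Finset.sum_range_succ, add_neg_cancel_comm]
    rfl
  have h0 : 1 < w x ^ f.natDegree := one_lt_pow₀ hx hd.ne'
  have h2 : w (∑ i ∈ Finset.range f.natDegree, f.coeff i * x ^ i) < w x ^ f.natDegree := by
    refine Finset.sum_induction _ (fun y => w y < w x ^ f.natDegree) (fun a b => add_lt hw)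
      (by simpa using zero_lt_one.trans h0) fun i hi => ?_
    rw [map_mul, map_pow]
    exact (mul_le_of_le_one_left (by positivity) (hf i)).trans_lt
      (pow_lt_pow_right₀ hx (Finset.mem_range.1 hi))
  have h3 := add_lt hw (h.trans_lt h0) ((w.map_neg _).trans_lt h2)
  rw [← h1, map_mul, map_pow, hl, one_mul] at h3
  exact lt_irrefl _ h3

theorem it_int {f : Om[X]} (hf : ∀ i, w (f.coeff i) ≤ 1) {x : Om} (hx : w x ≤ 1) (n : ℕ) :
    w (it f n x) ≤ 1 := by
  induction n with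
  | zero => exact hx
  | succ n ih => rw [it_succ']; exact eval_int hw hf ih

theorem it_cong {f : Om[X]} (hf : ∀ i, w (f.coeff i) ≤ 1) {x y : Om} (hx : w x ≤ 1)
    (hy : w y ≤ 1) (h : w (x - y) < 1) (n : ℕ) : w (it f n x - it f n y) < 1 := by
  induction n with
  | zero => exact h
  | succ n ih =>
    rw [it_succ', it_succ']
    exact eval_cong hw hf (it_int hw hf hx n) (it_int hw hf hy n) ih

theorem int_of_it {f : Om[X]} (hf : ∀ i, w (f.coeff i) ≤ 1) (hd : 0 < f.natDegree)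
    (hl : w f.leadingCoeff = 1) {x : Om} (n : ℕ) (h : w (it f n x) ≤ 1) : w x ≤ 1 := by
  induction n with
  | zero => exact h
  | succ n ih => rw [it_succ'] at h; exact ih (int_of_eval hw hf hd hl h)

theorem it_mul_cong {f : Om[X]} (hf : ∀ i, w (f.coeff i) ≤ 1) {x : Om} (hx : w x ≤ 1) {l : ℕ}
    (h : w (it f l x - x) < 1) (k : ℕ) : w (it f (l * k) x - x) < 1 := by
  induction k with
  | zero => simp [it]
  | succ k ih =>
    rw [Nat.mul_succ, it_add]
    exact sub_lt hw (it_cong hw hf (it_int hw hf hx l) hx h _) ih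

/-- the ring of integral elements -/
def O : Subring Om where
  carrier := {x | w x ≤ 1}
  mul_mem' {a b} ha hb := by
    simp only [Set.mem_ofPred_eq, map_mul] at *
    exact mul_le_one₀ ha (w.nonneg b) hb
  one_mem' := by simp
  add_mem' ha hb := add_le hw ha hb
  zero_mem' := by simp
  neg_mem' {a} ha := (w.map_neg a).trans_le ha

/-- its maximal ideal -/
def P : Ideal (O hw) where
  carrier := {x | w x < 1}
  add_mem' ha hb := add_lt hw ha hb
  zero_mem' := by simp
  smul_mem' c {x} hx := by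
    change w ((c : Om) * x) < 1
    rw [map_mul]
    exact mul_lt_one_of_nonneg_of_lt_one_right c.2 (w.nonneg _) hx

theorem P_prime : (P hw).IsPrime := by
  refine ⟨(Ideal.ne_top_iff_one _).2 fun h => ?_, fun {a b} h => ?_⟩
  · change w 1 < 1 at h
    simp at h
  · change w ((a : Om) * b) < 1 at h
    change w a < 1 ∨ w b < 1
    by_contra hc
    rw [not_or, not_lt, not_lt] at hc
    rw [map_mul] at h
    exact absurd (one_le_mul_of_one_le_of_one_le hc.1 hc.2) (not_le.2 h)

theorem pigeon {Q : ℕ} (hQ : 1 < Q) (x : ℕ → Om) (h1 : ∀ i, w (x i) ≤ 1)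
    (h2 : ∀ i, w (x i ^ Q - x i) < 1) : ∃ a b, a < b ∧ b ≤ Q ∧ w (x b - x a) < 1 := by
  classical
  have := P_prime hw
  let g : (O hw ⧸ P hw)[X] := X ^ Q - X
  have hd : g.natDegree = Q := by
    rw [natDegree_sub_eq_left_of_natDegree_lt] <;> simp [hQ]
  have hg : g ≠ 0 := fun h => by
    rw [h, natDegree_zero] at hd
    omega
  have hc : g.roots.toFinset.card < (Finset.range (Q + 1)).card := by
    rw [Finset.card_range]
    exact Nat.lt_succ_of_le ((Multiset.toFinset_card_le _).trans ((card_roots' g).trans hd.le))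
  obtain ⟨a, ha, b, hb, hab, h⟩ := Finset.exists_ne_map_eq_of_card_lt_of_maps_to hc
    (f := fun i => Ideal.Quotient.mk (P hw) ⟨x i, h1 i⟩) fun i _ => by
      simp only [Finset.mem_coe, Multiset.mem_toFinset, mem_roots hg, IsRoot, g, eval_sub,
        eval_pow, eval_X]
      rw [← map_pow, ← map_sub, Ideal.Quotient.eq_zero_iff_mem]
      exact h2 i
  have h3 : w (x a - x b) < 1 := Ideal.Quotient.eq.1 h
  rw [Finset.mem_range] at ha hb
  rcases lt_or_gt_of_ne hab with h4 | h4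
  · exact ⟨a, b, h4, by omega, (w.map_sub _ _).trans_lt h3⟩
  · exact ⟨b, a, h4, by omega, h3⟩

theorem ap_eq {a b : Om} (h : w (a - b) < w a) : w b = w a := by
  refine le_antisymm ?_ (le_of_not_gt fun h1 => ?_)
  · have := add_le hw le_rfl ((w.map_sub b a).trans_le h.le)
    rwa [add_sub_cancel] at this
  · have := add_lt hw h1 h
    rw [add_sub_cancel] at this
    exact lt_irrefl _ this

theorem ap_mul {a b c d : Om} (h1 : w (a - b) < w a) (h2 : w (c - d) < w c) :
    w (a * c - b * d) < w (a * c) := by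
  rw [show a * c - b * d = (a - b) * c + b * (c - d) by ring, map_mul w a c]
  refine add_lt hw ?_ ?_
  · rw [map_mul]
    exact mul_lt_mul_of_pos_right h1 ((w.nonneg _).trans_lt h2)
  · rw [map_mul, ap_eq hw h1]
    exact mul_lt_mul_of_pos_left h2 ((w.nonneg _).trans_lt h1)

theorem ap_pow {a b : Om} (h : w (a - b) < w a) (n : ℕ) : w (a ^ n - b ^ n) < w (a ^ n) := by
  induction n with
  | zero => simp
  | succ n ih => rw [pow_succ, pow_succ]; exact ap_mul hw ih h

theorem core {y : ℕ → Om} {u : Om} {δ : ℕ} {r θ : ℝ} {k0 s : ℕ} (hu : w u = 1) (hθ0 : 0 ≤ θ)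
    (hθ1 : θ < 1) (hy : ∀ k ≤ k0 + s, w (y k) < 1)
    (h1 : ∀ k < k0 + s, r < w (y (k + 1)) → w (y k - u * y (k + 1) ^ δ) < w (y (k + 1)) ^ δ)
    (h2 : ∀ k < k0 + s, w (y (k + 1)) ≤ r → w (y k) ≤ θ * w (y (k + 1)))
    (hk : θ ^ k0 < w (y 0)) (h0 : y k0 ≠ 0) :
    w (y k0 - u ^ (∑ t ∈ Finset.range s, δ ^ t) * y (k0 + s) ^ δ ^ s) < w (y k0) := by
  have h3 : ∀ k ≤ k0 + s, w (y k) ≤ r → w (y 0) ≤ θ ^ k * w (y k) := by
    intro k
    induction k with
    | zero => simp
    | succ k ih =>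
      intro hk1 hr
      have h4 := h2 k hk1 hr
      have h5 : θ * w (y (k + 1)) ≤ w (y (k + 1)) := mul_le_of_le_one_left (w.nonneg _) hθ1.le
      calc w (y 0) ≤ θ ^ k * w (y k) := ih (by omega) (h4.trans (h5.trans hr))
        _ ≤ θ ^ k * (θ * w (y (k + 1))) := mul_le_mul_of_nonneg_left h4 (by positivity)
        _ = _ := by ring
  have h4 : ∀ k, k0 ≤ k → k ≤ k0 + s → r < w (y k) := by
    intro k hk0 hk1
    by_contra hc
    have h5 := h3 k hk1 (not_lt.1 hc)
    have h6 : θ ^ k * w (y k) ≤ θ ^ k := mul_le_of_le_one_right (by positivity) (hy k hk1).le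
    have h7 : θ ^ k ≤ θ ^ k0 := pow_le_pow_of_le_one hθ0 hθ1.le hk0
    linarith
  have h5 : ∀ t ≤ s, w (y k0 - u ^ (∑ i ∈ Finset.range t, δ ^ i) * y (k0 + t) ^ δ ^ t) <
      w (y k0) := by
    intro t
    induction t with
    | zero => intro _; simpa using h0
    | succ t ih =>
      intro ht
      have h6 := ih (by omega)
      have h7 := h1 (k0 + t) (by omega) (h4 _ (by omega) (by omega))
      have h8 : w (y (k0 + t + 1)) ^ δ = w (u * y (k0 + t + 1) ^ δ) := by
        rw [map_mul, map_pow, hu, one_mul]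
      rw [h8] at h7
      rw [← ap_eq hw ((w.map_sub _ _).trans_lt h7)] at h7
      have h9 : w (u ^ (∑ i ∈ Finset.range t, δ ^ i) - u ^ (∑ i ∈ Finset.range t, δ ^ i)) <
          w (u ^ (∑ i ∈ Finset.range t, δ ^ i)) := by
        simp [hu]
      have h10 := ap_mul hw h9 (ap_pow hw h7 (δ ^ t))
      rw [ap_eq hw h6] at h10
      have h11 := sub_lt hw h6 h10
      rwa [mul_pow, ← mul_assoc, ← pow_add, ← Finset.sum_range_succ, ← pow_mul, ← pow_succ']
        at h11
  exact h5 s le_rfl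

end LOC

open LOC in
theorem loc : UnitStmt → DynStmt → RamStmt → LocStmt := by
  classical
  intro hU hD hR J _ f τ E hdeg hper hty
  have hS : ∀ j, ∃ S : Finset Om, (∀ i, (f j).coeff i ≠ 0 → (f j).coeff i ∈ S) ∧ τ j ∈ S ∧
      ((Set.range fun n => it (f j) n (τ j)).Finite → ∀ n, it (f j) n (τ j) - τ j ∈ S) := by
    intro j
    by_cases h : (Set.range fun n => it (f j) n (τ j)).Finite
    · refine ⟨insert (τ j) ((f j).coeffs ∪ h.toFinset.image fun x => x - τ j), fun i hi => ?_,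
        Finset.mem_insert_self _ _, fun _ n => ?_⟩
      · exact Finset.mem_insert_of_mem (Finset.mem_union_left _ (coeff_mem_coeffs hi))
      · exact Finset.mem_insert_of_mem (Finset.mem_union_right _
          (Finset.mem_image_of_mem _ (h.mem_toFinset.2 ⟨n, rfl⟩)))
    · exact ⟨insert (τ j) (f j).coeffs, fun i hi => Finset.mem_insert_of_mem (coeff_mem_coeffs hi),
        Finset.mem_insert_self _ _, fun h' => absurd h' h⟩
  choose S hS1 hS2 hS3 using hS
  obtain ⟨p, w, hp, hdp, hw, hwp, hE0⟩ :=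
    hU (Finset.univ.biUnion S) (Finset.univ.sup fun j => (f j).natDegree)
  have hE1 : ∀ j, ∀ e ∈ S j, e ≠ 0 → w e = 1 := fun j e he =>
    hE0 e (Finset.mem_biUnion.2 ⟨j, Finset.mem_univ j, he⟩)
  have hc : ∀ j i, w ((f j).coeff i) ≤ 1 := fun j i => by
    by_cases h : (f j).coeff i = 0
    · simp [h]
    · exact (hE1 j _ (hS1 j i h) h).le
  have hl : ∀ j, w (f j).leadingCoeff = 1 := fun j => by
    have h : (f j).leadingCoeff ≠ 0 := leadingCoeff_ne_zero.2 (ne_zero_of_natDegree_gt (hdeg j))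
    exact hE1 j _ (hS1 j _ h) h
  have hτ : ∀ j, w (τ j) ≤ 1 := fun j => by
    by_cases h : τ j = 0
    · simp [h]
    · exact (hE1 j _ (hS2 j) h).le
  have hdyn : ∀ j, ∃ (m : ℕ) (z u : Om) (δ : ℕ) (r θ : ℝ) (k0 : ℕ),
      (∃ l, 0 < l ∧ w (it (f j) l (τ j) - τ j) < 1) → it (f j) m z = z ∧ w (z - τ j) < 1 ∧
        (2 ≤ δ ∧ δ.Coprime p) ∧ w u = 1 ∧ 0 ≤ θ ∧ θ < 1 ∧
        (∀ y, r < w y → w y < 1 → w (it (f j) m (z + y) - z - u * y ^ δ) < w y ^ δ) ∧
        (∀ y, w y ≤ r → w (it (f j) m (z + y) - z) ≤ θ * w y) ∧ θ ^ k0 < w (τ j - z) ∧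
        z ≠ τ j := by
    intro j
    by_cases h : ∃ l, 0 < l ∧ w (it (f j) l (τ j) - τ j) < 1
    · obtain ⟨m, hm, h1⟩ := h
      have hcr : (f j).derivative.eval (τ j) = 0 := by
        refine (hty j).resolve_right fun h2 => ?_
        exact h1.ne (hE1 j _ (hS3 j h2 m) (sub_ne_zero.2 (hper j m hm)))
      obtain ⟨z, u, δ, r, θ, h2, h3, h4, h5, h6, -, h7, h8, h9, h10⟩ := hD p w hp hw hwp (f j)
        (τ j) m (hdeg j)
        ((Finset.le_sup (f := fun j => (f j).natDegree) (Finset.mem_univ j)).trans_lt hdp) (hc j)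
        (hl j) (hτ j) hcr hm h1
      have hz : z ≠ τ j := fun h => hper j m hm (h ▸ h2)
      obtain ⟨k0, hk⟩ := exists_pow_lt_of_lt_one (w.pos (sub_ne_zero.2 hz.symm)) h8
      exact ⟨m, z, u, δ, r, θ, k0, fun _ => ⟨h2, h3, ⟨h4, h5⟩, h6, h7, h8, h9, h10, hk, hz⟩⟩
    · exact ⟨0, 0, 0, 0, 0, 0, 0, fun h' => absurd h' h⟩
  choose m z u δ r θ k0 H using hdyn
  let G : Set Om := (E : Set Om) ∪ ⋃ j, ((S j : Set Om) ∪ {z j, u j} ∪
    {β | it (f j) (m j * k0 j) β = τ j})
  have hG : G.Finite := E.finite_toSet.union (Set.finite_iUnion fun j =>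
    ((S j).finite_toSet.union (Set.toFinite _)).union (pre_finite (hdeg j) _ _))
  have : Finite G := hG
  let L := IntermediateField.adjoin ℚ G
  have : FiniteDimensional ℚ L :=
    IntermediateField.finiteDimensional_adjoin fun x _ =>
      ((AlgebraicClosure.isAlgebraic ℚ).isAlgebraic x).isIntegral
  have hL : ∀ j x, x ∈ (S j : Set Om) ∪ {z j, u j} ∪ {β | it (f j) (m j * k0 j) β = τ j} →
      x ∈ L := fun j x hx =>
    IntermediateField.subset_adjoin ℚ G (Or.inr (Set.mem_iUnion.2 ⟨j, hx⟩))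
  let I : Set (J × Om) := {q | (∃ l, 0 < l ∧ w (it (f q.1) l (τ q.1) - τ q.1) < 1) ∧
    it (f q.1) (m q.1 * k0 q.1) q.2 = τ q.1 ∧ w (q.2 - z q.1) < 1}
  have hI : I.Finite := (Set.finite_univ.prod hG).subset fun q hq =>
    ⟨trivial, Or.inr (Set.mem_iUnion.2 ⟨q.1, Or.inr hq.2.1⟩)⟩
  have : Fintype I := hI.fintype
  have hη : ∀ q : I, q.1.2 - z q.1.1 ≠ 0 := fun q h => by
    have h1 := q.2.2.1
    rw [sub_eq_zero.1 h, it_mul_fix (H _ q.2.1).1] at h1
    exact (H _ q.2.1).2.2.2.2.2.2.2.2.2 h1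
  obtain ⟨σ, s, Q, hQ, hσL, hσQ, hram⟩ := hR p w hp hw hwp L I (fun q => q.1.2 - z q.1.1)
    (fun q => u q.1.1) (fun q => δ q.1.1)
    (fun q => ⟨sub_mem (hL _ _ (Or.inr q.2.2.1)) (hL q.1.1 _ (Or.inl (Or.inr (by simp)))), hη q,
      q.2.2.2⟩)
    (fun q => ⟨hL q.1.1 _ (Or.inl (Or.inr (by simp))), (H _ q.2.1).2.2.2.1⟩)
    fun q => (H _ q.2.1).2.2.1
  refine ⟨σ, Q + ∑ j, m j * (k0 j + s),
    fun e he => hσL e (IntermediateField.subset_adjoin ℚ G (Or.inl he)), fun j β hβ hσ => ?_⟩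
  have hn : Q + m j * (k0 j + s) ≤ Q + ∑ j, m j * (k0 j + s) :=
    Nat.add_le_add_left (Finset.single_le_sum (f := fun j => m j * (k0 j + s))
      (fun _ _ => Nat.zero_le _) (Finset.mem_univ j)) Q
  generalize Q + ∑ j, m j * (k0 j + s) = n at hβ hn
  have hσf : ∀ i, σ ((f j).coeff i) = (f j).coeff i := fun i => by
    by_cases h : (f j).coeff i = 0
    · simp [h]
    · exact hσL _ (hL j _ (Or.inl (Or.inl (hS1 j i h))))
  have hβ1 : w β ≤ 1 := int_of_it hw (hc j) (hdeg j) (hl j) n (hβ ▸ hτ j)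
  have hx1 : ∀ i, w (it (f j) i β) ≤ 1 := it_int hw (hc j) hβ1
  have hx2 : ∀ i, σ (it (f j) i β) = it (f j) i β := it_fix σ hσf hσ
  obtain ⟨a, b, hab, hbQ, h⟩ := pigeon hw hQ (fun i => it (f j) i β) hx1 fun i => by
    have := hσQ _ (hx1 i)
    rw [hx2] at this
    exact (w.map_sub _ _).trans_lt this
  obtain ⟨l, rfl⟩ := Nat.exists_eq_add_of_lt hab
  have hpe : ∀ i, Q ≤ i → w (it (f j) (l + 1) (it (f j) i β) - it (f j) i β) < 1 := by
    intro i hi
    have := it_cong hw (hc j) (hx1 _) (hx1 _) h (i - a)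
    rwa [← it_add, ← it_add, show i - a + a = i by omega,
      show i - a + (a + l + 1) = l + 1 + i by omega, it_add] at this
  have hA : ∃ l, 0 < l ∧ w (it (f j) l (τ j) - τ j) < 1 :=
    ⟨l + 1, Nat.succ_pos l, hβ ▸ hpe n (by omega)⟩
  obtain ⟨h1, h2, -, h3, h4, h5, h6, h7, h8, -⟩ := H j hA
  have hz1 : w (z j) ≤ 1 := by
    have := add_le hw h2.le (hτ j)
    rwa [sub_add_cancel] at this
  have hle : ∀ k ≤ k0 j + s, Q + m j * k ≤ n := fun k hk =>
    (Nat.add_le_add_left (Nat.mul_le_mul_left _ hk) Q).trans hn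
  have hb1 : ∀ k ≤ k0 j + s, it (f j) (m j * k) (it (f j) (n - m j * k) β) = τ j := by
    intro k hk
    have := hle k hk
    rw [← it_add, show m j * k + (n - m j * k) = n by omega, hβ]
  have hb2 : ∀ k ≤ k0 j + s, w (it (f j) (n - m j * k) β - z j) < 1 := by
    intro k hk
    have h9 := hle k hk
    have h10 := it_mul_cong hw (hc j) (hx1 _) (hpe (n - m j * k) (by omega)) (m j * k)
    rw [show (l + 1) * (m j * k) = m j * (l * k) + m j * k by ring, it_add, hb1 k hk] at h10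
    have h11 := it_cong hw (hc j) (hτ j) hz1 ((w.map_sub _ _).trans_lt h2) (m j * (l * k))
    rw [it_mul_fix h1] at h11
    exact sub_lt hw ((w.map_sub _ _).trans_lt h10) h11
  have hb3 : ∀ k < k0 j + s, it (f j) (m j) (z j + (it (f j) (n - m j * (k + 1)) β - z j)) =
      it (f j) (n - m j * k) β := by
    intro k hk
    have := hle (k + 1) hk
    rw [add_sub_cancel, ← it_add]
    congr 1
    rw [Nat.mul_succ] at this ⊢
    omega
  let q : I := ⟨(j, it (f j) (n - m j * k0 j) β), hA, hb1 (k0 j) (Nat.le_add_right _ _),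
    hb2 (k0 j) (Nat.le_add_right _ _)⟩
  have h9 := core hw (y := fun k => it (f j) (n - m j * k) β - z j) (δ := δ j) (r := r j)
    (k0 := k0 j) (s := s) h3 h4 h5 hb2
    (fun k hk hr => by
      have := h6 _ hr (hb2 (k + 1) hk)
      rwa [hb3 k hk] at this)
    (fun k hk hr => by
      have := h7 _ hr
      rwa [hb3 k hk] at this)
    (by simpa [hβ] using h8) (hη q)
  refine absurd (hram q (it (f j) (n - m j * (k0 j + s)) β - z j) ?_) (not_le.2 h9)
  rw [map_sub, hx2, hσL _ (hL j _ (Or.inl (Or.inr (by simp))))]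

end Pool.Agent.MP_be2dd8_ag.H53D
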