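import Pool.Agent.MP_be2dd8_ag.H53D.Spec

set_option autoImplicit false

/-!
Row ONE: interpolation of one orbit.
-/

namespace Pool.Agent.MP_be2dd8_ag.H53D

open Polynomial Filter

namespace ONE

section Alg

variable {O : Type} [CommRing O]

theorem dvd_comp (u a b : O[X]) : a - b ∣ u.comp a - u.comp b := by
  simpa only [eval_map, comp] using sub_dvd_eval_sub a b (u.map C)

theorem iter_comp (f q : O[X]) (n : ℕ) : f.comp^[n] q = (f.comp^[n] X).comp q := by
  induction n with
  | zero => simp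
  | succ n ih => rw [Function.iterate_succ_apply', Function.iterate_succ_apply', ih, comp_assoc]

theorem eval_iter (f : O[X]) (n : ℕ) (t : O) : (f.comp^[n] X).eval t = it f n t := by
  rw [iterate_comp_eval, eval_X, it]

theorem it_add (f : O[X]) (a b : ℕ) (t : O) : it f (a + b) t = it f a (it f b t) :=
  Function.iterate_add_apply _ _ _ _

theorem it_succ (f : O[X]) (a : ℕ) (t : O) : it f (a + 1) t = f.eval (it f a t) :=
  Function.iterate_succ_apply' _ _ _

theorem it_mul {f g : O[X]} {N : ℕ} (h : ∀ t, g.eval t = it f N t) (k : ℕ) (t : O) :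
    it f (N * k) t = it g k t := by
  induction k with
  | zero => rfl
  | succ k ih => rw [it_succ, h, ← ih, ← it_add, mul_add, mul_one, add_comm]

theorem gen {m d : O[X]} (H : ∀ n, m ∣ d.comp ((X + d).comp^[n] X) - d) (n : ℕ) :
    m ∣ (X + d).comp^[n] X - (X + (n : O[X]) * d) := by
  induction n with
  | zero => simp
  | succ n ih =>
    rw [Function.iterate_succ_apply', add_comp, X_comp]
    exact (ih.add (H n)).trans (dvd_of_eq (by push_cast; ring))

theorem iter {v : O} {p : ℕ} (hp : 0 < p) (hv : v ∣ p) (c : O) (h : O[X]) (j : ℕ) :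
    ∃ (h' : O[X]) (N : ℕ), 0 < N ∧
      ∀ t, (X + C (v ^ (j + 1)) * h').eval t = it (X + (C c + C v * h)) N t := by
  have hC : C v ∣ (p : O[X]) := by simpa using map_dvd C hv
  induction j with
  | zero =>
    have h1 := gen (m := C v) (d := C c + C v * h) (fun n => by
      rw [add_comp, mul_comp, C_comp, C_comp, add_sub_add_left_eq_sub, ← mul_sub]
      exact dvd_mul_right _ _) p
    obtain ⟨h', e⟩ := h1.add (hC.mul_right (C c + C v * h))
    refine ⟨h', p, hp, fun t => ?_⟩
    rw [← eval_iter, zero_add, pow_one, ← e]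
    congr 1
    ring
  | succ j ih =>
    obtain ⟨h₀, N, hN, e₀⟩ := ih
    have h1 : ∀ n, C v ∣ (X + C (v ^ (j + 1)) * h₀).comp^[n] X - X := fun n => by
      have h2 : C v ∣ C (v ^ (j + 1)) := map_dvd C (dvd_pow_self v j.succ_ne_zero)
      have h3 := gen (m := C v) (d := C (v ^ (j + 1)) * h₀) (fun n => by
        rw [mul_comp, C_comp]
        exact (h2.mul_right _).sub (h2.mul_right _)) n
      exact (h3.add ((h2.mul_right h₀).mul_left n)).trans (dvd_of_eq (by ring))
    have h2 := gen (m := C (v ^ (j + 1)) * C v) (d := C (v ^ (j + 1)) * h₀) (fun n => by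
      rw [mul_comp, C_comp, ← mul_sub]
      exact mul_dvd_mul_left _ ((h1 n).trans (by simpa only [comp_X] using dvd_comp h₀ _ X))) p
    obtain ⟨h', e⟩ := h2.add (show _ ∣ (p : O[X]) * (C (v ^ (j + 1)) * h₀) by
      rw [mul_left_comm]
      exact mul_dvd_mul_left _ (hC.mul_right _))
    refine ⟨h', N * p, Nat.mul_pos hN hp, fun t => ?_⟩
    rw [it_mul e₀, ← eval_iter, pow_succ, C_mul, ← e]
    congr 1
    ring

theorem conj (G : O[X]) {x v : O} (h1 : v ∣ G.eval x - x) (h2 : v ∣ G.derivative.eval x - 1) :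
    ∃ (c : O) (h : O[X]), ∀ t, G.eval (x + v * t) = x + v * (X + (C c + C v * h)).eval t := by
  obtain ⟨c, hc⟩ := h1
  obtain ⟨b, hb⟩ := h2
  obtain ⟨k, hk⟩ := (G.map C).binomExpansion (C x) (C v * X)
  refine ⟨c, C b * X + k * X ^ 2, fun t => ?_⟩
  have h3 := congrArg (eval t) hk
  rw [derivative_map, eval_map_apply, eval_map_apply, eval_map, ← comp, eval_comp] at h3
  simp only [eval_add, eval_mul, eval_C, eval_X, eval_pow] at h3 ⊢
  linear_combination h3 + hc + v * t * hb

theorem diff_le {F : Type} [NormedField F] (φ : O →+* F) (hφ : ∀ y, ‖φ y‖ ≤ 1) (e t : O)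
    (h : O[X]) (k : ℕ) (u : O[X]) (n : ℕ) :
    ‖(fwdDiff 1)^[k] (fun n => φ (u.eval (it (X + C e * h) n t))) n‖ ≤ ‖φ e‖ ^ k := by
  induction k generalizing u with
  | zero => simpa using hφ _
  | succ k ih =>
    obtain ⟨u', he⟩ : C e ∣ u.comp (X + C e * h) - u :=
      (show C e ∣ X + C e * h - X from ⟨h, by ring⟩).trans
        (by simpa only [comp_X] using dvd_comp u (X + C e * h) X)
    have h1 : fwdDiff 1 (fun n => φ (u.eval (it (X + C e * h) n t))) =
        φ e • fun n => φ (u'.eval (it (X + C e * h) n t)) := by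
      ext n
      rw [fwdDiff, it_succ, ← eval_comp, ← map_sub, ← eval_sub, he, eval_mul, eval_C, map_mul]
      rfl
    rw [Function.iterate_succ_apply, h1, fwdDiff_iter_const_smul, Pi.smul_apply, norm_smul,
      pow_succ']
    exact mul_le_mul_of_nonneg_left (ih u') (norm_nonneg _)

theorem period {k : Type} [Field k] [Finite k] (ρ : O →+* k) (f : O[X]) (y : O)
    (h : ∀ n, ρ (f.derivative.eval (it f n y)) ≠ 0) : ∃ a P, 0 < P ∧
      ρ ((f.comp^[P] X).eval (it f a y) - it f a y) = 0 ∧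
      ρ ((f.comp^[P] X).derivative.eval (it f a y) - 1) = 0 := by
  have h1 : ∀ n, ρ ((f.comp^[n] X).derivative.eval y) ≠ 0 := fun n => by
    induction n with
    | zero => simp
    | succ n ih =>
      rw [Function.iterate_succ_apply', derivative_comp, eval_mul, eval_comp, eval_iter, map_mul]
      exact mul_ne_zero ih (h n)
  obtain ⟨a, b, hab, e⟩ := Set.finite_univ.exists_lt_map_eq_of_forall_mem
    (f := fun n : ℕ => (ρ (it f n y), ρ ((f.comp^[n] X).derivative.eval y))) fun _ =>
      Set.mem_univ _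
  obtain ⟨P, rfl⟩ := Nat.exists_eq_add_of_le' hab.le
  obtain ⟨e1, e2⟩ := Prod.mk.inj e
  refine ⟨a, P, by omega, ?_, ?_⟩
  · rw [eval_iter, ← it_add, map_sub, e1, sub_self]
  · rw [Function.iterate_add_apply, iter_comp f (f.comp^[a] X), derivative_comp, eval_mul,
      eval_comp, eval_iter, map_mul] at e2
    rw [map_sub, map_one, sub_eq_zero]
    exact mul_left_cancel₀ (h1 a) (e2.symm.trans (mul_one _).symm)

end Alg

/-- the unit ball -/
def UB (F : Type) [NormedField F] [IsUltrametricDist F] : Subring F where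
  carrier := {x | ‖x‖ ≤ 1}
  mul_mem' ha hb := (norm_mul _ _).trans_le (mul_le_one₀ ha (norm_nonneg _) hb)
  one_mem' := norm_one.le
  add_mem' ha hb := (IsUltrametricDist.norm_add_le_max _ _).trans (max_le ha hb)
  zero_mem' := norm_zero.trans_le zero_le_one
  neg_mem' ha := (norm_neg _).trans_le ha

variable {F : Type} [NormedField F] [IsUltrametricDist F]

theorem dvd_of_le {a b : UB F} (h : ‖(a : F)‖ ≤ ‖(b : F)‖) : b ∣ a := by
  by_cases hb : (b : F) = 0
  · rw [hb, norm_zero, norm_le_zero_iff] at h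
    rw [show a = 0 from Subtype.ext h]
    exact dvd_zero _
  · exact ⟨⟨a / b, (norm_div _ _).trans_le (div_le_one_of_le₀ h (norm_nonneg _))⟩,
      Subtype.ext (mul_div_cancel₀ _ hb).symm⟩

theorem common {a b : UB F} (ha : ‖(a : F)‖ < 1) (hb : ‖(b : F)‖ < 1) :
    ∃ v : UB F, ‖(v : F)‖ < 1 ∧ v ∣ a ∧ v ∣ b := by
  rcases le_total ‖(a : F)‖ ‖(b : F)‖ with h | h
  · exact ⟨b, hb, dvd_of_le h, dvd_rfl⟩
  · exact ⟨a, ha, dvd_rfl, dvd_of_le h⟩

end ONE

open ONE in
theorem one : RingStmt → OneStmt := by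
  intro _ R k F _ _ _ _ _ _ p ι ρ hp hp1 hι hρ f α hf
  obtain ⟨n1, h1⟩ := eventually_atTop.1 hf
  obtain ⟨a, P, hP, e1, e2⟩ := period ρ f (it f n1 α) fun n => by
    rw [← it_add]
    exact h1 _ (Nat.le_add_left _ _)
  rw [← it_add] at e1 e2
  let φ : R →+* UB F := ι.codRestrict (UB F) hι
  obtain ⟨w, w1, w2, w3⟩ := common (a := φ _) (b := φ _) (hρ _ e1) (hρ _ e2)
  obtain ⟨v, v1, v2, v3⟩ := common (a := w) (b := p) w1 (by simpa using hp1)
  obtain ⟨c, h, hc⟩ := conj ((f.comp^[P] X).map φ) (x := φ (it f (a + n1) α)) (v := v)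
    (by rw [eval_map_apply, ← map_sub]; exact v2.trans w2)
    (by rw [derivative_map, eval_map_apply, ← map_one φ, ← map_sub]; exact v2.trans w3)
  obtain ⟨j, hj⟩ := exists_pow_lt_of_lt_one (show 0 < ‖(p : F)‖ ^ 2 from
    pow_pos (norm_pos_iff.2 (Nat.cast_ne_zero.2 hp.ne_zero)) 2) v1
  obtain ⟨h', N, hN, e⟩ := iter hp.pos v3 c h j
  have h2 : ∀ m, φ (it f (P * m + (a + n1)) α) =
      φ (it f (a + n1) α) + v * it (X + (C c + C v * h)) m 0 := fun m => by
    induction m with
    | zero => simp [it]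
    | succ m ih =>
      rw [it_succ, ← hc, ← ih, eval_map_apply, eval_iter, ← it_add]
      congr 2
      ring
  refine ⟨a + n1, P * N, Nat.mul_pos hP hN, fun b hb => ⟨1, fun m n => ?_⟩⟩
  obtain ⟨r, rfl⟩ := Nat.exists_eq_add_of_le' hb
  have h3 : (fun m => ι (it f (r + (a + n1) + P * N * m) α)) = fun m => (UB F).subtype
      ((((f.comp^[r] X).map φ).comp (C (φ (it f (a + n1) α)) + C v * X)).eval
        (it (X + C (v ^ (j + 1)) * h') m 0)) := by
    ext m
    rw [eval_comp, eval_add, eval_mul, eval_C, eval_C, eval_X, ← it_mul e, ← h2, eval_map_apply,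
      eval_iter, ← it_add]
    exact congrArg (fun s => ι (it f s α)) (by ring)
  rw [h3, one_mul]
  refine (diff_le (UB F).subtype (fun y => y.2) _ _ _ _ _ _).trans
    (pow_le_pow_left₀ (norm_nonneg _) (le_trans ?_ hj.le) _)
  rw [map_pow, norm_pow]
  exact pow_le_pow_of_le_one (norm_nonneg _) v1.le j.le_succ

end Pool.Agent.MP_be2dd8_ag.H53D
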