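import Pool.Agent.MP_be2dd8_ag.H53D.Spec

set_option autoImplicit false

/-!
A Frobenius lift that fixes no approximate root of high order.
-/

namespace Pool.Agent.MP_be2dd8_ag.H53D

open Polynomial Finset

namespace RAM

variable {w : AbsoluteValue Om ℝ}

/-- congruence modulo the maximal ideal -/
def Cg (w : AbsoluteValue Om ℝ) (x y : Om) : Prop := w (x - y) < 1

theorem Cg.refl (x : Om) : Cg w x x := by simp [Cg]

theorem Cg.symm {x y : Om} (h : Cg w x y) : Cg w y x := by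
  unfold Cg at h ⊢
  rwa [w.map_sub]

theorem Cg.trans (hw : IsNonarchimedean w) {x y z : Om} (h : Cg w x y) (h' : Cg w y z) :
    Cg w x z := by
  have h1 := hw (x - y) (y - z)
  rw [sub_add_sub_cancel] at h1
  exact h1.trans_lt (max_lt h h')

theorem Cg.le_one (hw : IsNonarchimedean w) {x y : Om} (h : Cg w x y) (hy : w y ≤ 1) :
    w x ≤ 1 := by
  have h1 := hw (x - y) y
  rw [sub_add_cancel] at h1
  exact h1.trans (max_le (le_of_lt h) hy)

theorem Cg.unit (hw : IsNonarchimedean w) {x y : Om} (h : Cg w x y) (hy : w y = 1) :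
    w x = 1 := by
  have h1 := hw.add_eq_right_of_lt (x := x - y) (y := y) (hy ▸ h)
  rwa [sub_add_cancel, hy] at h1

theorem Cg.mul_left {x y c : Om} (h : Cg w x y) (hc : w c ≤ 1) : Cg w (c * x) (c * y) := by
  unfold Cg at h ⊢
  rw [← mul_sub, map_mul]
  exact (mul_le_of_le_one_left (w.nonneg _) hc).trans_lt h

theorem Cg.cancel {x y c : Om} (h : Cg w (c * x) (c * y)) (hc : w c = 1) : Cg w x y := by
  unfold Cg at h ⊢
  rwa [← mul_sub, map_mul, hc, one_mul] at h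

theorem Cg.pow (hw : IsNonarchimedean w) {x y : Om} (h : Cg w x y) (hy : w y ≤ 1) (k : ℕ) :
    Cg w (x ^ k) (y ^ k) := by
  induction k with
  | zero => simpa using Cg.refl 1
  | succ k ih =>
    have h1 := ih.mul_left (h.le_one hw hy)
    have h2 := h.mul_left (c := y ^ k) (by rw [map_pow]; exact pow_le_one₀ (w.nonneg _) hy)
    rw [mul_comm (y ^ k) x] at h2
    rw [pow_succ', pow_succ]
    exact h1.trans hw h2

theorem sum_lt (hw : IsNonarchimedean w) (s : Finset ℕ) (f : ℕ → Om) (h : ∀ i ∈ s, w (f i) < 1) :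
    w (∑ i ∈ s, f i) < 1 := by
  induction s using Finset.induction_on with
  | empty => simp
  | insert a s ha ih =>
    rw [sum_insert ha]
    exact (hw _ _).trans_lt (max_lt (h a (mem_insert_self a s))
      (ih fun i hi => h i (mem_insert_of_mem hi)))

theorem nat_unit (hw : IsNonarchimedean w) {p n : ℕ} (hp : w p < 1) (h : n.Coprime p) :
    1 ≤ w n := by
  obtain ⟨a, b, e⟩ := Nat.isCoprime_iff_coprime.2 h
  have e' : (a : Om) * n + b * p = 1 := by exact_mod_cast congrArg (Int.cast : ℤ → Om) e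
  have h1 := hw ((a : Om) * n) (b * p)
  rw [e', map_one, map_mul, map_mul] at h1
  have h2 := mul_le_of_le_one_left (w.nonneg n) (hw.apply_intCast_le_one (n := a))
  have h3 := mul_le_of_le_one_left (w.nonneg p) (hw.apply_intCast_le_one (n := b))
  rcases le_max_iff.1 h1 with h4 | h4 <;> linarith

theorem root_unit {n : ℕ} (hn : 0 < n) {ξ : Om} (h : ξ ^ n = 1) : w ξ = 1 := by
  have h1 := congrArg w h
  rw [map_pow, map_one] at h1
  exact (pow_eq_one_iff_of_nonneg (w.nonneg _) hn.ne').1 h1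

theorem root_one (hw : IsNonarchimedean w) {n : ℕ} (hn : 1 ≤ w n) {ξ : Om} (h : ξ ^ n = 1)
    (h1 : Cg w ξ 1) : ξ = 1 := by
  by_contra c
  have h2 : ∑ i ∈ range n, ξ ^ i = 0 := by
    have h3 := mul_geom_sum ξ n
    rw [h, sub_self] at h3
    exact (mul_eq_zero.1 h3).resolve_left (sub_ne_zero.2 c)
  have h3 := sum_lt hw (range n) (fun i => 1 - ξ ^ i) fun i _ => by
    have h4 := (h1.pow hw (by simp) i).symm
    rwa [one_pow] at h4
  rw [sum_sub_distrib, h2, sum_const, card_range, nsmul_eq_mul, mul_one, sub_zero] at h3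
  linarith

theorem root_eq (hw : IsNonarchimedean w) {n : ℕ} (h0 : 0 < n) (hn : 1 ≤ w n) {ξ ζ : Om}
    (h : ξ ^ n = 1) (h' : ζ ^ n = 1) (h1 : Cg w ξ ζ) : ξ = ζ := by
  have z0 : ζ ≠ 0 := fun c => by
    rw [c, zero_pow h0.ne'] at h'
    exact zero_ne_one h'
  have h2 := h1.mul_left (c := ζ⁻¹) (by rw [map_inv₀, root_unit h0 h', inv_one])
  rw [inv_mul_cancel₀ z0] at h2
  have h3 := root_one hw hn (by rw [mul_pow, inv_pow, h, h', inv_one, one_mul]) h2
  rw [← one_mul ζ, ← h3, mul_comm, ← mul_assoc, mul_inv_cancel₀ z0, one_mul]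

theorem good (hw : IsNonarchimedean w) {n : ℕ} (h0 : 0 < n) (hn : 1 ≤ w n) {I : Type} [Fintype I]
    (m : I → ℕ) (c : I → Om) (hm : ∀ i, 0 < m i) (hs : ∑ i, m i < n) :
    ∃ ζ : Om, ζ ^ n = 1 ∧ ∀ i, ¬Cg w (ζ ^ m i) (c i) := by
  classical
  have hd : ∀ i, ∃ d : Om, ∀ ζ : Om, ζ ^ n = 1 → Cg w (ζ ^ m i) (c i) → ζ ^ m i = d := by
    intro i
    by_cases h : ∃ ξ : Om, ξ ^ n = 1 ∧ Cg w (ξ ^ m i) (c i)
    · obtain ⟨ξ, h1, h2⟩ := h
      exact ⟨ξ ^ m i, fun ζ h3 h4 => root_eq hw h0 hn (by rw [pow_right_comm, h3, one_pow])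
        (by rw [pow_right_comm, h1, one_pow]) (h4.trans hw h2.symm)⟩
    · exact ⟨0, fun ζ h3 h4 => (h ⟨ζ, h3, h4⟩).elim⟩
  choose d hd using hd
  have : NeZero n := ⟨h0.ne'⟩
  obtain ⟨ξ, hξ⟩ := HasEnoughRootsOfUnity.exists_primitiveRoot Om n
  have h1 : (univ.biUnion fun i => (nthRoots (m i) (d i)).toFinset).card <
      (nthRootsFinset n (1 : Om)).card := by
    rw [hξ.card_nthRootsFinset]
    exact (card_biUnion_le.trans (sum_le_sum fun i _ =>
      (Multiset.toFinset_card_le _).trans (card_nthRoots _ _))).trans_lt hs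
  obtain ⟨ζ, h2, h3⟩ := exists_mem_notMem_of_card_lt_card h1
  have h4 := (mem_nthRootsFinset h0 _).1 h2
  exact ⟨ζ, h4, fun i h5 => h3 (mem_biUnion.2 ⟨i, mem_univ i,
    Multiset.mem_toFinset.2 ((mem_nthRoots (hm i)).2 (hd i ζ h4 h5))⟩)⟩

theorem tot (hw : IsNonarchimedean w) (L : IntermediateField ℚ Om) {π v : Om} {n q : ℕ}
    (hn : 0 < n) (hπ : π ∈ L) (h0 : π ≠ 0) (h1 : w π < 1) (hv : v ^ n = π)
    (hb : ∀ x ∈ L, x ≠ 0 → ∃ b : ℤ, w x = w π ^ b) (hq : ∀ x ∈ L, w x ≤ 1 → Cg w (x ^ q) x)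
    (P : L[X]) (hx : w (aeval v P) ≤ 1) : Cg w (aeval v P ^ q) (aeval v P) := by
  have hm : (X ^ n - C (⟨π, hπ⟩ : L)).Monic := monic_X_pow_sub_C _ hn.ne'
  have hd : (P %ₘ (X ^ n - C (⟨π, hπ⟩ : L))).natDegree < n := by
    have h2 := natDegree_modByMonic_lt P hm fun c => by
      have h3 := congrArg natDegree c
      rw [natDegree_X_pow_sub_C, natDegree_one] at h3
      omega
    rwa [natDegree_X_pow_sub_C] at h2
  have he : aeval v (P %ₘ (X ^ n - C (⟨π, hπ⟩ : L))) = aeval v P :=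
    aeval_modByMonic_eq_self_of_root (by simp [hv])
  rw [← he, aeval_eq_sum_range' hd] at hx ⊢
  generalize P %ₘ (X ^ n - C (⟨π, hπ⟩ : L)) = R at hx ⊢
  set t : ℕ → Om := fun i => R.coeff i • v ^ i with ht
  have e0 : ∀ i, t i = (R.coeff i : Om) * v ^ i := fun i => rfl
  have hρ : w v ^ n = w π := by rw [← map_pow, hv]
  have v0 : 0 < w v := w.pos fun c => h0 (by rw [← hv, c, zero_pow hn.ne'])
  have v1 : w v ≠ 1 := fun c => by
    rw [c, one_pow] at hρ
    linarith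
  have hval : ∀ i, t i ≠ 0 → ∃ b : ℤ, w (t i) = w v ^ ((i : ℤ) + n * b) := fun i hi => by
    rw [e0] at hi ⊢
    obtain ⟨b, h2⟩ := hb _ (R.coeff i).2 (left_ne_zero_of_mul hi)
    exact ⟨b, by rw [map_mul, h2, map_pow, ← hρ, zpow_add₀ v0.ne', zpow_mul, zpow_natCast,
      zpow_natCast, mul_comm]⟩
  have hinj : ∀ i ∈ range n, ∀ j ∈ range n, ∀ b b' : ℤ,
      w v ^ ((i : ℤ) + n * b) = w v ^ ((j : ℤ) + n * b') → i = j := fun i hi j hj b b' h => by
    have h2 : ((i : ℤ) + n * b) % n = ((j : ℤ) + n * b') % n :=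
      congrArg (· % (n : ℤ)) (zpow_right_injective₀ v0 v1 h)
    rw [Int.add_mul_emod_self_left, Int.add_mul_emod_self_left,
      Int.emod_eq_of_lt (by omega) (by exact_mod_cast mem_range.1 hi),
      Int.emod_eq_of_lt (by omega) (by exact_mod_cast mem_range.1 hj)] at h2
    exact_mod_cast h2
  have hle : ∀ i ∈ range n, w (t i) ≤ 1 := by
    obtain ⟨k, hk, hmax⟩ := exists_max_image (range n) (fun i => w (t i)) ⟨0, mem_range.2 hn⟩
    refine fun i hi => (hmax i hi).trans ?_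
    by_cases c : t k = 0
    · rw [c, map_zero]
      exact zero_le_one
    · rw [← hw.apply_sum_eq_of_lt (fun a => (w.map_neg a).symm) hk fun j hj hjk =>
        lt_of_le_of_ne (hmax j hj) fun e => ?_]
      · exact hx
      · obtain ⟨b, h2⟩ := hval k c
        obtain ⟨b', h3⟩ := hval j fun c' => c (by rwa [c', map_zero, eq_comm, w.eq_zero] at e)
        exact hjk (hinj j hj k hk b' b (by rw [← h2, ← h3, e]))
  have hc : Cg w (∑ i ∈ range n, t i) (t 0) := by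
    unfold Cg
    rw [← add_sum_erase _ _ (mem_range.2 hn), add_sub_cancel_left]
    refine sum_lt hw _ _ fun i hi => lt_of_le_of_ne (hle i (mem_of_mem_erase hi)) fun e => ?_
    obtain ⟨b, h2⟩ := hval i fun c => by simp [c] at e
    exact (mem_erase.1 hi).1 (hinj i (mem_of_mem_erase hi) 0 (mem_range.2 hn) b 0
      (by rw [← h2, e]; simp))
  have h2 := hle 0 (mem_range.2 hn)
  have h3 : t 0 ∈ L := by
    rw [e0, pow_zero, mul_one]
    exact (R.coeff 0).2
  exact ((hc.pow hw h2 q).trans hw (hq _ h3 h2)).trans hw hc.symm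

/-- `σ` lifts the `q`-th power map -/
def Fr (w : AbsoluteValue Om ℝ) (σ : Om ≃ₐ[ℚ] Om) (q : ℕ) : Prop :=
  ∀ x, w x ≤ 1 → Cg w (σ x) (x ^ q)

theorem Fr.mul (hw : IsNonarchimedean w) {σ τ : Om ≃ₐ[ℚ] Om} {q r : ℕ} (h : Fr w σ q)
    (h' : Fr w τ r) : Fr w (σ * τ) (r * q) := fun x hx => by
  have h1 : w (x ^ r) ≤ 1 := by
    rw [map_pow]
    exact pow_le_one₀ (w.nonneg _) hx
  rw [pow_mul]
  exact (h _ ((h' x hx).le_one hw h1)).trans hw ((h' x hx).pow hw h1 q)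

theorem Fr.pow (hw : IsNonarchimedean w) {σ : Om ≃ₐ[ℚ] Om} {q : ℕ} (h : Fr w σ q) (k : ℕ) :
    Fr w (σ ^ k) (q ^ k) := by
  induction k with
  | zero => exact fun x _ => by simpa using Cg.refl x
  | succ k ih =>
    rw [pow_succ', pow_succ]
    exact h.mul hw ih

theorem fix_pow {σ : Om ≃ₐ[ℚ] Om} {x : Om} (h : σ x = x) (k : ℕ) : (σ ^ k) x = x := by
  induction k with
  | zero => rfl
  | succ k ih => rw [pow_succ, AlgEquiv.mul_apply, h, ih]

theorem lift (hF : FrobStmt) {p : ℕ} (hp : p.Prime) (hw : IsNonarchimedean w) (hp1 : w p < 1)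
    (L : IntermediateField ℚ Om) [FiniteDimensional ℚ L] {π v : Om} {n a : ℕ}
    (hn : 0 < n) (hπ : π ∈ L) (h0 : π ≠ 0) (h1 : w π < 1) (hv : v ^ n = π)
    (hb : ∀ x ∈ L, x ≠ 0 → ∃ b : ℤ, w x = w π ^ b)
    (hq : ∀ x ∈ L, w x ≤ 1 → Cg w (x ^ p ^ a) x) :
    ∃ σ : Om ≃ₐ[ℚ] Om, (∀ x ∈ L, σ x = x) ∧ σ v = v ∧ Fr w σ (p ^ a) := by
  have ha : IsAlgebraic L v := ((AlgebraicClosure.isAlgebraic ℚ).isAlgebraic v).tower_top L
  have f1 := IntermediateField.adjoin.finiteDimensional ha.isIntegral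
  have f2 : FiniteDimensional ℚ (IntermediateField.adjoin L {v}) := Module.Finite.trans L _
  have f3 : FiniteDimensional ℚ ((IntermediateField.adjoin L {v}).restrictScalars ℚ) := f2
  obtain ⟨σ, h2, h3⟩ := hF p w hp hw hp1 ((IntermediateField.adjoin L {v}).restrictScalars ℚ) a
    fun x hx hx1 => by
      have h4 : x ∈ (IntermediateField.adjoin L {v}).toSubalgebra := hx
      rw [IntermediateField.adjoin_simple_toSubalgebra_of_isAlgebraic ha] at h4
      obtain ⟨P, rfl⟩ := Algebra.adjoin_mem_exists_aeval _ _ h4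
      exact tot hw L hn hπ h0 h1 hv hb hq P hx1
  exact ⟨σ, fun x hx => h2 x ((IntermediateField.adjoin L {v}).algebraMap_mem ⟨x, hx⟩),
    h2 v (IntermediateField.mem_adjoin_simple_self L v), h3⟩

theorem bad (hw : IsNonarchimedean w) {σ : Om ≃ₐ[ℚ] Om} {D e a b n : ℕ} (hD : 0 < D)
    (hσ : Fr w σ (D * e + 1)) {π v ξ η U y : Om} (h0 : π ≠ 0) (hv : v ^ n = π)
    (hab : a * D = n * b) (hξ : ξ * σ v = v) (hη : w η = w π ^ b) (hU : w U = 1) (hy : σ y = y)
    (v0 : v ≠ 0) (h : w (η - U * y ^ D) < w η) : Cg w (ξ ^ a) ((η / (U * π ^ b)) ^ e) := by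
  have p0 := w.pos h0
  have U0 : U ≠ 0 := fun c => by simp [c] at hU
  have s0 : σ v ≠ 0 := fun c => v0 (by rw [← hξ, c, mul_zero])
  have k1 : w (η / (U * π ^ b)) = 1 := by
    rw [map_div₀, map_mul, map_pow, hU, hη, one_mul, div_self (by positivity)]
  have h1 : Cg w ((y / v ^ a) ^ D) (η / (U * π ^ b)) := by
    refine Cg.symm ?_
    unfold Cg
    rw [div_pow, ← pow_mul, hab, pow_mul, hv, show η / (U * π ^ b) - y ^ D / π ^ b =
      (η - U * y ^ D) / (U * π ^ b) by field_simp, map_div₀, map_mul, map_pow, hU, one_mul,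
      div_lt_one (by positivity), ← hη]
    exact h
  have t1 : w (y / v ^ a) = 1 := by
    have h2 := h1.unit hw k1
    rw [map_pow] at h2
    exact (pow_eq_one_iff_of_nonneg (w.nonneg _) hD.ne').1 h2
  have h2 := hσ _ t1.le
  have e1 : σ (y / v ^ a) = y / v ^ a * ξ ^ a := by
    rw [map_div₀, map_pow, hy]
    conv_rhs => rw [← hξ]
    have x0 : ξ ≠ 0 := fun c => v0 (by rw [← hξ, c, zero_mul])
    rw [mul_pow]
    field_simp
  rw [e1, pow_succ', pow_mul] at h2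
  exact (h2.cancel t1).trans hw (h1.pow hw k1.le e)

end RAM

open RAM in
theorem ram : DiscStmt → FrobStmt → RamStmt := by
  intro hD hF p w hp hw hp1 L _ I _ η u δ hη hu hδ
  obtain ⟨π, a, hπ, ha, h0, h1, hb, hq⟩ := hD p w hp hw hp1 L
  have p0 := w.pos h0
  have hb' : ∀ i, ∃ b : ℕ, 0 < b ∧ w (η i) = w π ^ b := fun i => by
    obtain ⟨b, h2⟩ := hb _ (hη i).1 (hη i).2.1
    have h3 : 0 < b := by
      by_contra c
      have h4 := one_le_zpow_of_nonpos₀ p0 h1.le (not_lt.1 c)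
      linarith [(hη i).2.2]
    lift b to ℕ using h3.le
    exact ⟨b, by exact_mod_cast h3, by rw [h2, zpow_natCast]⟩
  choose b b0 hb' using hb'
  obtain ⟨r, hr⟩ : ∃ r, p ^ a = r + 1 := ⟨p ^ a - 1, by
    have := Nat.one_lt_pow ha.ne' hp.one_lt
    omega⟩
  have r0 : 0 < r := by
    have := Nat.one_lt_pow ha.ne' hp.one_lt
    omega
  set s := ∑ i, r * b i with hs
  set n := (∏ i, δ i) ^ s with hn
  have n0 : 0 < n := pow_pos (prod_pos fun i _ => by linarith [(hδ i).1]) _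
  have nc : n.Coprime p := (Nat.Coprime.prod_left fun i _ => (hδ i).2).pow_left _
  have n1 := nat_unit hw hp1 nc
  have hc : ∀ i, ∃ c, n = δ i ^ s * c := fun i =>
    pow_dvd_pow_of_dvd (dvd_prod_of_mem δ (mem_univ i)) s
  choose c hc using hc
  have c0 : ∀ i, 0 < c i := fun i => Nat.pos_of_ne_zero fun e => by
    rw [hc i, e, mul_zero] at n0
    exact lt_irrefl _ n0
  obtain ⟨j, hj⟩ : ∃ j, n.totient = j + 1 := ⟨n.totient - 1, by
    have := Nat.totient_pos.2 n0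
    omega⟩
  have Q1 : 1 < (p ^ a) ^ (j + 1) := Nat.one_lt_pow (by omega) (by omega)
  obtain ⟨e, he⟩ : n ∣ (p ^ a) ^ (j + 1) - 1 :=
    (Nat.modEq_iff_dvd' Q1.le).1 (hj ▸ Nat.ModEq.pow_totient (nc.symm.pow_left a)).symm
  have hsum : ∑ i, r * (b i * c i) < n := by
    refine lt_of_mul_lt_mul_left (a := 2 ^ s) ?_ (Nat.zero_le _)
    calc 2 ^ s * ∑ i, r * (b i * c i) ≤ s * n := by
          rw [mul_sum]
          conv_rhs => rw [hs, sum_mul]
          refine sum_le_sum fun i _ => ?_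
          calc 2 ^ s * (r * (b i * c i)) ≤ δ i ^ s * (r * (b i * c i)) :=
                Nat.mul_le_mul_right _ (Nat.pow_le_pow_left (hδ i).1 s)
            _ = r * b i * (δ i ^ s * c i) := by ring
            _ = _ := by rw [← hc i]
      _ < 2 ^ s * n := Nat.mul_lt_mul_of_pos_right Nat.lt_two_pow_self n0
  obtain ⟨ζ, z1, z2⟩ := good hw n0 n1 (fun i => r * (b i * c i))
    (fun i => (η i / (u i ^ (∑ t ∈ range s, δ i ^ t) * π ^ b i)) ^ (c i * e))
    (fun i => Nat.mul_pos r0 (Nat.mul_pos (b0 i) (c0 i))) hsum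
  obtain ⟨v, hv⟩ := IsAlgClosed.exists_pow_nat_eq π n0
  have v0 : v ≠ 0 := fun c => h0 (by rw [← hv, c, zero_pow n0.ne'])
  obtain ⟨σ, s1, s2, s3⟩ := lift hF hp hw hp1 L (v := ζ * v) n0 hπ h0 h1
    (by rw [mul_pow, z1, hv, one_mul]) hb hq
  obtain ⟨τ, t1, t2, t3⟩ := lift hF hp hw hp1 L n0 hπ h0 h1 hv hb hq
  have hF' : Fr w (σ * τ ^ j) ((p ^ a) ^ (j + 1)) := s3.mul hw (t3.pow hw j)
  have z0 : ζ ≠ 0 := fun c => by
    rw [c, zero_pow n0.ne'] at z1
    exact zero_ne_one z1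
  have z3 : σ ζ = ζ ^ p ^ a := root_eq hw n0 n1 (by rw [← map_pow, z1, map_one])
    (by rw [pow_right_comm, z1, one_pow]) (s3 ζ (root_unit n0 z1).le)
  have z4 : ζ ^ r * (σ * τ ^ j) v = v := by
    rw [map_mul, z3, hr, pow_succ', mul_assoc] at s2
    rw [AlgEquiv.mul_apply, fix_pow t2]
    exact mul_left_cancel₀ z0 s2
  refine ⟨σ * τ ^ j, s, _, Q1, fun x hx => ?_, hF', fun i y hy => not_lt.1 fun h => z2 i ?_⟩
  · rw [AlgEquiv.mul_apply, fix_pow (t1 x hx), s1 x hx]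
  · have e1 : (p ^ a) ^ (j + 1) = δ i ^ s * (c i * e) + 1 := by
      rw [← mul_assoc, ← hc i, ← he]
      omega
    rw [pow_mul]
    exact bad hw (pow_pos (by linarith [(hδ i).1]) s) (e1 ▸ hF') h0 hv
      (by rw [hc i]; ring) z4 (hb' i) (by rw [map_pow, (hu i).2, one_pow]) hy v0 h

end Pool.Agent.MP_be2dd8_ag.H53D
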