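import Pool.Agent.MP_be2dd8_ag.H53D.Spec

set_option autoImplicit false

/-! A specialisation at which the orbits still avoid the critical points. -/

namespace Pool.Agent.MP_be2dd8_ag.H53D

open Polynomial Filter

namespace SPEC

variable {R : Type} [CommRing R]

lemma it_add (f : R[X]) (m n : ℕ) (x : R) : it f (m + n) x = it f m (it f n x) :=
  Function.iterate_add_apply _ m n x

lemma it_succ (f : R[X]) (n : ℕ) (x : R) : it f (n + 1) x = it f n (f.eval x) :=
  Function.iterate_succ_apply _ n x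

lemma it_dvd (f : R[X]) (n : ℕ) (x y : R) : x - y ∣ it f n x - it f n y := by
  induction n generalizing x y with
  | zero => exact dvd_rfl
  | succ n ih => rw [it_succ, it_succ]; exact (sub_dvd_eval_sub x y f).trans (ih _ _)

/-- a bounded multiplicative ultrametric seminorm -/
structure Val (v : R → ℝ) : Prop where
  nonneg : ∀ x, 0 ≤ v x
  mul : ∀ x y, v (x * y) = v x * v y
  add : ∀ x y, v (x + y) ≤ max (v x) (v y)
  neg : ∀ x, v (-x) = v x
  one : v 1 = 1
  le : ∀ x, v x ≤ 1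

variable {v : R → ℝ}

lemma Val.dvd (h : Val v) {a b : R} (hab : a ∣ b) : v b ≤ v a := by
  obtain ⟨c, rfl⟩ := hab
  rw [h.mul]
  exact mul_le_of_le_one_right (h.nonneg a) (h.le c)

lemma Val.symm (h : Val v) (x y : R) : v (x - y) = v (y - x) := by rw [← h.neg, neg_sub]

lemma Val.tri (h : Val v) {x y z : R} {t : ℝ} (h1 : v (x - y) ≤ t) (h2 : v (y - z) ≤ t) :
    v (x - z) ≤ t := by
  rw [← sub_add_sub_cancel x y z]
  exact (h.add _ _).trans (max_le h1 h2)

lemma Val.pow (h : Val v) (x : R) (e : ℕ) : v (x ^ e) = v x ^ e := by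
  induction e with
  | zero => simpa using h.one
  | succ e ih => rw [pow_succ, pow_succ, h.mul, ih]

lemma Val.lip (h : Val v) (f : R[X]) (n : ℕ) (x y : R) : v (it f n x - it f n y) ≤ v (x - y) :=
  h.dvd (it_dvd f n x y)

lemma Val.contr (h : Val v) {f : R[X]} {c x y : R} {η : ℝ} (hc : f.derivative.eval c = 0)
    (hx : v (x - c) ≤ η) (hy : v (y - c) ≤ η) {P : ℕ} (hP : 0 < P) :
    v (it f P x - it f P y) ≤ η * v (x - y) := by
  obtain ⟨P, rfl⟩ := Nat.exists_eq_succ_of_ne_zero hP.ne'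
  rw [it_succ, it_succ]
  refine (h.lip f P _ _).trans ?_
  obtain ⟨k, hk⟩ := f.binomExpansion y (x - y)
  have e : f.eval x - f.eval y = (f.derivative.eval y + k * (x - y)) * (x - y) := by
    rw [add_sub_cancel] at hk
    rw [hk]; ring
  rw [e, h.mul]
  refine mul_le_mul_of_nonneg_right ((h.add _ _).trans (max_le ?_ ?_)) (h.nonneg _)
  · have := h.dvd (sub_dvd_eval_sub y c f.derivative)
    rw [hc, sub_zero] at this
    exact this.trans hy
  · exact (h.dvd (dvd_mul_left _ _)).trans (h.tri hx (by rwa [h.symm]))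

lemma Val.case1 (h : Val v) {f : R[X]} {c x : R} {η : ℝ} (hc : f.derivative.eval c = 0)
    (hη : η < 1) {P m : ℕ} (hP : 0 < P) (hm : 0 < m) (h1 : v (x - c) = 0)
    (h2 : v (it f m x - c) = 0) (h3 : v (it f P x - x) ≤ η) : v (it f P c - c) = 0 := by
  have h0 : 0 ≤ η := (h.nonneg _).trans h3
  have a1 : v (it f m c - c) ≤ 0 :=
    h.tri ((h.lip f m c x).trans (by rw [h.symm, h1])) h2.le
  have a2 : ∀ t, v (it f (m * t) c - c) ≤ 0 := by
    intro t
    induction t with
    | zero =>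
      have : v (c - c) ≤ 0 := h.tri (y := x) (by rw [h.symm, h1]) h1.le
      simpa [it] using this
    | succ t ih => rw [Nat.mul_succ, add_comm, it_add]; exact h.tri ((h.lip f m _ c).trans ih) a1
  have a3 : v (it f P c - c) ≤ η :=
    h.tri (((h.lip f P c x).trans (by rw [h.symm, h1])).trans h0) (h.tri h3 (h1.le.trans h0))
  have a4 : ∀ k, v (it f (P * k) c - c) ≤ η := by
    intro k
    induction k with
    | zero => simpa using (a2 0).trans h0
    | succ k ih => rw [Nat.mul_succ, add_comm, it_add]; exact h.tri ((h.lip f P _ c).trans ih) a3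
  have a5 : ∀ k, v (it f (P * (k + 1 + 1)) c - it f (P * (k + 1)) c) ≤ η * v (it f P c - c) := by
    intro k
    have e : ∀ k, it f (P * (k + 1)) c = it f P (it f (P * k) c) := fun k => by
      rw [Nat.mul_succ, add_comm, it_add]
    rw [e (k + 1), e k, ← e k]
    conv_lhs => rw [e k]
    rw [← e k]
    refine le_trans (by
      have := h.contr hc (a4 (k + 1)) (a4 k) hP
      rwa [← e k] at this) (mul_le_mul_of_nonneg_left ?_ h0)
    rw [Nat.mul_succ, it_add]
    exact h.lip f _ _ _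
  obtain ⟨m, rfl⟩ := Nat.exists_eq_succ_of_ne_zero hm.ne'
  have b0 : 0 ≤ η * v (it f P c - c) := mul_nonneg h0 (h.nonneg _)
  have b1 : v (it f (P * (m + 1)) c - c) ≤ 0 := by rw [mul_comm]; exact a2 P
  have b2 : v (it f P c - it f (P * (m + 1 + 1)) c) ≤ 0 := by
    rw [h.symm, Nat.mul_succ P (m + 1), add_comm, it_add]
    exact (h.lip f P _ _).trans b1
  have b3 := h.tri (b2.trans b0) (h.tri (a5 m) (b1.trans b0))
  have b4 := h.nonneg (it f P c - c)
  nlinarith

lemma Val.case2 (h : Val v) {f : R[X]} {c x a : R} {η : ℝ} (hc : f.derivative.eval c = 0)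
    (hη : η < 1) {P e k1 : ℕ} (hP : 0 < P) (hper : it f P c = c)
    (hex : ∀ z, ∃ g, it f P z - c = (z - c) ^ e * (a + (z - c) * g)) (hk : η ^ k1 < v a)
    (hx : v (x - c) ≤ η) (hne : ∀ k ≤ k1, v (it f (P * k) x - c) ≠ 0) (k : ℕ) :
    v (it f (P * k) x - c) ≠ 0 := by
  have h0 : 0 ≤ η := (h.nonneg _).trans hx
  have e1 : ∀ k, it f (P * (k + 1)) x = it f P (it f (P * k) x) := fun k => by
    rw [Nat.mul_succ, add_comm, it_add]
  have a1 : ∀ k, v (it f (P * k) x - c) ≤ η ^ (k + 1) := by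
    intro k
    induction k with
    | zero => simpa [it] using hx
    | succ k ih =>
      have b1 : v (it f (P * k) x - c) ≤ η :=
        ih.trans (by simpa using pow_le_pow_of_le_one h0 hη.le (Nat.le_add_left 1 k))
      have b2 : v (c - c) ≤ η := h.tri (y := x) (by rwa [h.symm]) hx
      have := h.contr hc b1 b2 hP
      rw [hper, ← e1] at this
      rw [pow_succ']
      exact this.trans (mul_le_mul_of_nonneg_left ih h0)
  induction k with
  | zero => exact hne 0 (Nat.zero_le _)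
  | succ k ih =>
    rcases le_or_gt (k + 1) k1 with c1 | c1
    · exact hne _ c1
    obtain ⟨g, hg⟩ := hex (it f (P * k) x)
    rw [e1, hg, h.mul, h.pow]
    refine mul_ne_zero (pow_ne_zero _ ih) fun h2 => ?_
    have b1 : v ((it f (P * k) x - c) * g) < v a :=
      ((h.dvd (dvd_mul_right _ g)).trans ((a1 k).trans
        (pow_le_pow_of_le_one h0 hη.le (by omega)))).trans_lt hk
    have b2 := h.add (a + (it f (P * k) x - c) * g) (-((it f (P * k) x - c) * g))
    rw [add_neg_cancel_right, h.neg, h2, max_eq_right (h.nonneg _)] at b2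
    exact absurd b1 (not_lt.2 b2)

lemma expand (f : R[X]) (P : ℕ) {c x : R} (hx : it f P x ≠ c) :
    ∃ (a : R) (e : ℕ), a ≠ 0 ∧ ∀ z, ∃ g, it f P z - c = (z - c) ^ e * (a + (z - c) * g) := by
  have ev : ∀ z, (f.comp^[P] X - C c).eval z = it f P z - c := fun z => by
    rw [eval_sub, eval_C, iterate_comp_eval, eval_X]; rfl
  have hG : f.comp^[P] X - C c ≠ 0 := fun h0 => hx (by
    have := ev x
    rw [h0, eval_zero] at this
    exact sub_eq_zero.1 this.symm)
  obtain ⟨q, h1, h2⟩ := exists_eq_pow_rootMultiplicity_mul_and_not_dvd _ hG c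
  refine ⟨q.eval c, rootMultiplicity c (f.comp^[P] X - C c),
    fun h0 => h2 (dvd_iff_isRoot.2 h0), fun z => ?_⟩
  obtain ⟨g, hg⟩ := sub_dvd_eval_sub z c q
  refine ⟨g, ?_⟩
  rw [← ev, ← hg]
  conv_lhs => rw [h1]
  simp

lemma per (I : Ideal R) [Finite (R ⧸ I)] {J : Type} [Fintype J] (f : J → R[X]) (α : J → R) :
    ∃ n0 P : ℕ, 0 < P ∧ ∀ j n k, n0 ≤ n → it (f j) (P * k + n) (α j) - it (f j) n (α j) ∈ I := by
  have key : ∃ a b : ℕ, a < b ∧ ∀ j, it (f j) b (α j) - it (f j) a (α j) ∈ I := by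
    obtain ⟨a, b, hab, h⟩ := Finite.exists_ne_map_eq_of_infinite
      fun (n : ℕ) (j : J) => Ideal.Quotient.mk I (it (f j) n (α j))
    rcases lt_or_gt_of_ne hab with c | c
    · exact ⟨a, b, c, fun j => Ideal.Quotient.eq.1 (congrFun h j).symm⟩
    · exact ⟨b, a, c, fun j => Ideal.Quotient.eq.1 (congrFun h j)⟩
  obtain ⟨a, b, hab, h⟩ := key
  obtain ⟨P, rfl⟩ := Nat.exists_eq_add_of_le hab.le
  refine ⟨a, P, by omega, fun j n k hn => ?_⟩
  obtain ⟨t, rfl⟩ := Nat.exists_eq_add_of_le hn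
  induction k with
  | zero => simp
  | succ k ih =>
    have e1 : P * (k + 1) + (a + t) = (P * k + t) + (a + P) := by ring
    have e2 : P * k + (a + t) = (P * k + t) + a := by ring
    have := I.mem_of_dvd (it_dvd (f j) (P * k + t) _ _) (h j)
    rw [← it_add, ← it_add, ← e1, ← e2] at this
    simpa using I.add_mem this ih

lemma fam [IsDomain R] (h : Fam R) : ∃ (I : Ideal R) (η : ℝ), η < 1 ∧ Finite (R ⧸ I) ∧
    ∀ (ι : Type) [Fintype ι] (a : ι → R), (∀ i, a i ≠ 0) → ∃ ε : ℝ, 0 < ε ∧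
      ∀ (κ : Type) [Fintype κ] (b : κ → R), (∀ i, b i ≠ 0) → ∃ (s : R →+* Om) (v : R → ℝ),
        Val v ∧ (∀ y, v y = 0 ↔ s y = 0) ∧ (∀ y ∈ I, v y ≤ η) ∧ (∀ i, ε ≤ v (a i)) ∧
          ∀ i, v (b i) ≠ 0 := by
  obtain ⟨w, I, η, hw, hη, hI, H⟩ := h
  refine ⟨I, η, hη, hI, fun ι _ a ha => ?_⟩
  obtain ⟨ε, hε, H⟩ := H (∏ i, a i) (Finset.prod_ne_zero_iff.2 fun i _ => ha i)
  refine ⟨ε, hε, fun κ _ b hb => ?_⟩
  obtain ⟨s, h1, h2, h3, h4⟩ := H (∏ i, b i) (Finset.prod_ne_zero_iff.2 fun i _ => hb i)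
  have hv : Val fun y => w (s y) :=
    ⟨fun _ => w.nonneg _, fun x y => by rw [map_mul, map_mul],
      fun x y => by rw [map_add]; exact hw _ _, fun x => by rw [map_neg, w.map_neg],
      by rw [map_one, map_one], h1⟩
  refine ⟨s, _, hv, fun y => w.eq_zero, h2,
    fun i => h3.trans (hv.dvd (Finset.dvd_prod_of_mem a (Finset.mem_univ i))), fun i h0 => h4 ?_⟩
  rw [map_prod]
  exact Finset.prod_eq_zero (Finset.mem_univ i) (w.eq_zero.1 h0)

end SPEC

open SPEC in
theorem spec : SpecStmt := by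
  classical
  intro R _ _ hF J _ f α hf hα
  choose u cs hu hd using hf
  obtain ⟨I, η, hη, hI, H⟩ := fam hF
  obtain ⟨n0, P, hP, hper⟩ := per I f α
  have ev : ∀ j z, (f j).derivative.eval z = u j * ((cs j).map fun c => z - c).prod := by
    intro j z
    rw [hd j, eval_mul, eval_C, eval_multiset_prod, Multiset.map_map]
    simp
  have crit : ∀ j, ∀ c ∈ cs j, (f j).derivative.eval c = 0 := by
    intro j c hc
    rw [ev, Multiset.prod_eq_zero (Multiset.mem_map.2 ⟨c, hc, sub_self c⟩), mul_zero]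
  have never : ∀ j, ∀ c ∈ cs j, it (f j) P c = c → ∀ n, it (f j) n (α j) ≠ c := by
    intro j c hc hp n hn
    obtain ⟨N, hN⟩ := eventually_atTop.1 (hα j)
    have : ∀ k, it (f j) (P * k + n) (α j) = c := by
      intro k
      induction k with
      | zero => simpa using hn
      | succ k ih => rw [Nat.mul_succ, add_comm (P * k), add_assoc, it_add, ih, hp]
    refine hN (P * N + n) (le_add_right (Nat.le_mul_of_pos_left N hP)) ?_
    rw [this, crit j c hc]
  have hex : ∀ i : Σ j, (cs j).toFinset, ∃ (a : R) (e : ℕ), a ≠ 0 ∧ (it (f i.1) P i.2 = i.2 →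
      ∀ z, ∃ g, it (f i.1) P z - i.2 = (z - i.2) ^ e * (a + (z - i.2) * g)) := by
    rintro ⟨j, c, hc⟩
    by_cases hp : it (f j) P c = c
    · obtain ⟨a, e, h1, h2⟩ := expand (f j) P (never j c (Multiset.mem_toFinset.1 hc) hp P)
      exact ⟨a, e, h1, fun _ => h2⟩
    · exact ⟨1, 0, one_ne_zero, fun h => absurd h hp⟩
  choose a e ha hae using hex
  obtain ⟨ε, hε, H⟩ := H _ a ha
  obtain ⟨k1, hk1⟩ := exists_pow_lt_of_lt_one hε hη
  obtain ⟨s, v, hv, h0, hI', h3, h4⟩ := H ((Σ j, (cs j).toFinset) × Fin (P * k1 + (n0 + P)))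
    (fun i => if it (f i.1.1) P i.1.2 = i.1.2 then it (f i.1.1) i.2 (α i.1.1) - i.1.2
      else it (f i.1.1) P i.1.2 - i.1.2) (by
      rintro ⟨⟨j, c, hc⟩, n⟩
      dsimp only
      split_ifs with hp
      · exact sub_ne_zero.2 (never j c (Multiset.mem_toFinset.1 hc) hp n)
      · exact sub_ne_zero.2 hp)
  refine ⟨s, fun j => ?_⟩
  have main : ∀ c ∈ (cs j).toFinset, ∀ᶠ n in atTop, v (it (f j) n (α j) - c) ≠ 0 := by
    intro c hc
    have hc' := crit j c (Multiset.mem_toFinset.1 hc)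
    by_cases hp : it (f j) P c = c
    · refine eventually_atTop.2 ⟨n0, fun n hn hz => ?_⟩
      obtain ⟨t, rfl⟩ := Nat.exists_eq_add_of_le hn
      have e1 : n0 + t = P * (t / P) + (n0 + t % P) := by
        have := Nat.div_add_mod t P
        omega
      have hlt := Nat.mod_lt t hP
      rw [e1] at hz
      refine hv.case2 hc' hη hP hp (hae ⟨j, c, hc⟩ hp) (hk1.trans_le (h3 ⟨j, c, hc⟩))
        (x := it (f j) (n0 + t % P) (α j)) ?_ (fun k hk => ?_) (t / P) (by rwa [← it_add])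
      · have b1 := hI' _ (hper j (n0 + t % P) (t / P) (Nat.le_add_right _ _))
        exact hv.tri (by rwa [hv.symm]) (hz.le.trans ((hv.nonneg _).trans b1))
      · have b1 : P * k + (n0 + t % P) < P * k1 + (n0 + P) := by
          have := Nat.mul_le_mul_left P hk
          omega
        have := h4 ⟨⟨j, c, hc⟩, ⟨_, b1⟩⟩
        simp only [hp, if_true] at this
        rwa [← it_add]
    · by_contra hn
      rw [not_eventually] at hn
      simp only [not_not] at hn
      obtain ⟨n, h5, h6⟩ := frequently_atTop.1 hn n0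
      obtain ⟨n', h7, h8⟩ := frequently_atTop.1 hn (n + 1)
      obtain ⟨m, rfl⟩ := Nat.exists_eq_add_of_le' (show n ≤ n' by omega)
      have b1 := hI' _ (hper j n 1 h5)
      rw [mul_one, it_add] at b1
      rw [it_add] at h8
      have := h4 ⟨⟨j, c, hc⟩, ⟨0, by omega⟩⟩
      simp only [hp, if_false] at this
      exact this (hv.case1 hc' hη hP (by omega) h6 h8 b1)
  filter_upwards [(eventually_all_finset _).2 main] with n hn hz
  rw [ev, map_mul, mul_eq_zero, map_multiset_prod, Multiset.prod_eq_zero_iff] at hz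
  rcases hz with hz | hz
  · exact ((hu j).map s).ne_zero hz
  · obtain ⟨y, h5, h6⟩ := Multiset.mem_map.1 hz
    obtain ⟨c, h7, rfl⟩ := Multiset.mem_map.1 h5
    exact hn c (Multiset.mem_toFinset.2 h7) ((h0 _).2 h6)

end Pool.Agent.MP_be2dd8_ag.H53D
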