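import Pool.Agent.MP_be2dd8_ag.H53D.Spec

set_option autoImplicit false

/-! A residue field on which an automorphism of the algebraic numbers acts. -/

namespace Pool.Agent.MP_be2dd8_ag.H53D

open NumberField

namespace STAB

theorem exists_loc {A F : Type} [CommRing A] [Field F] (j : A →+* F) (hj : Function.Injective j)
    (Q : Ideal A) [hQ : Q.IsMaximal] : ∃ (O : Subring F) (ρ : O →+* A ⧸ Q),
      (∀ x, x ∈ O ↔ ∃ a b, b ∉ Q ∧ x * j b = j a) ∧
      ∀ (x : O) (a b : A), b ∉ Q → x * j b = j a → (ρ x = 0 ↔ a ∈ Q) := by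
  let _ := Ideal.Quotient.field Q
  have h0 : ∀ b : A, b ∉ Q → j b ≠ 0 := fun b hb h => hb (by
    rw [hj (h.trans (map_zero j).symm)]
    exact Q.zero_mem)
  have h1 : ∀ b : Q.primeCompl, IsUnit (j b) := fun b => (h0 b b.2).isUnit
  have h2 : ∀ b : Q.primeCompl, IsUnit (Ideal.Quotient.mk Q b) := fun b =>
    IsUnit.mk0 _ fun h => b.2 (Ideal.Quotient.eq_zero_iff_mem.1 h)
  let φ : Localization.AtPrime Q →+* F := IsLocalization.lift h1
  let ψ : Localization.AtPrime Q →+* A ⧸ Q := IsLocalization.lift h2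
  have hφ : Function.Injective φ := by
    rw [injective_iff_map_eq_zero]
    intro z hz
    obtain ⟨⟨a, b⟩, rfl⟩ := IsLocalization.mk'_surjective Q.primeCompl z
    have h3 := (IsLocalization.lift_mk'_spec h1 a 0 b).1 hz
    rw [mul_zero] at h3
    simp only [hj (h3.trans (map_zero j).symm), IsLocalization.mk'_zero]
  have hm : ∀ (x : F) (a : A) (b : Q.primeCompl), x * j b = j a →
      φ (IsLocalization.mk' _ a b) = x := fun x a b h =>
    (IsLocalization.lift_mk'_spec h1 a x b).2 (by rw [← h, mul_comm])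
  let e : Localization.AtPrime Q ≃+* φ.range := RingEquiv.ofBijective φ.rangeRestrict
    ⟨fun x y h => hφ (congrArg Subtype.val h), φ.rangeRestrict_surjective⟩
  refine ⟨φ.range, ψ.comp e.symm.toRingHom, fun x => ⟨?_, ?_⟩, fun x a b hb h => ?_⟩
  · rintro ⟨z, rfl⟩
    obtain ⟨⟨a, b⟩, rfl⟩ := IsLocalization.mk'_surjective Q.primeCompl z
    exact ⟨a, b, b.2, by rw [mul_comm]; exact ((IsLocalization.lift_mk'_spec h1 a _ b).1 rfl).symm⟩
  · rintro ⟨a, b, hb, h⟩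
    exact ⟨_, hm x a ⟨b, hb⟩ h⟩
  · have h4 : e.symm x = IsLocalization.mk' _ a (⟨b, hb⟩ : Q.primeCompl) :=
      e.symm_apply_eq.2 (Subtype.ext (hm x a ⟨b, hb⟩ h).symm)
    change ψ (e.symm x) = 0 ↔ _
    rw [h4]
    refine (IsLocalization.lift_mk'_spec h2 a 0 ⟨b, hb⟩).trans ?_
    rw [mul_zero, Ideal.Quotient.eq_zero_iff_mem]

theorem finite_above {M : Type} [Field M] [NumberField M] {c : 𝓞 M} (hc : c ≠ 0) :
    {Q : Ideal (𝓞 M) | c ∈ Q}.Finite := by
  have h0 : Ideal.span {c} ≠ 0 := fun h => hc (Ideal.span_singleton_eq_bot.1 h)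
  have := UniqueFactorizationMonoid.fintypeSubtypeDvd (Ideal.span {c}) h0
  have h1 : {Q : Ideal (𝓞 M) | Q ∣ Ideal.span {c}}.Finite := Finite.of_fintype {Q // Q ∣ _}
  exact h1.subset fun Q hQ => Ideal.dvd_span_singleton.2 hQ

end STAB

open STAB in
theorem stab : DensStmt → StabStmt := by
  classical
  intro hD σ E
  have : Algebra.IsAlgebraic ℚ Om := AlgebraicClosure.isAlgebraic ℚ
  have : IsAlgClosure ℚ Om := ⟨inferInstance, inferInstance⟩
  let M : IntermediateField ℚ Om :=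
    IntermediateField.normalClosure ℚ (IntermediateField.adjoin ℚ (E : Set Om)) Om
  have hfin : FiniteDimensional ℚ (IntermediateField.adjoin ℚ (E : Set Om)) :=
    IntermediateField.finiteDimensional_adjoin fun x _ => Algebra.IsIntegral.isIntegral x
  have : FiniteDimensional ℚ M := normalClosure.is_finiteDimensional ℚ _ Om
  have : Normal ℚ M := normalClosure.normal ℚ _ Om
  have : NumberField M := {}
  have hE : ∀ e ∈ E, e ∈ M := fun e he =>
    IntermediateField.le_normalClosure _ (IntermediateField.subset_adjoin ℚ _ he)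
  let j : 𝓞 M →+* Om := (algebraMap M Om).comp (algebraMap (𝓞 M) M)
  have hj : Function.Injective j :=
    (algebraMap M Om).injective.comp (RingOfIntegers.coe_injective (K := M))
  have hfr : ∀ x : Om, x ∈ M → ∃ b : 𝓞 M, b ≠ 0 ∧ ∃ a, x * j b = j a := fun x hx => by
    obtain ⟨a, b, hb, h⟩ := IsFractionRing.div_surjective (𝓞 M) (⟨x, hx⟩ : M)
    have hb0 := nonZeroDivisors.ne_zero hb
    refine ⟨b, hb0, a, ?_⟩
    have h1 : (⟨x, hx⟩ : M) * algebraMap (𝓞 M) M b = algebraMap (𝓞 M) M a := by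
      rw [← h, div_mul_cancel₀ _ (RingOfIntegers.coe_ne_zero_iff.2 hb0)]
    exact (map_mul (algebraMap M Om) ⟨x, hx⟩ _).symm.trans (congrArg (algebraMap M Om) h1)
  choose! b hb hb' using hfr
  have hc : ∏ e ∈ E, b e * b e⁻¹ ≠ 0 := Finset.prod_ne_zero_iff.2 fun e he =>
    mul_ne_zero (hb e (hE e he)) (hb _ (M.inv_mem (hE e he)))
  obtain ⟨Q, ⟨hQ, hs⟩, hcQ⟩ := ((hD M (σ.restrictNormal M)).sdiff (finite_above hc)).nonempty
  let τ : 𝓞 M →+* 𝓞 M := RingOfIntegers.mapRingHom (σ.restrictNormal M : M →+* M)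
  have hτ : ∀ a, j (τ a) = σ (j a) := fun a => σ.restrictNormal_commutes M a
  have hle : Q ≤ Q.comap τ := fun a ha => hs a (τ a) rfl ha
  have heq : Q = Q.comap τ := hQ.eq_of_le (Ideal.comap_ne_top τ hQ.ne_top) hle
  obtain ⟨O, ρ, h1, h2⟩ := exists_loc j hj Q
  have hQ0 : Q ≠ ⊥ := Ring.ne_bot_of_isMaximal_of_not_isField hQ (RingOfIntegers.not_isField M)
  refine ⟨O, 𝓞 M ⧸ Q, Ideal.Quotient.field Q, Ideal.finiteQuotientOfFreeOfNeBot Q hQ0, ρ,
    fun e he => ?_, fun x => ?_⟩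
  · obtain ⟨d, hd⟩ := Finset.dvd_prod_of_mem (fun e => b e * b e⁻¹) he
    obtain ⟨a, ha⟩ := hb' e (hE e he)
    obtain ⟨a', ha'⟩ := hb' _ (M.inv_mem (hE e he))
    refine ⟨(h1 _).2 ⟨a, b e, fun h => hcQ ?_, ha⟩, (h1 _).2 ⟨a', b e⁻¹, fun h => hcQ ?_, ha'⟩⟩
    · rw [Set.mem_ofPred_eq, hd]
      exact Q.mul_mem_right _ (Q.mul_mem_right _ h)
    · rw [Set.mem_ofPred_eq, hd]
      exact Q.mul_mem_right _ (Q.mul_mem_left _ h)
  · obtain ⟨a, d, hd, h⟩ := (h1 x).1 x.2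
    have h3 : τ d ∉ Q := fun h0 => hd (heq ▸ Ideal.mem_comap.2 h0)
    have h4 : σ x * j (τ d) = j (τ a) := by rw [hτ, hτ, ← map_mul, h]
    refine ⟨(h1 _).2 ⟨τ a, τ d, h3, h4⟩, fun h0 => ?_⟩
    exact (h2 _ (τ a) (τ d) h3 h4).2 (hle ((h2 x a d hd h).1 h0))

end Pool.Agent.MP_be2dd8_ag.H53D
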