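import Pool.Agent.MP_be2dd8_ag.H53D.Spec

set_option autoImplicit false

/-!
Non-archimedean absolute values on the algebraic numbers: a prime at which finitely many given
numbers are units, and discreteness and finiteness of the residue field on a number field.
-/

namespace Pool.Agent.MP_be2dd8_ag.H53D

open Polynomial Filter NumberField IsDedekindDomain

namespace UD

section General

variable {K : Type*} [Field K]

/-- the valuation ring of a non-archimedean absolute value -/
def ring (u : AbsoluteValue K ℝ) (hu : IsNonarchimedean u) : ValuationSubring K where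
  carrier := {x | u x ≤ 1}
  mul_mem' := by
    intro a b ha hb
    have ha' : u a ≤ 1 := ha
    have hb' : u b ≤ 1 := hb
    change u (a * b) ≤ 1
    rw [map_mul]
    exact mul_le_one₀ ha' (u.nonneg b) hb'
  one_mem' := by
    change u 1 ≤ 1
    simp
  add_mem' := by
    intro a b ha hb
    exact (hu a b).trans (max_le ha hb)
  zero_mem' := by
    change u 0 ≤ 1
    simp
  neg_mem' := by
    intro a ha
    change u (-a) ≤ 1
    rw [u.map_neg]
    exact ha
  mem_or_inv_mem' := by
    intro x
    rcases le_total (u x) 1 with h | h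
    · exact Or.inl h
    · refine Or.inr ?_
      change u x⁻¹ ≤ 1
      rw [map_inv₀]
      exact inv_le_one_of_one_le₀ h

theorem mem_ring (u : AbsoluteValue K ℝ) (hu : IsNonarchimedean u) (x : K) :
    x ∈ ring u hu ↔ u x ≤ 1 := Iff.rfl

/-- elements integral over the integers have absolute value at most one -/
theorem le_one_of_isIntegral (u : AbsoluteValue K ℝ) (hu : IsNonarchimedean u) {x : K}
    (hx : IsIntegral ℤ x) : u x ≤ 1 := by
  have h1 : IsIntegral (ring u hu) x := hx.tower_top
  obtain ⟨y, rfl⟩ := IsIntegrallyClosed.isIntegral_iff.mp h1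
  exact y.2

theorem sub_le (u : AbsoluteValue K ℝ) (hu : IsNonarchimedean u) (x y : K) :
    u (x - y) ≤ max (u x) (u y) := by
  have := hu x (-y)
  rwa [u.map_neg, ← sub_eq_add_neg] at this

/-- integers prime to `p` are units when `p` is small -/
theorem eq_one_of_not_dvd (u : AbsoluteValue K ℝ) (hu : IsNonarchimedean u) {p : ℕ}
    (hp : p.Prime) (hup : u p < 1) {D : ℤ} (hD : ¬ (p : ℤ) ∣ D) : u D = 1 := by
  have hpi : Prime (p : ℤ) := Nat.prime_iff_prime_int.mp hp
  obtain ⟨a, b, hab⟩ : IsCoprime (p : ℤ) D := (hpi.irreducible.coprime_iff_not_dvd).mpr hD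
  have hint : ∀ n : ℤ, u n ≤ 1 := fun n => hu.apply_intCast_le_one
  refine le_antisymm (hint D) ?_
  by_contra hlt
  push Not at hlt
  have h1 : ((a : K) * p + b * D) = 1 := by exact_mod_cast congrArg (Int.cast : ℤ → K) hab
  have h2 := hu ((a : K) * p) (b * D)
  rw [h1, map_one, map_mul, map_mul] at h2
  have h3 : u a * u p < 1 := mul_lt_one_of_nonneg_of_lt_one_right (hint a) (u.nonneg _) hup
  have h4 : u b * u D < 1 := mul_lt_one_of_nonneg_of_lt_one_right (hint b) (u.nonneg _) hlt
  exact absurd h2 (not_le.mpr (max_lt h3 h4))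

end General

section NF

variable {K : Type*} [Field K] [NumberField K]

omit [NumberField K] in
theorem le_one (u : AbsoluteValue K ℝ) (hu : IsNonarchimedean u) (x : 𝓞 K) :
    u (algebraMap (𝓞 K) K x) ≤ 1 :=
  le_one_of_isIntegral u hu x.isIntegral_coe

/-- the prime of the ring of integers below a non-archimedean absolute value -/
def pr (u : AbsoluteValue K ℝ) (hu : IsNonarchimedean u) {p : ℕ} (hp : p.Prime)
    (hup : u p < 1) : HeightOneSpectrum (𝓞 K) where
  asIdeal :=
    { carrier := {x | u (algebraMap (𝓞 K) K x) < 1}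
      add_mem' := by
        intro a b ha hb
        change u (algebraMap (𝓞 K) K (a + b)) < 1
        rw [map_add]
        exact (hu _ _).trans_lt (max_lt ha hb)
      zero_mem' := by
        change u (algebraMap (𝓞 K) K 0) < 1
        simp
      smul_mem' := by
        intro c a ha
        change u (algebraMap (𝓞 K) K (c * a)) < 1
        rw [map_mul, map_mul]
        exact mul_lt_one_of_nonneg_of_lt_one_right (le_one u hu c) (u.nonneg _) ha }
  isPrime := by
    refine ⟨?_, ?_⟩
    · rw [Ideal.ne_top_iff_one]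
      change ¬ u (algebraMap (𝓞 K) K 1) < 1
      simp
    · intro a b hab
      by_contra hne
      push Not at hne
      obtain ⟨ha, hb⟩ := hne
      have ha' : 1 ≤ u (algebraMap (𝓞 K) K a) := not_lt.mp ha
      have hb' : 1 ≤ u (algebraMap (𝓞 K) K b) := not_lt.mp hb
      have hab' : u (algebraMap (𝓞 K) K (a * b)) < 1 := hab
      rw [map_mul, map_mul] at hab'
      exact absurd hab' (not_lt.mpr (one_le_mul_of_one_le_of_one_le ha' hb'))
  ne_bot := by
    intro h
    have h1 : ((p : ℕ) : 𝓞 K) ∈ (⊥ : Ideal (𝓞 K)) := by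
      rw [← h]
      change u (algebraMap (𝓞 K) K (p : ℕ)) < 1
      rwa [map_natCast]
    rw [Ideal.mem_bot] at h1
    exact hp.ne_zero (by exact_mod_cast h1)

variable (u : AbsoluteValue K ℝ) (hu : IsNonarchimedean u) {p : ℕ} (hp : p.Prime)
  (hup : u p < 1)

theorem mem_pr (x : 𝓞 K) : x ∈ (pr u hu hp hup).asIdeal ↔ u (algebraMap (𝓞 K) K x) < 1 := Iff.rfl

theorem eq_one_of_primeCompl (d : (pr u hu hp hup).asIdeal.primeCompl) :
    u (algebraMap (𝓞 K) K d) = 1 :=
  le_antisymm (le_one u hu _) (not_lt.mp d.2)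

include hu hp hup in
/-- an element of the valuation ring is a quotient of integers with unit denominator -/
theorem exists_frac (x : K) (hx : u x ≤ 1) :
    ∃ n d : 𝓞 K, u (algebraMap (𝓞 K) K d) = 1 ∧
      x * algebraMap (𝓞 K) K d = algebraMap (𝓞 K) K n := by
  obtain ⟨n, d, h | h⟩ := (pr u hu hp hup).exists_primeCompl_mul_eq_or_mul_eq x
  · exact ⟨n, d, eq_one_of_primeCompl u hu hp hup d, h⟩
  · refine ⟨d, n, ?_, h⟩
    have h1 := congrArg u h
    rw [map_mul, eq_one_of_primeCompl u hu hp hup d] at h1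
    refine le_antisymm (le_one u hu n) ?_
    by_contra hlt
    push Not at hlt
    exact absurd h1 (mul_lt_one_of_nonneg_of_lt_one_right hx (u.nonneg _) hlt).ne

theorem le_one_of_val (x : K) (hx : (pr u hu hp hup).valuation K x ≤ 1) : u x ≤ 1 := by
  obtain ⟨n, d, h⟩ := (pr u hu hp hup).exists_primeCompl_mul_eq_of_integer x hx
  have h1 := congrArg u h
  rw [map_mul, eq_one_of_primeCompl u hu hp hup d, mul_one] at h1
  rw [h1]
  exact le_one u hu n

theorem eq_one_of_val (x : K) (hx : (pr u hu hp hup).valuation K x = 1) : u x = 1 := by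
  have hx0 : x ≠ 0 := by
    rintro rfl
    simp at hx
  have h1 := le_one_of_val u hu hp hup x hx.le
  have h2 := le_one_of_val u hu hp hup x⁻¹ (by rw [map_inv₀, hx, inv_one])
  rw [map_inv₀] at h2
  exact le_antisymm h1 ((inv_le_one₀ (u.pos hx0)).mp h2)

include hu hp hup in
/-- the value group is cyclic -/
theorem exists_unif : ∃ π : K, π ≠ 0 ∧ u π < 1 ∧ ∀ x : K, x ≠ 0 → ∃ b : ℤ, u x = u π ^ b := by
  obtain ⟨π, hπ⟩ := (pr u hu hp hup).valuation_exists_uniformizer' K
  change (pr u hu hp hup).valuation K (algebraMap (𝓞 K) K π) = _ at hπ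
  have hπ0 : algebraMap (𝓞 K) K π ≠ 0 := by
    intro h
    rw [h, map_zero] at hπ
    exact WithZero.exp_ne_zero hπ.symm
  refine ⟨algebraMap (𝓞 K) K π, hπ0, ?_, ?_⟩
  · rw [← mem_pr u hu hp hup, ← HeightOneSpectrum.valuation_lt_one_iff_mem (K := K)]
    change (pr u hu hp hup).valuation K (algebraMap (𝓞 K) K π) < 1
    rw [hπ, ← WithZero.exp_zero, WithZero.exp_lt_exp]
    norm_num
  · intro x hx
    have hv : (pr u hu hp hup).valuation K x ≠ 0 := (Valuation.ne_zero_iff _).mpr hx
    set m : ℤ := WithZero.log ((pr u hu hp hup).valuation K x) with hm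
    have h1 : (pr u hu hp hup).valuation K (x * (algebraMap (𝓞 K) K π) ^ m) = 1 := by
      rw [map_mul, map_zpow₀, hπ, ← WithZero.exp_log hv, ← hm, ← WithZero.exp_zsmul,
        ← WithZero.exp_add]
      simp
    have h2 := eq_one_of_val u hu hp hup _ h1
    rw [map_mul, map_zpow₀] at h2
    refine ⟨-m, ?_⟩
    rw [zpow_neg]
    exact eq_inv_of_mul_eq_one_left h2

include hu hp hup in
/-- the residue field is finite of characteristic `p` -/
theorem exists_frob : ∃ a : ℕ, 0 < a ∧ ∀ x : K, u x ≤ 1 → u (x ^ p ^ a - x) < 1 := by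
  classical
  set Q := (pr u hu hp hup).asIdeal with hQ
  have : Q.IsMaximal := (pr u hu hp hup).isMaximal
  have : Finite (𝓞 K ⧸ Q) := Q.finiteQuotientOfFreeOfNeBot (pr u hu hp hup).ne_bot
  let : Field (𝓞 K ⧸ Q) := Ideal.Quotient.field Q
  let : Fintype (𝓞 K ⧸ Q) := Fintype.ofFinite _
  have : CharP (𝓞 K ⧸ Q) p := by
    rw [CharP.charP_iff_prime_eq_zero hp, ← map_natCast (Ideal.Quotient.mk Q),
      Ideal.Quotient.eq_zero_iff_mem]
    change u (algebraMap (𝓞 K) K (p : ℕ)) < 1
    rwa [map_natCast]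
  obtain ⟨a, -, ha⟩ := FiniteField.card (𝓞 K ⧸ Q) p
  have key : ∀ n : 𝓞 K, u (algebraMap (𝓞 K) K n ^ p ^ (a : ℕ) - algebraMap (𝓞 K) K n) < 1 := by
    intro n
    have h1 : n ^ p ^ (a : ℕ) - n ∈ Q := by
      rw [← Ideal.Quotient.eq_zero_iff_mem, map_sub, map_pow, ← ha, FiniteField.pow_card, sub_self]
    have h2 : u (algebraMap (𝓞 K) K (n ^ p ^ (a : ℕ) - n)) < 1 := h1
    rwa [map_sub, map_pow] at h2
  refine ⟨a, a.2, fun x hx => ?_⟩
  obtain ⟨n, d, hd, h⟩ := exists_frac u hu hp hup x hx
  have hn := key n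
  have hd' := key d
  set N := algebraMap (𝓞 K) K n
  set D := algebraMap (𝓞 K) K d
  set q := p ^ (a : ℕ)
  have h1 : (x ^ q - x) * D ^ q = (N ^ q - N) - x * (D ^ q - D) := by
    rw [← h, mul_pow]
    ring
  have h2 := congrArg u h1
  rw [map_mul, map_pow, hd, one_pow, mul_one] at h2
  rw [h2]
  refine (sub_le u hu _ _).trans_lt (max_lt hn ?_)
  rw [map_mul]
  exact mul_lt_one_of_nonneg_of_lt_one_right hx (u.nonneg _) hd'

end NF

theorem algOm : Algebra.IsAlgebraic ℚ Om := by
  have h := AlgebraicClosure.isAlgebraic ℚ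
  convert h
  · rfl
  · exact Subsingleton.elim _ _

/-- restriction of an absolute value to a subfield -/
noncomputable def res (w : AbsoluteValue Om ℝ) (L : IntermediateField ℚ Om) :
    AbsoluteValue L ℝ :=
  w.comp (algebraMap L Om).injective

theorem res_apply (w : AbsoluteValue Om ℝ) (L : IntermediateField ℚ Om) (x : L) :
    res w L x = w (x : Om) := rfl

theorem res_na (w : AbsoluteValue Om ℝ) (hw : IsNonarchimedean w) (L : IntermediateField ℚ Om) :
    IsNonarchimedean (res w L) := fun x y => hw x y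

theorem res_nat (w : AbsoluteValue Om ℝ) (L : IntermediateField ℚ Om) (p : ℕ) :
    res w L p = w p := by
  rw [res_apply]
  rfl

/-- every algebraic number of absolute value at most one is a quotient of algebraic integers with
unit denominator -/
theorem frac (p : ℕ) (w : AbsoluteValue Om ℝ) (hp : p.Prime) (hw : IsNonarchimedean w)
    (hwp : w p < 1) (x : Om) (hx : w x ≤ 1) :
    ∃ a b : Om, IsIntegral ℤ a ∧ IsIntegral ℤ b ∧ w b = 1 ∧ x * b = a := by
  have hxi : IsIntegral ℚ x := (algOm.isAlgebraic x).isIntegral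
  set L : IntermediateField ℚ Om := IntermediateField.adjoin ℚ {x}
  have : FiniteDimensional ℚ L := IntermediateField.adjoin.finiteDimensional hxi
  have : NumberField L := {}
  have hxL : x ∈ L := IntermediateField.mem_adjoin_simple_self ℚ x
  obtain ⟨n, d, hd, h⟩ := exists_frac (res w L) (res_na w hw L) hp (by rwa [res_nat]) ⟨x, hxL⟩ hx
  refine ⟨(algebraMap (𝓞 L) L n : L), (algebraMap (𝓞 L) L d : L), ?_, ?_, hd, ?_⟩
  · exact n.isIntegral_coe.map (IsScalarTower.toAlgHom ℤ L Om)
  · exact d.isIntegral_coe.map (IsScalarTower.toAlgHom ℤ L Om)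
  · exact congrArg (fun z : L => (z : Om)) h

/-- above every prime there is a non-archimedean absolute value -/
theorem exists_abs (p : ℕ) (hp : p.Prime) :
    ∃ w : AbsoluteValue Om ℝ, IsNonarchimedean w ∧ w p < 1 := by
  have : Fact p.Prime := ⟨hp⟩
  have := algOm
  let φ : Om →ₐ[ℚ] PadicAlgCl p := IsAlgClosed.lift
  refine ⟨NumberField.place (φ : Om →+* PadicAlgCl p), ?_, ?_⟩
  · intro x y
    simp only [NumberField.place_apply, map_add]
    exact PadicAlgCl.isNonarchimedean p _ _
  · rw [NumberField.place_apply, map_natCast, ← map_natCast (algebraMap ℚ_[p] (PadicAlgCl p))]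
    have := PadicAlgCl.norm_extends p (p : ℚ_[p])
    rw [this]
    exact Padic.norm_p_lt_one

end UD

theorem unitS : UnitStmt := by
  classical
  intro E d
  have : Algebra.IsAlgebraic ℤ Om :=
    have := IsLocalization.isAlgebraic ℚ (nonZeroDivisors ℤ)
    have := UD.algOm
    Algebra.IsAlgebraic.trans ℤ ℚ Om
  obtain ⟨D, hD0, hD⟩ :=
    Algebra.IsAlgebraic.exists_integral_multiples ℤ (E ∪ E.image fun e => e⁻¹)
  obtain ⟨p, hpge, hp⟩ := Nat.exists_infinite_primes (max d D.natAbs + 1)
  obtain ⟨w, hw, hwp⟩ := UD.exists_abs p hp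
  refine ⟨p, w, hp, by omega, hw, hwp, fun e he he0 => ?_⟩
  have hwD : w D = 1 := by
    refine UD.eq_one_of_not_dvd w hw hp hwp fun h => ?_
    have h1 : p ∣ D.natAbs := Int.natCast_dvd.mp h
    have h2 := Nat.le_of_dvd (Int.natAbs_pos.mpr hD0) h1
    omega
  have h1 := UD.le_one_of_isIntegral w hw (hD e (Finset.mem_union_left _ he))
  have h2 := UD.le_one_of_isIntegral w hw
    (hD e⁻¹ (Finset.mem_union_right _ (Finset.mem_image_of_mem _ he)))
  rw [zsmul_eq_mul, map_mul, hwD, one_mul] at h1 h2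
  rw [map_inv₀] at h2
  exact le_antisymm h1 ((inv_le_one₀ (w.pos he0)).mp h2)

theorem disc : DiscStmt := by
  intro p w hp hw hwp L _
  have : NumberField L := {}
  have hup : UD.res w L p < 1 := by rwa [UD.res_nat]
  obtain ⟨π, hπ0, hπ1, hπ⟩ := UD.exists_unif (UD.res w L) (UD.res_na w hw L) hp hup
  obtain ⟨a, ha, hfr⟩ := UD.exists_frob (UD.res w L) (UD.res_na w hw L) hp hup
  refine ⟨π, a, π.2, ha, fun h => hπ0 (Subtype.ext h), hπ1, fun x hx hx0 => ?_, fun x hx hx1 => ?_⟩
  · exact hπ ⟨x, hx⟩ fun h => hx0 (congrArg Subtype.val h)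
  · exact hfr ⟨x, hx⟩ hx1

end Pool.Agent.MP_be2dd8_ag.H53D
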