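import Pool.Agent.MP_be2dd8_ag.H53D.Spec

set_option autoImplicit false

/-!
Sequences whose iterated differences decay geometrically: closure properties, and the
finiteness of the zero set.
-/

namespace Pool.Agent.MP_be2dd8_ag.H53D

open Polynomial

namespace ZR

variable {F : Type} [NormedField F]

/-- a bound on all iterated differences, with an offset in the exponent -/
def Bd (r A : ℝ) (c : ℕ) (u : ℕ → F) : Prop :=
  ∀ i n, ‖(fwdDiff 1)^[i] u n‖ ≤ A * r ^ (c + i)

theorem Bd.shift {r A : ℝ} {c : ℕ} {u : ℕ → F} (h : Bd r A c u) (m : ℕ) :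
    Bd r A c fun n => u (n + m) := by
  intro i n
  rw [fwdDiff_iter_comp_add]
  exact h i _

theorem Bd.diff {r A : ℝ} {c : ℕ} {u : ℕ → F} (h : Bd r A c u) :
    Bd r A (c + 1) (fwdDiff 1 u) := by
  intro i n
  have := h (i + 1) n
  rw [Function.iterate_succ_apply] at this
  have e : c + 1 + i = c + (i + 1) := by ring
  rw [e]
  exact this

theorem Bd.add [IsUltrametricDist F] {r A : ℝ} {c : ℕ} {u v : ℕ → F} (hu : Bd r A c u)
    (hv : Bd r A c v) : Bd r A c (u + v) := by
  intro i n
  rw [fwdDiff_iter_add, Pi.add_apply]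
  exact (IsUltrametricDist.norm_add_le_max _ _).trans (max_le (hu i n) (hv i n))

theorem iter_zero (h i : ℕ) : (fwdDiff h)^[i] (fun _ : ℕ => (0 : F)) = fun _ => 0 := by
  induction i with
  | zero => rfl
  | succ i ih => rw [Function.iterate_succ_apply, fwdDiff_const, ih]

theorem mul_bd [IsUltrametricDist F] {r A B : ℝ} (k : ℕ) :
    ∀ (u v : ℕ → F) (a b : ℕ), Bd r A a u → Bd r B b v →
      ∀ n, ‖(fwdDiff 1)^[k] (u * v) n‖ ≤ A * B * r ^ (a + b + k) := by
  induction k with
  | zero =>
    intro u v a b hu hv n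
    have h1 := hu 0 n
    have h2 := hv 0 n
    simp only [Function.iterate_zero, id_eq, add_zero] at h1 h2
    simp only [Function.iterate_zero, id_eq, add_zero, Pi.mul_apply, norm_mul]
    calc ‖u n‖ * ‖v n‖ ≤ (A * r ^ a) * (B * r ^ b) :=
          mul_le_mul h1 h2 (norm_nonneg _) ((norm_nonneg _).trans h1)
      _ = A * B * r ^ (a + b) := by ring
  | succ k ih =>
    intro u v a b hu hv n
    have e : fwdDiff 1 (u * v) = fwdDiff 1 u * (fun n => v (n + 1)) + u * fwdDiff 1 v := by
      funext m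
      simp only [fwdDiff, Pi.mul_apply, Pi.add_apply]
      ring
    rw [Function.iterate_succ_apply, e, fwdDiff_iter_add, Pi.add_apply]
    refine (IsUltrametricDist.norm_add_le_max _ _).trans (max_le ?_ ?_)
    · have := ih _ _ _ _ hu.diff (hv.shift 1) n
      have e1 : a + 1 + b + k = a + b + (k + 1) := by ring
      rwa [e1] at this
    · have := ih _ _ _ _ hu hv.diff n
      have e1 : a + (b + 1) + k = a + b + (k + 1) := by ring
      rwa [e1] at this

theorem Bd.step [IsUltrametricDist F] {r A : ℝ} {c : ℕ} {u : ℕ → F} (h : Bd r A c u) (j : ℕ) :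
    Bd r A (c + 1) (fwdDiff j u) := by
  induction j with
  | zero =>
    have e : fwdDiff 0 u = fun _ => 0 := by
      funext m
      simp [fwdDiff]
    intro i n
    rw [e, iter_zero, norm_zero]
    exact (norm_nonneg _).trans (h.diff i n)
  | succ j ih =>
    have e : fwdDiff (j + 1) u = (fun n => fwdDiff 1 u (n + j)) + fwdDiff j u := by
      funext m
      simp only [fwdDiff, Pi.add_apply, add_assoc]
      ring
    rw [e]
    exact (h.diff.shift j).add ih

theorem Bd.steps [IsUltrametricDist F] {r A : ℝ} (j k : ℕ) :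
    ∀ {c : ℕ} {u : ℕ → F}, Bd r A c u → Bd r A (c + k) ((fwdDiff j)^[k] u) := by
  induction k with
  | zero => intro c u h; exact h
  | succ k ih =>
    intro c u h
    have := ih (h.step j)
    have e : c + 1 + k = c + (k + 1) := by ring
    rw [e] at this
    rw [Function.iterate_succ_apply]
    exact this

theorem iter_prog (a j k : ℕ) :
    ∀ (u : ℕ → F) (n : ℕ),
      (fwdDiff 1)^[k] (fun n => u (a + j * n)) n = (fwdDiff j)^[k] u (a + j * n) := by
  induction k with
  | zero => intro u n; rfl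
  | succ k ih =>
    intro u n
    have e : fwdDiff 1 (fun n => u (a + j * n)) = fun n => fwdDiff j u (a + j * n) := by
      funext m
      simp only [fwdDiff, mul_add, mul_one, add_assoc]
    rw [Function.iterate_succ_apply, Function.iterate_succ_apply, e, ih]

theorem bd_of {r A : ℝ} {x : ℕ → F} (h : ∀ k n, ‖(fwdDiff 1)^[k] x n‖ ≤ A * r ^ k) :
    Bd r A 0 x := by
  intro i n
  rw [zero_add]
  exact h i n

theorem norm_sum_lt [IsUltrametricDist F] {ι : Type} (s : Finset ι) (f : ι → F) {c : ℝ}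
    (hc : 0 < c) (h : ∀ i ∈ s, ‖f i‖ < c) : ‖∑ i ∈ s, f i‖ < c := by
  classical
  induction s using Finset.induction_on with
  | empty => simpa using hc
  | insert a s ha ih =>
    rw [Finset.sum_insert ha]
    refine (IsUltrametricDist.norm_add_le_max _ _).trans_lt (max_lt ?_ ?_)
    · exact h a (Finset.mem_insert_self a s)
    · exact ih fun i hi => h i (Finset.mem_insert_of_mem hi)

theorem one_le_norm [IsUltrametricDist F] {p u : ℕ} (hp : p.Prime) (h1 : ‖(p : F)‖ < 1)
    (hu : ¬ p ∣ u) : 1 ≤ ‖(u : F)‖ := by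
  by_contra hlt
  rw [not_le] at hlt
  have hc : IsCoprime (p : ℤ) (u : ℤ) :=
    Nat.isCoprime_iff_coprime.2 ((Nat.Prime.coprime_iff_not_dvd hp).2 hu)
  obtain ⟨a, b, hab⟩ := hc
  have e : (a : F) * (p : F) + (b : F) * (u : F) = 1 := by
    have := congrArg (Int.cast : ℤ → F) hab
    push_cast at this
    exact this
  have h2 : ‖(a : F) * (p : F)‖ < 1 := by
    rw [norm_mul]
    exact (mul_le_of_le_one_left (norm_nonneg _)
      (IsUltrametricDist.norm_intCast_le_one F a)).trans_lt h1
  have h3 : ‖(b : F) * (u : F)‖ < 1 := by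
    rw [norm_mul]
    exact (mul_le_of_le_one_left (norm_nonneg _)
      (IsUltrametricDist.norm_intCast_le_one F b)).trans_lt hlt
  have h4 := (IsUltrametricDist.norm_add_le_max _ _).trans_lt (max_lt h2 h3)
  rw [e, norm_one] at h4
  exact lt_irrefl _ h4

theorem le_norm_factorial [IsUltrametricDist F] {p : ℕ} (hp : p.Prime) (h1 : ‖(p : F)‖ < 1)
    (k : ℕ) : ‖(p : F)‖ ^ k ≤ ‖(k.factorial : F)‖ := by
  have : Fact p.Prime := ⟨hp⟩
  obtain ⟨e, u, hu, hk⟩ := Nat.exists_eq_pow_mul_and_not_dvd k.factorial_ne_zero p hp.ne_one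
  have he : e ≤ k := by
    have h2 : p ^ e ∣ k.factorial := ⟨u, hk⟩
    have h3 := (padicValNat_dvd_iff_le k.factorial_ne_zero).1 h2
    exact h3.trans (padicValNat_factorial_le p k)
  rw [hk]
  push_cast
  rw [norm_mul, norm_pow]
  calc ‖(p : F)‖ ^ k ≤ ‖(p : F)‖ ^ e := pow_le_pow_of_le_one (norm_nonneg _) h1.le he
    _ ≤ ‖(p : F)‖ ^ e * ‖(u : F)‖ :=
      le_mul_of_one_le_right (pow_nonneg (norm_nonneg _) _) (one_le_norm hp h1 hu)

/-- the Newton series, cut at any index past the argument -/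
theorem newton [CharZero F] (x : ℕ → F) (K n : ℕ) (hn : n ≤ K) :
    (∑ k ∈ Finset.range (K + 1),
      ((fwdDiff 1)^[k] x 0 / (k.factorial : F)) • descPochhammer F k).eval (n : F) = x n := by
  have h := shift_eq_sum_fwdDiff_iter 1 x n 0
  rw [zero_add, smul_eq_mul, mul_one] at h
  rw [h, eval_finsetSum]
  symm
  have hsub : Finset.range (n + 1) ⊆ Finset.range (K + 1) :=
    Finset.range_subset_range.2 (by omega)
  rw [Finset.sum_subset hsub]
  · refine Finset.sum_congr rfl fun k _ => ?_
    have hk : (k.factorial : F) ≠ 0 := Nat.cast_ne_zero.2 k.factorial_ne_zero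
    rw [eval_smul, descPochhammer_eval_eq_descFactorial, Nat.descFactorial_eq_factorial_mul_choose,
      nsmul_eq_mul, smul_eq_mul]
    push_cast
    field_simp
  · intro k _ hk
    rw [Finset.mem_range, not_lt] at hk
    rw [Nat.choose_eq_zero_of_lt (by omega), zero_smul]

/-- a combination of falling factorials with a last dominant coefficient of index `m` has at
most `m` zeros among the natural numbers -/
theorem dominant [IsUltrametricDist F] [CharZero F] (b : ℕ → F) (m K : ℕ) (hmK : m ≤ K)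
    (hm : b m ≠ 0) (hb : ∀ k, m < k → ‖b k‖ < ‖b m‖) (S : Finset ℕ) (hS : S.card = m + 1)
    (hz : ∀ s ∈ S, (∑ k ∈ Finset.range (K + 1), b k • descPochhammer F k).eval (s : F) = 0) :
    False := by
  set G : F[X] := ∑ k ∈ Finset.range (K + 1), b k • descPochhammer F k with hG
  set W : ℤ[X] := ∏ s ∈ S, (X - C (s : ℤ)) with hW
  have hWm : W.Monic := monic_prod_of_monic _ _ fun s _ => monic_X_sub_C _
  have hWd : W.natDegree = m + 1 := by
    rw [hW, natDegree_prod_of_monic _ _ fun s _ => monic_X_sub_C _]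
    simp only [natDegree_X_sub_C, Finset.sum_const, smul_eq_mul, mul_one, hS]
  have hmap : W.map (Int.castRingHom F) = ∏ s ∈ S, (X - C (s : F)) := by
    rw [hW, Polynomial.map_prod]
    refine Finset.prod_congr rfl fun s _ => ?_
    simp
  have hdvd : W.map (Int.castRingHom F) ∣ G := by
    rw [hmap]
    refine Finset.prod_dvd_of_coprime ?_ fun s hs => dvd_iff_isRoot.2 (hz s hs)
    exact (pairwise_coprime_X_sub_C (Nat.cast_injective (R := F))).set_pairwise _
  have h0 : modByMonicHom (W.map (Int.castRingHom F)) G = 0 :=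
    (modByMonic_eq_zero_iff_dvd (hWm.map _)).2 hdvd
  have h1 : ∑ k ∈ Finset.range (K + 1),
      b k * (((descPochhammer ℤ k %ₘ W).coeff m : ℤ) : F) = 0 := by
    have h2 := congrArg (fun q : F[X] => q.coeff m) h0
    rw [hG, map_sum] at h2
    simp only [finsetSum_coeff, coeff_zero] at h2
    rw [← h2]
    refine Finset.sum_congr rfl fun k _ => ?_
    rw [map_smul, coeff_smul, smul_eq_mul, modByMonicHom_apply,
      ← descPochhammer_map (Int.castRingHom F), ← map_modByMonic _ hWm, coeff_map]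
    rfl
  have hself : ∀ k, k ≤ m → descPochhammer ℤ k %ₘ W = descPochhammer ℤ k := by
    intro k hk
    rw [modByMonic_eq_self_iff hWm]
    apply degree_lt_degree
    rw [descPochhammer_natDegree, hWd]
    omega
  have hmem : m ∈ Finset.range (K + 1) := Finset.mem_range.2 (by omega)
  rw [← Finset.add_sum_erase _ _ hmem, hself m le_rfl] at h1
  have hlead : (descPochhammer ℤ m).coeff m = 1 := by
    have := (monic_descPochhammer ℤ m).coeff_natDegree
    rwa [descPochhammer_natDegree] at this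
  rw [hlead, Int.cast_one, mul_one] at h1
  have hpos : 0 < ‖b m‖ := norm_pos_iff.2 hm
  have hlt := norm_sum_lt ((Finset.range (K + 1)).erase m)
    (fun k => b k * (((descPochhammer ℤ k %ₘ W).coeff m : ℤ) : F)) hpos (by
      intro k hk
      rcases lt_or_gt_of_ne (Finset.ne_of_mem_erase hk) with h | h
      · rw [hself k h.le, coeff_eq_zero_of_natDegree_lt (by rwa [descPochhammer_natDegree])]
        simpa using hm
      · rw [norm_mul]
        exact (mul_le_of_le_one_right (norm_nonneg _)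
          (IsUltrametricDist.norm_intCast_le_one F _)).trans_lt (hb k h))
  rw [eq_neg_of_add_eq_zero_right h1, norm_neg] at hlt
  exact lt_irrefl _ hlt

end ZR

theorem ring : RingStmt := by
  intro F _ _ r hr
  refine ⟨fun c => ⟨‖c‖, fun k n => ?_⟩, fun x y hx hy => ?_, fun x a j hx => ?_⟩
  · cases k with
    | zero => simp
    | succ k =>
      rw [Function.iterate_succ_apply, fwdDiff_const, ZR.iter_zero, norm_zero]
      positivity
  · obtain ⟨A, hA⟩ := hx
    obtain ⟨B, hB⟩ := hy
    refine ⟨⟨A + B, fun k n => ?_⟩, ⟨A * B, fun k n => ?_⟩⟩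
    · rw [fwdDiff_iter_add, Pi.add_apply, add_mul]
      exact (norm_add_le _ _).trans (add_le_add (hA k n) (hB k n))
    · have := ZR.mul_bd k x y 0 0 (ZR.bd_of hA) (ZR.bd_of hB) n
      simpa using this
  · obtain ⟨A, hA⟩ := hx
    refine ⟨A, fun k n => ?_⟩
    rw [ZR.iter_prog]
    have := ZR.Bd.steps j k (ZR.bd_of hA) 0 (a + j * n)
    simpa using this

theorem zero : ZeroStmt := by
  intro F _ _ _ p hp h1 x hx hinf
  obtain ⟨A, hA⟩ := hx
  set b : ℕ → F := fun k => (fwdDiff 1)^[k] x 0 / (k.factorial : F) with hb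
  have hp0 : 0 < ‖(p : F)‖ := norm_pos_iff.2 (Nat.cast_ne_zero.2 hp.ne_zero)
  have hbd : ∀ k, ‖b k‖ ≤ A * ‖(p : F)‖ ^ k := by
    intro k
    have hk : 0 < ‖(k.factorial : F)‖ := norm_pos_iff.2 (Nat.cast_ne_zero.2 k.factorial_ne_zero)
    have h2 := hA k 0
    have hA0 : 0 ≤ A := by
      have h3 := (norm_nonneg _).trans (hA 0 0)
      simpa using h3
    rw [hb]
    simp only [norm_div]
    rw [div_le_iff₀ hk]
    calc ‖(fwdDiff 1)^[k] x 0‖ ≤ A * (‖(p : F)‖ ^ 2) ^ k := h2
      _ = A * ‖(p : F)‖ ^ k * ‖(p : F)‖ ^ k := by ring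
      _ ≤ A * ‖(p : F)‖ ^ k * ‖(k.factorial : F)‖ :=
        mul_le_mul_of_nonneg_left (ZR.le_norm_factorial hp h1 k) (by positivity)
  have hall : ∀ k, b k = 0 := by
    by_contra hne
    rw [not_forall] at hne
    obtain ⟨k0, hk0⟩ := hne
    have hpos : 0 < ‖b k0‖ := norm_pos_iff.2 hk0
    have hlim : Filter.Tendsto (fun k => A * ‖(p : F)‖ ^ k) Filter.atTop (nhds 0) := by
      have := (tendsto_pow_atTop_nhds_zero_of_lt_one hp0.le h1).const_mul A
      rwa [mul_zero] at this
    obtain ⟨N, hN⟩ := Filter.eventually_atTop.1 (hlim.eventually (gt_mem_nhds hpos))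
    have hfin : {k | ‖b k0‖ ≤ ‖b k‖}.Finite := by
      refine (Set.finite_lt_nat N).subset fun k hk => ?_
      by_contra hkN
      have h2 := hN k (not_lt.1 hkN)
      exact absurd ((hbd k).trans_lt h2) (not_lt.2 hk)
    obtain ⟨m, hm, hmax⟩ := Set.exists_max_image _ id hfin ⟨k0, le_refl ‖b k0‖⟩
    have hm' : ‖b k0‖ ≤ ‖b m‖ := hm
    obtain ⟨S, hSz, hS⟩ := hinf.exists_subset_card_eq (m + 1)
    refine ZR.dominant b m (m + S.sup id) (by omega) (norm_pos_iff.1 (hpos.trans_le hm'))
      (fun k hk => ?_) S hS fun s hs => ?_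
    · by_contra hge
      have h2 : k ≤ m := hmax k (hm'.trans (not_lt.1 hge))
      omega
    · have h2 : s ≤ S.sup id := Finset.le_sup (f := id) hs
      rw [hb, ZR.newton x _ s (by omega)]
      exact hSz hs
  intro n
  rw [← ZR.newton x n n le_rfl]
  have : ∀ k, (fwdDiff 1)^[k] x 0 / (k.factorial : F) = 0 := hall
  simp [this]

end Pool.Agent.MP_be2dd8_ag.H53D
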