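import Pool.Agent.MP_be2dd8_ag.H53D.Main
import Pool.Agent.MP_be2dd8_ag.H53D.ZR
import Pool.Agent.MP_be2dd8_ag.H53D.ONE
import Pool.Agent.MP_be2dd8_ag.H53D.DENS
import Pool.Agent.MP_be2dd8_ag.H53D.STAB
import Pool.Agent.MP_be2dd8_ag.H53D.UD
import Pool.Agent.MP_be2dd8_ag.H53D.FROB
import Pool.Agent.MP_be2dd8_ag.H53D.DYN
import Pool.Agent.MP_be2dd8_ag.H53D.RAM
import Pool.Agent.MP_be2dd8_ag.H53D.LOC
import Pool.Agent.MP_be2dd8_ag.H53D.GOOD
import Pool.Agent.MP_be2dd8_ag.H53D.PRES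
import Pool.Agent.MP_be2dd8_ag.H53D.FAM
import Pool.Agent.MP_be2dd8_ag.H53D.SPEC
import Pool.Agent.MP_be2dd8_ag.H53D.LIFT

set_option autoImplicit false

/-! Return sets of split polynomial maps along rays. -/

namespace Pool.Agent.MP_be2dd8_ag.H53D

open Polynomial

theorem allLoc : LocStmt := loc unitS dyn (ram disc frob)

theorem allGood : GoodStmt := good allLoc (stab dens)

theorem main {N : ℕ} (α : Fin N → ℂ) (f : Fin N → ℂ[X]) :
    ∃ P : ℕ, 0 < P ∧ ∀ (T : Set (MvPolynomial (Fin N) ℂ)) (γ h : Fin N → ℕ),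
      ∃ (k : ℕ) (a b : Fin k → ℕ), (∀ j, b j = 0 ∨ b j = P) ∧
        {t | ∀ q ∈ T, MvPolynomial.eval (fun i => it (f i) (γ i + t * h i) (α i)) q = 0} =
          {t | ∃ j s, t = a j + b j * s} :=
  main_of zero ring (one ring) allGood pres (fam unitS) spec lift α f

end Pool.Agent.MP_be2dd8_ag.H53D
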