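import Pool.Agent.MP_be2dd8_ag.H53D.Spec

set_option autoImplicit false

/-! Assembly: interpolation of all orbits at one prime, and return sets along rays. -/

namespace Pool.Agent.MP_be2dd8_ag.H53D

open Polynomial Filter

namespace Main

lemma descend {K F : Type} [Field K] [Field F] (e : K →+* ℂ) (φ : K →+* F) {N : ℕ}
    (T : Set (MvPolynomial (Fin N) ℂ)) : ∃ T' : Set (MvPolynomial (Fin N) F), ∀ y : Fin N → K,
      (∀ p ∈ T, MvPolynomial.eval (fun i => e (y i)) p = 0) ↔
        ∀ q ∈ T', MvPolynomial.eval (fun i => φ (y i)) q = 0 := by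
  let := e.toAlgebra
  refine ⟨{q | ∃ p ∈ T, ∃ l : Module.Dual K ℂ,
    q = ∑ m ∈ p.support, MvPolynomial.monomial m (φ (l (p.coeff m)))}, fun y => ?_⟩
  have key : ∀ (p : MvPolynomial (Fin N) ℂ) (l : Module.Dual K ℂ),
      MvPolynomial.eval (fun i => φ (y i))
        (∑ m ∈ p.support, MvPolynomial.monomial m (φ (l (p.coeff m)))) =
      φ (l (MvPolynomial.eval (fun i => e (y i)) p)) := by
    intro p l
    rw [map_sum, MvPolynomial.eval_eq' _ p, map_sum, map_sum]
    refine Finset.sum_congr rfl fun m _ => ?_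
    have : p.coeff m * ∏ i, e (y i) ^ m i = (∏ i, y i ^ m i) • p.coeff m := by
      rw [Algebra.smul_def, mul_comm, RingHom.algebraMap_toAlgebra]
      simp
    rw [this, map_smul, MvPolynomial.eval_monomial, Finsupp.prod_fintype _ _ (by simp),
      smul_eq_mul, map_mul, mul_comm]
    simp
  constructor
  · rintro h _ ⟨p, hp, l, rfl⟩
    rw [key, h p hp, map_zero, map_zero]
  · intro h p hp
    refine (Module.forall_dual_apply_eq_zero_iff K _).1 fun l => φ.injective ?_
    rw [← key, h _ ⟨p, hp, l, rfl⟩, map_zero]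

lemma descend' {R F : Type} [CommRing R] [IsDomain R] [Field F] (e : R →+* ℂ) (φ : R →+* F)
    (he : Function.Injective e) (hφ : Function.Injective φ) {N : ℕ}
    (T : Set (MvPolynomial (Fin N) ℂ)) : ∃ T' : Set (MvPolynomial (Fin N) F), ∀ y : Fin N → R,
      (∀ p ∈ T, MvPolynomial.eval (fun i => e (y i)) p = 0) ↔
        ∀ q ∈ T', MvPolynomial.eval (fun i => φ (y i)) q = 0 := by
  obtain ⟨T', h⟩ := descend (K := FractionRing R) (IsFractionRing.lift he)
    (IsFractionRing.lift hφ) T
  refine ⟨T', fun y => ?_⟩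
  simpa only [IsFractionRing.lift_algebraMap] using h fun i => algebraMap R _ (y i)

lemma it_succ {R : Type} [CommRing R] (f : R[X]) (n : ℕ) (x : R) :
    it f (n + 1) x = f.eval (it f n x) := Function.iterate_succ_apply' _ _ _

lemma it_map {R S : Type} [CommRing R] [CommRing S] (e : R →+* S) (f : R[X]) (n : ℕ) (x : R) :
    e (it f n x) = it (f.map e) n (e x) := by
  induction n with
  | zero => rfl
  | succ n ih => rw [it_succ, it_succ, ← ih, eval_map, eval₂_at_apply]

lemma per_of_eq {R : Type} [CommRing R] (f : R[X]) (x : R) {a b : ℕ} (hab : a < b)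
    (h : it f a x = it f b x) : ∀ n, a ≤ n → ∀ k, it f (n + (b - a) * k) x = it f n x := by
  have h1 : ∀ n, a ≤ n → it f (n + (b - a)) x = it f n x := by
    intro n hn
    induction n, hn using Nat.le_induction with
    | base => rw [Nat.add_sub_cancel' hab.le, h]
    | succ n hn ih => rw [Nat.add_right_comm, it_succ, ih, it_succ]
  intro n hn k
  induction k with
  | zero => rfl
  | succ k ih => rw [mul_add, mul_one, ← add_assoc, h1 _ (by omega), ih]

lemma inj_of_infinite {R : Type} [CommRing R] (f : R[X]) (x : R)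
    (h : (Set.range fun n => it f n x).Infinite) : Function.Injective fun n => it f n x := by
  have key : ∀ a b, a < b → it f a x ≠ it f b x := by
    intro a b hab e
    refine h (((Set.finite_lt_nat b).image fun n => it f n x).subset ?_)
    rintro _ ⟨n, rfl⟩
    by_cases hn : n < b
    · exact ⟨n, hn, rfl⟩
    · refine ⟨a + (n - a) % (b - a), ?_, ?_⟩
      · have := Nat.mod_lt (n - a) (show 0 < b - a by omega)
        show a + (n - a) % (b - a) < b
        omega
      · have h2 := per_of_eq f x hab e (a + (n - a) % (b - a)) (by omega) ((n - a) / (b - a))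
        have h3 := Nat.mod_add_div (n - a) (b - a)
        show it f _ x = it f n x
        rw [← h2]
        congr 1
        omega
  intro a b e
  rcases lt_trichotomy a b with h1 | h1 | h1
  · exact absurd e (key a b h1)
  · exact h1
  · exact absurd e.symm (key b a h1)

lemma mah_eval {F : Type} [NormedField F] [IsUltrametricDist F] (hR : RingStmt) {r : ℝ}
    (hr : 0 ≤ r) {N : ℕ} (x : Fin N → ℕ → F) (hx : ∀ i, Mah r (x i))
    (q : MvPolynomial (Fin N) F) : Mah r fun k => MvPolynomial.eval (fun i => x i k) q := by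
  obtain ⟨h1, h2, -⟩ := hR F r hr
  induction q using MvPolynomial.induction_on with
  | C c => simpa using h1 c
  | add p q hp hq =>
    simp only [map_add]
    exact (h2 _ _ hp hq).1
  | mul_X p i hp =>
    simp only [map_mul, MvPolynomial.eval_X]
    exact (h2 _ _ hp (hx i)).2

/-- a model of finitely many complex polynomials over a finitely generated ring -/
lemma model (hP : PresStmt) {N : ℕ} (α : Fin N → ℂ) (f : Fin N → ℂ[X]) :
    ∃ (m : ℕ) (g : MvPolynomial (Fin m) ℤ) (μ : (Ao m g)[X]) (e : AdjoinRoot μ →+* ℂ)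
      (α' : Fin N → AdjoinRoot μ) (f' : Fin N → (AdjoinRoot μ)[X]),
      g ≠ 0 ∧ μ.Monic ∧ Function.Injective e ∧ (∀ i, e (α' i) = α i) ∧
      (∀ i, (f' i).map e = f i) ∧ ∀ i, 0 < (f i).natDegree → IsUnit (f' i).leadingCoeff ∧
        ∃ (u : AdjoinRoot μ) (cs : Multiset (AdjoinRoot μ)), IsUnit u ∧
          (f' i).derivative = C u * (cs.map fun c => X - C c).prod := by
  classical
  obtain ⟨m, g, μ, e, hg, hμ, he, hE⟩ := hP ℂ (Finset.univ.biUnion fun i =>
    {α i, (f i).leadingCoeff⁻¹, (f i).derivative.leadingCoeff⁻¹} ∪ (f i).coeffs ∪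
      (f i).derivative.roots.toFinset)
  have hα : ∀ i, ∃ a, e a = α i := fun i => hE _ (by
    simp only [Finset.mem_biUnion]; exact ⟨i, by simp, by simp⟩)
  have hf : ∀ i, ∃ f' : (AdjoinRoot μ)[X], f'.map e = f i := fun i => by
    rw [← mem_lifts, lifts_iff_coeffs_subset_range]
    intro c hc
    exact hE _ (by
      simp only [Finset.mem_biUnion]; exact ⟨i, by simp, by simp [Finset.mem_coe.1 hc]⟩)
  choose α' hα' using hα
  choose f' hf' using hf
  have unit : ∀ (q : (AdjoinRoot μ)[X]), q.map e ≠ 0 → (q.map e).leadingCoeff⁻¹ ∈ e.range →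
      IsUnit q.leadingCoeff := by
    rintro q hq ⟨v, hv⟩
    refine IsUnit.of_mul_eq_one v (he ?_)
    rw [map_mul, hv, map_one, ← leadingCoeff_map_of_injective he,
      mul_inv_cancel₀ (leadingCoeff_ne_zero.2 hq)]
  refine ⟨m, g, μ, e, α', f', hg, hμ, he, hα', hf', fun i hi => ⟨unit _ ?_ ?_, ?_⟩⟩
  · rw [hf']; rintro h; simp [h] at hi
  · rw [hf']
    exact hE _ (by simp only [Finset.mem_biUnion]; exact ⟨i, by simp, by simp⟩)
  · have hd : (f' i).derivative.map e = (f i).derivative := by rw [← derivative_map, hf']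
    have hd0 : (f i).derivative ≠ 0 := fun h => by
      have := derivative_eq_zero.1 h
      omega
    have hcs : ∃ cs : Multiset (AdjoinRoot μ), cs.map e = (f i).derivative.roots := by
      have : ∀ c ∈ (f i).derivative.roots, ∃ a, e a = c := fun c hc => hE _ (by
        simp only [Finset.mem_biUnion]
        exact ⟨i, by simp, Finset.mem_union_right _ (Multiset.mem_toFinset.2 hc)⟩)
      choose! l hl using this
      refine ⟨(f i).derivative.roots.map l, ?_⟩
      rw [Multiset.map_map]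
      conv_rhs => rw [← Multiset.map_id (f i).derivative.roots]
      exact Multiset.map_congr rfl hl
    obtain ⟨cs, hcs⟩ := hcs
    refine ⟨(f' i).derivative.leadingCoeff, cs, unit _ (by rw [hd]; exact hd0) ?_, ?_⟩
    · rw [hd]
      exact hE _ (by simp only [Finset.mem_biUnion]; exact ⟨i, by simp, by simp⟩)
    · apply map_injective e he
      rw [Polynomial.map_mul, map_C, ← leadingCoeff_map_of_injective he, hd,
        Polynomial.map_multiset_prod, Multiset.map_map]
      have := C_leadingCoeff_mul_prod_multiset_X_sub_C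
        (IsAlgClosed.card_roots_eq_natDegree (p := (f i).derivative))
      rw [← hcs, Multiset.map_map] at this
      refine this.symm.trans ?_
      congr 2
      exact Multiset.map_congr rfl fun c _ => by simp

end Main

open Main

/-- simultaneous interpolation of finitely many complex polynomial orbits -/
theorem interp (hR : RingStmt) (hO : OneStmt) (hG : GoodStmt) (hP : PresStmt) (hF : FamStmt)
    (hS : SpecStmt) (hL : LiftStmt) {N : ℕ} (α : Fin N → ℂ) (f : Fin N → ℂ[X]) :
    ∃ (R F : Type) (_ : CommRing R) (_ : IsDomain R) (_ : NormedField F) (_ : IsUltrametricDist F)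
      (_ : CharZero F) (p : ℕ) (e : R →+* ℂ) (ι : R →+* F) (x : Fin N → ℕ → R) (n0 P : ℕ),
      p.Prime ∧ ‖(p : F)‖ < 1 ∧ Function.Injective e ∧ Function.Injective ι ∧ 0 < P ∧
      (∀ i n, e (x i n) = it (f i) n (α i)) ∧
      ∀ i a, n0 ≤ a → Mah (‖(p : F)‖ ^ 2) fun k => ι (x i (a + P * k)) := by
  classical
  obtain ⟨m, g, μ, e, α', f', hg, hμ, he, hα, hf, hu⟩ := model hP α f
  have hdom : IsDomain (AdjoinRoot μ) := he.isDomain e
  have hit : ∀ i n, e (it (f' i) n (α' i)) = it (f i) n (α i) := fun i n => by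
    rw [it_map, hf, hα]
  let J : Type := {i : Fin N // (Set.range fun n => it (f i) n (α i)).Infinite}
  have hdeg : ∀ j : J, 0 < (f j.1).natDegree := fun j => by
    refine Nat.pos_of_ne_zero fun h => ?_
    have h1 := inj_of_infinite _ _ j.2 (a₁ := 1) (a₂ := 2) (by
      show it _ (0 + 1) _ = it _ (1 + 1) _
      rw [it_succ, it_succ, eq_C_of_natDegree_eq_zero h, eval_C, eval_C])
    omega
  have hev : ∀ j : J, ∀ᶠ n in atTop,
      (f' j.1).derivative.eval (it (f' j.1) n (α' j.1)) ≠ 0 := fun j => by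
    have hd0 : (f j.1).derivative ≠ 0 := fun h => by
      have := derivative_eq_zero.1 h
      have := hdeg j
      omega
    rw [← Nat.cofinite_eq_atTop, eventually_cofinite]
    refine (((f j.1).derivative.roots.toFinset.finite_toSet).preimage
      (inj_of_infinite _ _ j.2).injOn).subset fun n hn => ?_
    simp only [ne_eq, not_not, Set.mem_ofPred_eq] at hn
    simp only [Set.mem_preimage, Finset.mem_coe, Multiset.mem_toFinset, mem_roots hd0, IsRoot.def]
    rw [← hit, ← hf, derivative_map, eval_map, eval₂_at_apply, hn, map_zero]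
  obtain ⟨s, hs⟩ := hS _ (hF m g μ hg hμ hdom) J (fun j => f' j.1) (fun j => α' j.1)
    (fun j => (hu _ (hdeg j)).2) hev
  have : @Algebra.FiniteType ℤ (AdjoinRoot μ) _ _ (Ring.toIntAlgebra _) := by
    have h1 : Algebra.FiniteType ℤ (Ao m g) :=
      Algebra.FiniteType.trans (S := MvPolynomial (Fin m) ℤ) inferInstance inferInstance
    have h2 : Algebra.FiniteType ℤ (AdjoinRoot μ) := h1.trans inferInstance
    rw [Subsingleton.elim (Ring.toIntAlgebra (AdjoinRoot μ)) (AdjoinRoot.instAlgebra μ)]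
    exact h2
  obtain ⟨k, _, _, ρ, hρ⟩ := hG _ s J (fun j => f' j.1) (fun j => α' j.1) (fun j => ⟨by
    have := hdeg j
    rwa [← hf, natDegree_map_eq_of_injective he] at this, (hu _ (hdeg j)).1⟩) hs
  obtain ⟨F, _, _, _, p, ι, hp, hp1, hι, h1, h2⟩ := hL m g μ hg hμ hdom k ρ
  obtain ⟨r1, -, r3⟩ := hR F (‖(p : F)‖ ^ 2) (by positivity)
  have all : ∀ i, ∃ n0 P : ℕ, 0 < P ∧ ∀ a, n0 ≤ a →
      Mah (‖(p : F)‖ ^ 2) fun k => ι (it (f' i) (a + P * k) (α' i)) := by
    intro i
    by_cases hi : (Set.range fun n => it (f i) n (α i)).Infinite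
    · exact hO _ k F p ι ρ hp hp1 h1 h2 _ _ (hρ ⟨i, hi⟩)
    · rw [Set.not_infinite] at hi
      obtain ⟨a, -, b, -, hab, hx⟩ := Set.infinite_univ.exists_lt_map_eq_of_mapsTo
        (f := fun n => it (f i) n (α i)) (fun n _ => Set.mem_range_self n) hi
      have hx' : it (f' i) a (α' i) = it (f' i) b (α' i) := he (by rw [hit, hit]; exact hx)
      refine ⟨a, b - a, by omega, fun n hn => ?_⟩
      simp only [per_of_eq _ _ hab hx' n hn]
      exact r1 _
  choose n0 P hP0 hM using all
  refine ⟨_, F, _, hdom, _, inferInstance, inferInstance, p, e, ι,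
    fun i n => it (f' i) n (α' i), ∑ i, n0 i, ∏ i, P i, hp, hp1, he, hι,
    Finset.prod_pos fun i _ => hP0 i, hit, fun i a ha => ?_⟩
  obtain ⟨c, hc⟩ := Finset.dvd_prod_of_mem P (Finset.mem_univ i)
  have := r3 _ 0 c (hM i a ((Finset.single_le_sum (fun _ _ => Nat.zero_le _)
    (Finset.mem_univ i)).trans ha))
  simpa only [zero_add, hc, mul_assoc] using this

/-- along a ray, every class modulo `P` meets the return set finitely often or always -/
theorem ray (hZ : ZeroStmt) (hR : RingStmt) (hO : OneStmt) (hG : GoodStmt) (hP : PresStmt)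
    (hF : FamStmt) (hS : SpecStmt) (hL : LiftStmt) {N : ℕ} (α : Fin N → ℂ) (f : Fin N → ℂ[X]) :
    ∃ n0 P : ℕ, 0 < P ∧ ∀ (T : Set (MvPolynomial (Fin N) ℂ)) (γ h : Fin N → ℕ) (a : ℕ), n0 ≤ a →
      {k | ∀ q ∈ T, MvPolynomial.eval
        (fun i => it (f i) (γ i + (a + P * k) * h i) (α i)) q = 0}.Infinite →
      ∀ k, ∀ q ∈ T, MvPolynomial.eval
        (fun i => it (f i) (γ i + (a + P * k) * h i) (α i)) q = 0 := by
  obtain ⟨R, F, _, _, _, _, _, p, e, ι, x, n0, P, hp, hp1, he, hι, hP0, hx, hM⟩ :=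
    interp hR hO hG hP hF hS hL α f
  refine ⟨n0, P, hP0, fun T γ h a ha hinf k => ?_⟩
  obtain ⟨T', hT⟩ := descend' e ι he hι T
  simp only [← hx, hT] at hinf ⊢
  obtain ⟨r1, -, r3⟩ := hR F (‖(p : F)‖ ^ 2) (by positivity)
  intro q hq
  refine hZ F p hp hp1 (fun k => MvPolynomial.eval
    (fun i => ι (x i (γ i + (a + P * k) * h i))) q)
    (mah_eval hR (by positivity) (fun i k => ι (x i (γ i + (a + P * k) * h i))) (fun i => ?_) q)
    (hinf.mono fun k hk => ?_) k
  swap
  · exact hk q hq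
  rcases Nat.eq_zero_or_pos (h i) with h0 | h0
  · simp only [h0, mul_zero]
    exact r1 _
  · have := r3 _ 0 (h i) (hM i (γ i + a * h i) (by nlinarith))
    have e1 : ∀ k, γ i + a * h i + P * (0 + h i * k) = γ i + (a + P * k) * h i := fun k => by ring
    simpa only [e1] using this

/-- a set of integers that is finite or full on every late class is a finite union of
arithmetic progressions -/
theorem progressions (A : Set ℕ) (n0 P : ℕ) (hP : 0 < P)
    (h : ∀ a, n0 ≤ a → {k | a + P * k ∈ A}.Infinite → ∀ k, a + P * k ∈ A) :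
    ∃ (k : ℕ) (a b : Fin k → ℕ), (∀ j, b j = 0 ∨ b j = P) ∧
      A = {t | ∃ j s, t = a j + b j * s} := by
  classical
  let G : Set ℕ := {a | n0 ≤ a ∧ a < n0 + P ∧ {k | a + P * k ∈ A}.Infinite}
  let B : Set ℕ := {t | t ∈ A ∧ ∀ a ∈ G, ∀ k, t ≠ a + P * k}
  have hG : G.Finite := (Set.finite_lt_nat (n0 + P)).subset fun a ha => ha.2.1
  have hB : B.Finite := by
    refine ((Set.finite_lt_nat n0).union ((Set.finite_lt_nat (n0 + P)).biUnion
      (t := fun a => {t | t ∈ B ∧ n0 ≤ a ∧ ∃ k, t = a + P * k}) fun a ha => ?_)).subset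
        fun t ht => ?_
    · by_cases hi : {k | a + P * k ∈ A}.Infinite
      · refine Set.finite_empty.subset ?_
        rintro t ⟨ht, h1, k, rfl⟩
        exact ht.2 a ⟨h1, ha, hi⟩ k rfl
      · refine ((Set.not_infinite.1 hi).image fun k => a + P * k).subset ?_
        rintro t ⟨ht, -, k, rfl⟩
        exact ⟨k, ht.1, rfl⟩
    · by_cases h1 : t < n0
      · exact Or.inl h1
      · have h2 := Nat.mod_lt (t - n0) hP
        have h3 := Nat.mod_add_div (t - n0) P
        refine Or.inr (Set.mem_biUnion (x := n0 + (t - n0) % P) (by simpa using h2)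
          ⟨ht, by omega, (t - n0) / P, by omega⟩)
  let D : Set (ℕ × ℕ) := (fun a => (a, P)) '' G ∪ (fun t => (t, 0)) '' B
  have hD : D.Finite := (hG.image _).union (hB.image _)
  obtain ⟨k, l, -, hl⟩ := hD.fin_param
  refine ⟨k, fun j => (l j).1, fun j => (l j).2, fun j => ?_,
    Set.ext fun t => ⟨fun ht => ?_, ?_⟩⟩
  · have : l j ∈ D := hl ▸ ⟨j, rfl⟩
    rcases this with ⟨a, -, hj⟩ | ⟨a, -, hj⟩ <;> simp [← hj]
  · by_cases hb : t ∈ B
    · obtain ⟨j, hj⟩ : (t, 0) ∈ Set.range l := hl ▸ Or.inr ⟨t, hb, rfl⟩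
      exact ⟨j, 0, by simp [hj]⟩
    · have : ∃ a ∈ G, ∃ k, t = a + P * k := by
        by_contra hc
        push Not at hc
        exact hb ⟨ht, hc⟩
      obtain ⟨a, ha, s, rfl⟩ := this
      obtain ⟨j, hj⟩ : (a, P) ∈ Set.range l := hl ▸ Or.inl ⟨a, ha, rfl⟩
      exact ⟨j, s, by simp [hj]⟩
  · rintro ⟨j, s, rfl⟩
    have : l j ∈ D := hl ▸ ⟨j, rfl⟩
    rcases this with ⟨a, ha, hj⟩ | ⟨a, ha, hj⟩
    · simp only [← hj]
      exact h a ha.1 ha.2.2 s
    · simpa [← hj] using ha.1

theorem main_of (hZ : ZeroStmt) (hR : RingStmt) (hO : OneStmt) (hG : GoodStmt) (hP : PresStmt)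
    (hF : FamStmt) (hS : SpecStmt) (hL : LiftStmt) {N : ℕ} (α : Fin N → ℂ) (f : Fin N → ℂ[X]) :
    ∃ P : ℕ, 0 < P ∧ ∀ (T : Set (MvPolynomial (Fin N) ℂ)) (γ h : Fin N → ℕ),
      ∃ (k : ℕ) (a b : Fin k → ℕ), (∀ j, b j = 0 ∨ b j = P) ∧
        {t | ∀ q ∈ T, MvPolynomial.eval (fun i => it (f i) (γ i + t * h i) (α i)) q = 0} =
          {t | ∃ j s, t = a j + b j * s} := by
  obtain ⟨n0, P, hP0, H⟩ := ray hZ hR hO hG hP hF hS hL α f
  exact ⟨P, hP0, fun T γ h => progressions _ n0 P hP0 (H T γ h)⟩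

end Pool.Agent.MP_be2dd8_ag.H53D
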