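import Pool.Agent.MP_be2dd8_ag.H53D.Spec

set_option autoImplicit false

namespace Pool.Agent.MP_be2dd8_ag.H53D

open Polynomial

namespace PRES

/-- a finite set is algebraic over a polynomial ring -/
lemma base (K : Type) [Field K] [CharZero K] (E : Finset K) :
    ∃ (m : ℕ) (φ : MvPolynomial (Fin m) ℤ →+* K), Function.Injective φ ∧
      ∀ x ∈ E, ∃ p : (MvPolynomial (Fin m) ℤ)[X], p ≠ 0 ∧ p.eval₂ φ x = 0 := by
  obtain ⟨s, hs⟩ := (AlgebraicIndependent.matroid ℤ K).exists_isBasis (E : Set K)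
  obtain ⟨h1, h2, h3⟩ := AlgebraicIndependent.matroid_isBasis_iff.1 hs
  have : Finite s := (E.finite_toSet.subset h2).to_subtype
  obtain ⟨m, ⟨e⟩⟩ := Finite.exists_equiv_fin s
  have h4 : AlgebraicIndependent ℤ fun i => (e.symm i : K) := h1.comp _ e.symm.injective
  have h5 : Set.range (fun i => (e.symm i : K)) = s := by
    ext x
    exact ⟨fun ⟨i, hi⟩ => hi ▸ (e.symm i).2, fun hx => ⟨e ⟨x, hx⟩, by simp⟩⟩
  refine ⟨m, (MvPolynomial.aeval fun i => (e.symm i : K)).toRingHom, h4, fun x hx => ?_⟩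
  obtain ⟨p, p0, hp⟩ : IsAlgebraic (Algebra.adjoin ℤ (Set.range fun i => (e.symm i : K))) x := by
    rw [h5]
    exact h3 x hx
  obtain ⟨q, rfl⟩ := map_surjective h4.aevalEquiv.toRingHom h4.aevalEquiv.surjective p
  refine ⟨q, fun h => p0 (by rw [h, Polynomial.map_zero]), ?_⟩
  rw [aeval_def, eval₂_map] at hp
  exact hp

lemma prim (F K : Type) [Field F] [Field K] [CharZero F] [Algebra F K] (E : Finset K)
    (h : ∀ x ∈ E, IsAlgebraic F x) :
    ∃ θ : K, IsIntegral F θ ∧ ∀ x ∈ E, ∃ p : F[X], aeval θ p = x := by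
  have : FiniteDimensional F (IntermediateField.adjoin F (E : Set K)) :=
    IntermediateField.finiteDimensional_adjoin fun x hx => (h x hx).isIntegral
  obtain ⟨θ, hθ⟩ := Field.exists_primitive_element F (IntermediateField.adjoin F (E : Set K))
  have i : IsIntegral F θ := .of_finite F θ
  refine ⟨θ, IntermediateField.coe_isIntegral_iff.2 i, fun x hx => ?_⟩
  have k : (⟨x, IntermediateField.subset_adjoin F _ hx⟩ :
      IntermediateField.adjoin F (E : Set K)) ∈ Algebra.adjoin F {θ} := by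
    rw [← IntermediateField.adjoin_simple_toSubalgebra_of_isAlgebraic i.isAlgebraic, hθ]
    trivial
  rw [Algebra.adjoin_singleton_eq_range_aeval] at k
  obtain ⟨p, hp⟩ := k
  refine ⟨p, ?_⟩
  rw [IntermediateField.aeval_coe]
  exact congrArg Subtype.val hp

lemma den (A : Type) [CommRing A] [IsDomain A] (T : Finset (FractionRing A)[X]) :
    ∃ (g : A) (j : Localization.Away g →+* FractionRing A), g ≠ 0 ∧ Function.Injective j ∧
      ∀ p ∈ T, p ∈ lifts j := by
  classical
  obtain ⟨⟨g, hg⟩, h⟩ := IsLocalization.exist_integer_multiples_of_finset (nonZeroDivisors A)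
    (T.biUnion fun p => p.coeffs)
  have g0 : g ≠ 0 := nonZeroDivisors.ne_zero hg
  have g1 : algebraMap A (FractionRing A) g ≠ 0 := by simpa using g0
  refine ⟨g, IsLocalization.Away.lift g g1.isUnit, g0, ?_, fun p hp => ?_⟩
  · rw [IsLocalization.Away.lift, IsLocalization.lift_injective_iff]
    intro x y
    refine ⟨fun e => ?_, fun e => by rw [IsFractionRing.injective A _ e]⟩
    rw [IsLocalization.injective (Localization.Away g)
      (powers_le_nonZeroDivisors_of_noZeroDivisors g0) e]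
  · rw [lifts_iff_coeffs_subset_range]
    intro c hc
    obtain ⟨a, ha⟩ := h c (Finset.mem_biUnion.2 ⟨p, hp, hc⟩)
    refine ⟨algebraMap A _ a * IsLocalization.Away.invSelf g, ?_⟩
    apply mul_right_cancel₀ g1
    have k := congrArg (IsLocalization.Away.lift (S := Localization.Away g) g g1.isUnit)
      (IsLocalization.Away.mul_invSelf (S := Localization.Away g) g)
    rw [map_mul, map_one, IsLocalization.Away.lift_eq, mul_comm] at k
    rw [map_mul, mul_assoc, k, mul_one, IsLocalization.Away.lift_eq, ha, Algebra.smul_def, mul_comm]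

end PRES

open PRES in
theorem pres : PresStmt := by
  classical
  intro K _ _ E
  obtain ⟨m, φ, hφ, h⟩ := base K E
  let F := FractionRing (MvPolynomial (Fin m) ℤ)
  let ψ : F →+* K := IsFractionRing.lift hφ
  let : Algebra F K := ψ.toAlgebra
  have : CharZero F := ψ.charZero
  obtain ⟨θ, i, hθ⟩ := prim F K E fun x hx => by
    obtain ⟨p, p0, hp⟩ := h x hx
    refine ⟨p.map (algebraMap _ F),
      (Polynomial.map_ne_zero_iff (IsFractionRing.injective _ F)).2 p0, ?_⟩
    rw [aeval_def, eval₂_map, ← hp]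
    congr 1
    exact RingHom.ext fun a => IsFractionRing.lift_algebraMap hφ a
  choose! P hP using hθ
  obtain ⟨g, j, g0, hj, hT⟩ := den _ (insert (minpoly F θ) (E.image P))
  obtain ⟨μ, m1, -, m2⟩ :=
    lifts_and_natDegree_eq_and_monic (hT _ (Finset.mem_insert_self _ _)) (minpoly.monic i)
  have ev : ∀ q : (Ao m g)[X], q.eval₂ (ψ.comp j) θ = aeval θ (q.map j) := fun q => by
    rw [aeval_def, eval₂_map]
    rfl
  refine ⟨m, g, μ, AdjoinRoot.lift (ψ.comp j) θ (by rw [ev, m1, minpoly.aeval]), g0, m2, ?_,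
    fun x hx => ?_⟩
  · rw [injective_iff_map_eq_zero]
    intro a ha
    obtain ⟨q, rfl⟩ := AdjoinRoot.mk_surjective a
    rw [AdjoinRoot.lift_mk, ev] at ha
    have := minpoly.dvd F θ ha
    rw [← m1, map_dvd_map j hj m2] at this
    exact AdjoinRoot.mk_eq_zero.2 this
  · obtain ⟨q, hq⟩ := (mem_lifts _).1
      (hT _ (Finset.mem_insert_of_mem (Finset.mem_image_of_mem P hx)))
    exact ⟨AdjoinRoot.mk μ q, by rw [AdjoinRoot.lift_mk, ev, hq, hP x hx]⟩

end Pool.Agent.MP_be2dd8_ag.H53D
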