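import Mathlib

set_option autoImplicit false

/-!
Interface: primes at which no orbit meets a critical point, and p-adic interpolation of orbits.
-/

namespace Pool.Agent.MP_be2dd8_ag.H53D

open Polynomial Filter NumberField

/-- the algebraic numbers -/
abbrev Om : Type := AlgebraicClosure ℚ

/-- the `n`-th point of the orbit of `x` -/
def it {R : Type} [CommRing R] (f : R[X]) (n : ℕ) (x : R) : R := (fun z => f.eval z)^[n] x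

/-- sequences whose iterated differences decay geometrically -/
def Mah {F : Type} [NormedField F] (r : ℝ) (x : ℕ → F) : Prop :=
  ∃ A : ℝ, ∀ k n, ‖(fwdDiff 1)^[k] x n‖ ≤ A * r ^ k

def ZeroStmt : Prop :=
  ∀ (F : Type) [NormedField F] [IsUltrametricDist F] [CharZero F] (p : ℕ), p.Prime →
    ‖(p : F)‖ < 1 → ∀ x : ℕ → F, Mah (‖(p : F)‖ ^ 2) x → {n | x n = 0}.Infinite → ∀ n, x n = 0

def RingStmt : Prop :=
  ∀ (F : Type) [NormedField F] [IsUltrametricDist F] (r : ℝ), 0 ≤ r →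
    (∀ c : F, Mah r fun _ => c) ∧
    (∀ x y : ℕ → F, Mah r x → Mah r y → Mah r (x + y) ∧ Mah r (x * y)) ∧
    ∀ (x : ℕ → F) (a j : ℕ), Mah r x → Mah r fun k => x (a + j * k)

def OneStmt : Prop :=
  ∀ (R k F : Type) [CommRing R] [Field k] [Finite k] [NormedField F] [IsUltrametricDist F]
    [CharZero F] (p : ℕ) (ι : R →+* F) (ρ : R →+* k), p.Prime → ‖(p : F)‖ < 1 →
    (∀ y, ‖ι y‖ ≤ 1) → (∀ y, ρ y = 0 → ‖ι y‖ < 1) → ∀ (f : R[X]) (α : R),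
    (∀ᶠ n in atTop, ρ (f.derivative.eval (it f n α)) ≠ 0) →
    ∃ n0 P : ℕ, 0 < P ∧ ∀ a, n0 ≤ a → Mah (‖(p : F)‖ ^ 2) fun k => ι (it f (a + P * k) α)

/-- every automorphism of a number field fixes infinitely many primes -/
def DensStmt : Prop :=
  ∀ (M : Type) [Field M] [NumberField M] (σ : M ≃ₐ[ℚ] M),
    {Q : Ideal (𝓞 M) | Q.IsMaximal ∧ ∀ x y : 𝓞 M, (y : M) = σ x → x ∈ Q → y ∈ Q}.Infinite

def StabStmt : Prop :=
  ∀ (σ : Om ≃ₐ[ℚ] Om) (E : Finset Om), ∃ (O : Subring Om) (k : Type) (_ : Field k) (_ : Finite k)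
    (ρ : O →+* k), (∀ e ∈ E, e ∈ O ∧ e⁻¹ ∈ O) ∧
      ∀ x : O, ∃ h : σ x ∈ O, ρ x = 0 → ρ ⟨σ x, h⟩ = 0

def UnitStmt : Prop :=
  ∀ (E : Finset Om) (d : ℕ), ∃ (p : ℕ) (w : AbsoluteValue Om ℝ), p.Prime ∧ d < p ∧
    IsNonarchimedean w ∧ w p < 1 ∧ ∀ e ∈ E, e ≠ 0 → w e = 1

def DiscStmt : Prop :=
  ∀ (p : ℕ) (w : AbsoluteValue Om ℝ), p.Prime → IsNonarchimedean w → w p < 1 →
    ∀ (L : IntermediateField ℚ Om) [FiniteDimensional ℚ L], ∃ (π : Om) (a : ℕ), π ∈ L ∧ 0 < a ∧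
      π ≠ 0 ∧ w π < 1 ∧ (∀ x ∈ L, x ≠ 0 → ∃ b : ℤ, w x = w π ^ b) ∧
      ∀ x ∈ L, w x ≤ 1 → w (x ^ p ^ a - x) < 1

def FrobStmt : Prop :=
  ∀ (p : ℕ) (w : AbsoluteValue Om ℝ), p.Prime → IsNonarchimedean w → w p < 1 →
    ∀ (L : IntermediateField ℚ Om) [FiniteDimensional ℚ L] (a : ℕ),
      (∀ x ∈ L, w x ≤ 1 → w (x ^ p ^ a - x) < 1) →
      ∃ σ : Om ≃ₐ[ℚ] Om, (∀ x ∈ L, σ x = x) ∧ ∀ x, w x ≤ 1 → w (σ x - x ^ p ^ a) < 1

/-- the dynamics in the residue disc of a critical point whose residue is periodic -/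
def DynStmt : Prop :=
  ∀ (p : ℕ) (w : AbsoluteValue Om ℝ), p.Prime → IsNonarchimedean w → w p < 1 →
    ∀ (f : Om[X]) (τ : Om) (m : ℕ), 0 < f.natDegree → f.natDegree < p → (∀ i, w (f.coeff i) ≤ 1) →
      w f.leadingCoeff = 1 → w τ ≤ 1 → f.derivative.eval τ = 0 → 0 < m → w (it f m τ - τ) < 1 →
      ∃ (z u : Om) (δ : ℕ) (r θ : ℝ), it f m z = z ∧ w (z - τ) < 1 ∧ 2 ≤ δ ∧ δ.Coprime p ∧
        w u = 1 ∧ r < 1 ∧ 0 ≤ θ ∧ θ < 1 ∧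
        (∀ y, r < w y → w y < 1 → w (it f m (z + y) - z - u * y ^ δ) < w y ^ δ) ∧
        ∀ y, w y ≤ r → w (it f m (z + y) - z) ≤ θ * w y

/-- a Frobenius lift that fixes no approximate root of high order -/
def RamStmt : Prop :=
  ∀ (p : ℕ) (w : AbsoluteValue Om ℝ), p.Prime → IsNonarchimedean w → w p < 1 →
    ∀ (L : IntermediateField ℚ Om) [FiniteDimensional ℚ L] (I : Type) [Fintype I]
      (η u : I → Om) (δ : I → ℕ), (∀ i, η i ∈ L ∧ η i ≠ 0 ∧ w (η i) < 1) →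
      (∀ i, u i ∈ L ∧ w (u i) = 1) → (∀ i, 2 ≤ δ i ∧ (δ i).Coprime p) →
      ∃ (σ : Om ≃ₐ[ℚ] Om) (s Q : ℕ), 1 < Q ∧ (∀ x ∈ L, σ x = x) ∧
        (∀ x, w x ≤ 1 → w (σ x - x ^ Q) < 1) ∧
        ∀ i y, σ y = y →
          w (η i) ≤ w (η i - u i ^ (∑ t ∈ Finset.range s, δ i ^ t) * y ^ δ i ^ s)

/-- an automorphism that moves all iterated preimages of a fixed level -/
def LocStmt : Prop :=
  ∀ (J : Type) [Fintype J] (f : J → Om[X]) (τ : J → Om) (E : Finset Om),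
    (∀ j, 0 < (f j).natDegree) → (∀ j n, 0 < n → it (f j) n (τ j) ≠ τ j) →
    (∀ j, (f j).derivative.eval (τ j) = 0 ∨ (Set.range fun n => it (f j) n (τ j)).Finite) →
    ∃ (σ : Om ≃ₐ[ℚ] Om) (n : ℕ), (∀ e ∈ E, σ e = e) ∧ ∀ j β, it (f j) n β = τ j → σ β ≠ β

def GoodStmt : Prop :=
  ∀ (R : Type) [CommRing R] [Algebra.FiniteType ℤ R] (s : R →+* Om) (J : Type) [Fintype J]
    (f : J → R[X]) (α : J → R), (∀ j, 0 < (f j).natDegree ∧ IsUnit (f j).leadingCoeff) →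
    (∀ j, ∀ᶠ n in atTop, s ((f j).derivative.eval (it (f j) n (α j))) ≠ 0) →
    ∃ (k : Type) (_ : Field k) (_ : Finite k) (ρ : R →+* k),
      ∀ j, ∀ᶠ n in atTop, ρ ((f j).derivative.eval (it (f j) n (α j))) ≠ 0

/-- integer polynomials with one element inverted -/
abbrev Ao (m : ℕ) (g : MvPolynomial (Fin m) ℤ) : Type := Localization.Away g

def PresStmt : Prop :=
  ∀ (K : Type) [Field K] [CharZero K] (E : Finset K), ∃ (m : ℕ) (g : MvPolynomial (Fin m) ℤ)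
    (μ : (Ao m g)[X]) (e : AdjoinRoot μ →+* K), g ≠ 0 ∧ μ.Monic ∧ Function.Injective e ∧
      ∀ x ∈ E, x ∈ e.range

/-- a rich family of specialisations of `R` inside one residue class -/
def Fam (R : Type) [CommRing R] : Prop :=
  ∃ (w : AbsoluteValue Om ℝ) (I : Ideal R) (η : ℝ), IsNonarchimedean w ∧ η < 1 ∧ Finite (R ⧸ I) ∧
    ∀ a : R, a ≠ 0 → ∃ ε : ℝ, 0 < ε ∧ ∀ b : R, b ≠ 0 → ∃ s : R →+* Om,
      (∀ y, w (s y) ≤ 1) ∧ (∀ y ∈ I, w (s y) ≤ η) ∧ ε ≤ w (s a) ∧ s b ≠ 0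

def FamStmt : Prop :=
  ∀ (m : ℕ) (g : MvPolynomial (Fin m) ℤ) (μ : (Ao m g)[X]), g ≠ 0 → μ.Monic →
    IsDomain (AdjoinRoot μ) → Fam (AdjoinRoot μ)

def SpecStmt : Prop :=
  ∀ (R : Type) [CommRing R] [IsDomain R], Fam R → ∀ (J : Type) [Fintype J] (f : J → R[X])
    (α : J → R),
    (∀ j, ∃ (u : R) (cs : Multiset R), IsUnit u ∧
      (f j).derivative = C u * (cs.map fun c => X - C c).prod) →
    (∀ j, ∀ᶠ n in atTop, (f j).derivative.eval (it (f j) n (α j)) ≠ 0) →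
    ∃ s : R →+* Om, ∀ j, ∀ᶠ n in atTop, s ((f j).derivative.eval (it (f j) n (α j))) ≠ 0

def LiftStmt : Prop :=
  ∀ (m : ℕ) (g : MvPolynomial (Fin m) ℤ) (μ : (Ao m g)[X]), g ≠ 0 → μ.Monic →
    IsDomain (AdjoinRoot μ) → ∀ (k : Type) [Field k] [Finite k] (ρ : AdjoinRoot μ →+* k),
    ∃ (F : Type) (_ : NormedField F) (_ : IsUltrametricDist F) (_ : CharZero F) (p : ℕ)
      (ι : AdjoinRoot μ →+* F), p.Prime ∧ ‖(p : F)‖ < 1 ∧ Function.Injective ι ∧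
        (∀ y, ‖ι y‖ ≤ 1) ∧ ∀ y, ρ y = 0 → ‖ι y‖ < 1

end Pool.Agent.MP_be2dd8_ag.H53D
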